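import Mathlib
import Pool.Agent.Lib.Brown.Fn
import Pool.Agent.Lib.Brown.HNN
import Pool.Agent.Lib.Brown.NotFP
import Pool.Agent.Lib.Brown.Germ

-- part Pool.Agent.P.MP_267653_al.Cantor
section

/-! The ternary Cantor line, cone replacements and the full group of regular automorphisms. -/

set_option autoImplicit false

namespace Pool.Agent.P.MP_267653_al

open Function

/-- ternary sequences with the lexicographic order -/
def C : Type := ℕ → Fin 3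

noncomputable instance : LinearOrder C := inferInstanceAs (LinearOrder (Lex (ℕ → Fin 3)))

theorem C.lt_iff {y z : C} : y < z ↔ ∃ i, (∀ j < i, y j = z j) ∧ y i < z i := Iff.rfl

def cons (a : Fin 3) (y : C) : C := fun n => match n with
  | 0 => a
  | n+1 => y n

def tail (y : C) : C := fun n => y (n+1)

def z0 : C := fun _ => 0

@[simp] theorem cons_zero (a : Fin 3) (y : C) : cons a y 0 = a := rfl
@[simp] theorem cons_succ (a : Fin 3) (y : C) (n : ℕ) : cons a y (n+1) = y n := rfl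
@[simp] theorem tail_cons (a : Fin 3) (y : C) : tail (cons a y) = y := rfl
@[simp] theorem z0_apply (n : ℕ) : z0 n = 0 := rfl
theorem cons_tail (y : C) : cons (y 0) (tail y) = y := funext fun n => by cases n <;> rfl
theorem exists_cons (y : C) : ∃ a z, y = cons a z := ⟨_, _, (cons_tail y).symm⟩
@[simp] theorem cons_z0 : cons 0 z0 = z0 := cons_tail z0

@[simp] theorem cons_inj {a b : Fin 3} {y z : C} : cons a y = cons b z ↔ a = b ∧ y = z :=
  ⟨fun h => ⟨congrFun h 0, congrArg tail h⟩, by rintro ⟨rfl, rfl⟩; rfl⟩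

@[simp] theorem cons_lt {a b : Fin 3} {y z : C} :
    cons a y < cons b z ↔ a < b ∨ (a = b ∧ y < z) := by
  constructor
  · rintro ⟨i, h1, h2⟩
    cases i with
    | zero => exact Or.inl h2
    | succ i => exact Or.inr ⟨h1 0 (by omega), i, fun j hj => h1 (j+1) (by omega), h2⟩
  · rintro (h | ⟨rfl, i, h1, h2⟩)
    · exact ⟨0, by simp, h⟩
    · exact ⟨i+1, fun j hj => by cases j; rfl; exact h1 _ (by omega), h2⟩

theorem z0_le (y : C) : z0 ≤ y := not_lt.1 (by rintro ⟨i, -, h⟩; simp at h)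

/-- prepend a finite word -/
def app (u : List (Fin 3)) (y : C) : C := u.foldr cons y

@[simp] theorem app_nil (y : C) : app [] y = y := rfl
@[simp] theorem app_cons (a : Fin 3) (u : List (Fin 3)) (y : C) :
    app (a :: u) y = cons a (app u y) := rfl
@[simp] theorem app_append (u v : List (Fin 3)) (y : C) : app (u ++ v) y = app u (app v y) :=
  List.foldr_append

@[simp] theorem app_lt (u : List (Fin 3)) {y z : C} : app u y < app u z ↔ y < z := by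
  induction u <;> simp [*]

@[simp] theorem app_inj (u : List (Fin 3)) {y z : C} : app u y = app u z ↔ y = z := by
  induction u <;> simp [*]

theorem app_ge (u : List (Fin 3)) (y : C) (i : ℕ) : app u y (i + u.length) = y i := by
  induction u with
  | nil => rfl
  | cons a u ih => exact ih

theorem app_lo (u : List (Fin 3)) (y z : C) : ∀ i < u.length, app u y i = app u z i := by
  induction u with
  | nil => simp
  | cons a u ih =>
    intro i hi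
    cases i with
    | zero => rfl
    | succ i => exact ih i (by simpa using hi)

theorem exists_app (N : ℕ) : ∀ y : C, ∃ u z, u.length = N ∧ y = app u z := by
  induction N with
  | zero => exact fun y => ⟨[], y, rfl, rfl⟩
  | succ N ih =>
    intro y
    obtain ⟨a, y, rfl⟩ := exists_cons y
    obtain ⟨u, z, h, rfl⟩ := ih y
    exact ⟨a :: u, z, by simp [h], rfl⟩

theorem of_agree : ∀ (u : List (Fin 3)) (y z : C), (∀ i < u.length, z i = app u y i) →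
    ∃ w, z = app u w
  | [], _, z, _ => ⟨z, rfl⟩
  | a :: u, y, z, h => by
    obtain ⟨b, z, rfl⟩ := exists_cons z
    obtain ⟨w, rfl⟩ := of_agree u y z fun i hi => h (i+1) (by simpa using hi)
    obtain rfl : b = a := h 0 (by simp)
    exact ⟨w, rfl⟩

theorem app_eq : ∀ {u v : List (Fin 3)} {y z : C}, app u y = app v z → u.length ≤ v.length →
    ∃ w, v = u ++ w ∧ y = app w z
  | [], v, _, _, h, _ => ⟨v, rfl, h⟩
  | a :: u, [], _, _, _, h => by simp at h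
  | a :: u, b :: v, y, z, h, hl => by
    simp only [app_cons, cons_inj] at h
    obtain ⟨w, rfl, h2⟩ := app_eq h.2 (by simpa using hl)
    exact ⟨w, by simp [h.1], h2⟩

/-- the line -/
@[ext] structure L where
  k : ℤ
  s : C

noncomputable instance : LinearOrder L :=
  LinearOrder.lift' (fun z => toLex (z.k, z.s)) fun _ _ h =>
    L.ext (congrArg (fun p => (ofLex p).1) h) (congrArg (fun p => (ofLex p).2) h)

theorem L.lt_iff {z w : L} : z < w ↔ z.k < w.k ∨ (z.k = w.k ∧ z.s < w.s) :=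
  Prod.Lex.toLex_lt_toLex

theorem L.k_mono {z w : L} (h : z ≤ w) : z.k ≤ w.k := by
  by_contra h'
  exact absurd h (not_le.2 (L.lt_iff.2 (Or.inl (not_le.1 h'))))

/-- start of a block -/
def st (k : ℤ) : L := ⟨k, z0⟩

@[simp] theorem st_k (k : ℤ) : (st k).k = k := rfl

theorem st_le {k : ℤ} {z : L} : st k ≤ z ↔ k ≤ z.k := by
  refine ⟨L.k_mono, fun h => not_lt.1 fun h' => ?_⟩
  rcases L.lt_iff.1 h' with h' | ⟨-, h'⟩
  · exact absurd h (not_le.2 h')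
  · exact absurd (z0_le _) (not_le.2 h')

theorem lt_st {k : ℤ} {z : L} : z < st k ↔ z.k < k := by rw [← not_le, st_le, not_le]

abbrev Au := L ≃o L

/-- addresses of cones -/
abbrev Ad := ℤ × List (Fin 3)

/-- the cone map of an address -/
def cm (a : Ad) (y : C) : L := ⟨a.1, app a.2 y⟩

def Ad.ex (a : Ad) (w : List (Fin 3)) : Ad := (a.1, a.2 ++ w)

theorem cm_ex (a : Ad) (w : List (Fin 3)) (y : C) : cm (a.ex w) y = cm a (app w y) := by
  simp [cm, Ad.ex]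

@[simp] theorem cm_lt (a : Ad) {y z : C} : cm a y < cm a z ↔ y < z := by simp [L.lt_iff, cm]

@[simp] theorem cm_inj (a : Ad) {y z : C} : cm a y = cm a z ↔ y = z := by simp [cm]

def wp (u : List (Fin 3)) : ZMod 2 := (u.count 1 : ℕ)

@[simp] theorem wp_nil : wp [] = 0 := rfl
@[simp] theorem wp_append (u v : List (Fin 3)) : wp (u ++ v) = wp u + wp v := by simp [wp]
theorem wp_cons (a : Fin 3) (u : List (Fin 3)) : wp (a :: u) = ((a : ℕ) : ZMod 2) + wp u := by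
  fin_cases a <;> simp [wp, add_comm]
  rfl

def par (a : Ad) : ZMod 2 := a.1 + wp a.2

@[simp] theorem par_ex (a : Ad) (w : List (Fin 3)) : par (a.ex w) = par a + wp w := by
  simp [par, Ad.ex, add_assoc]

theorem cm_eq {a b : Ad} {y z : C} (h : cm a y = cm b z) :
    ∃ u v w, a.ex u = b.ex v ∧ y = app u w ∧ z = app v w := by
  have h1 : a.1 = b.1 := congrArg L.k h
  have h2 : app a.2 y = app b.2 z := congrArg L.s h
  rcases le_total a.2.length b.2.length with hl | hl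
  · obtain ⟨w, h3, h4⟩ := app_eq h2 hl
    exact ⟨w, [], z, by simp [Ad.ex, h1, h3], h4, rfl⟩
  · obtain ⟨w, h3, h4⟩ := app_eq h2.symm hl
    exact ⟨[], w, y, by simp [Ad.ex, h1, h3], rfl, h4⟩

/-- the neighbourhood filter of the cone topology -/
def nb (z : L) : Filter L where
  sets := {S | ∃ N, ∀ w : L, w.k = z.k → (∀ i < N, w.s i = z.s i) → w ∈ S}
  univ_sets := ⟨0, fun _ _ _ => trivial⟩
  sets_of_superset := by rintro S T ⟨N, h⟩ hST; exact ⟨N, fun w h1 h2 => hST (h w h1 h2)⟩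
  inter_sets := by
    rintro S T ⟨N, h⟩ ⟨M, h'⟩
    exact ⟨N + M, fun w h1 h2 => ⟨h w h1 fun i hi => h2 i (by omega),
      h' w h1 fun i hi => h2 i (by omega)⟩⟩

theorem ev_nb {z : L} {P : L → Prop} :
    (∀ᶠ w in nb z, P w) ↔ ∃ N, ∀ w : L, w.k = z.k → (∀ i < N, w.s i = z.s i) → P w := Iff.rfl

theorem ev_cone (a : Ad) (y : C) : ∀ᶠ w in nb (cm a y), ∃ v, w = cm a v :=
  ⟨a.2.length, fun w h1 h2 => by
    obtain ⟨v, hv⟩ := of_agree a.2 y w.s h2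
    exact ⟨v, L.ext h1 hv⟩⟩

theorem ev_of_long {z : L} {P : L → Prop} (h : ∀ᶠ w in nb z, P w) :
    ∃ N, ∀ (a : Ad) (y : C), z = cm a y → N ≤ a.2.length → ∀ v, P (cm a v) := by
  obtain ⟨N, h⟩ := h
  refine ⟨N, ?_⟩
  rintro a y rfl hN v
  exact h _ rfl fun i hi => app_lo _ _ _ i (by omega)

theorem ev_ex {a : Ad} {y : C} {P : L → Prop} (h : ∀ᶠ w in nb (cm a y), P w) :
    ∃ u y', y = app u y' ∧ ∀ v, P (cm (a.ex u) v) := by
  obtain ⟨N, h⟩ := ev_of_long h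
  obtain ⟨u, y', h1, rfl⟩ := exists_app N y
  exact ⟨u, y', rfl, h _ y' (cm_ex _ _ _).symm (by simp [Ad.ex, h1])⟩

theorem ev_not_cone {a : Ad} {z : L} (h : ∀ v, z ≠ cm a v) : ∀ᶠ w in nb z, ∀ v, w ≠ cm a v :=
  ⟨a.2.length, fun w h1 h2 v e => by
    subst e
    obtain ⟨v', hv⟩ := of_agree a.2 v z.s fun i hi => (h2 i hi).symm
    exact h v' (L.ext h1.symm hv)⟩

theorem ev_lt {z y : L} (h : z < y) : ∀ᶠ w in nb z, w < y := by
  rcases L.lt_iff.1 h with h | ⟨h, i, h1, h2⟩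
  · exact ⟨0, fun w hw _ => L.lt_iff.2 (Or.inl (hw ▸ h))⟩
  · exact ⟨i+1, fun w hw h3 => L.lt_iff.2 (Or.inr ⟨hw.trans h, i,
      fun j hj => (h3 j (by omega)).trans (h1 j hj), (h3 i (by omega)).symm ▸ h2⟩)⟩

theorem ev_gt {z y : L} (h : y < z) : ∀ᶠ w in nb z, y < w := by
  rcases L.lt_iff.1 h with h | ⟨h, i, h1, h2⟩
  · exact ⟨0, fun w hw _ => L.lt_iff.2 (Or.inl (hw ▸ h))⟩
  · exact ⟨i+1, fun w hw h3 => L.lt_iff.2 (Or.inr ⟨h.trans hw.symm, i,
      fun j hj => (h1 j hj).trans (h3 j (by omega)).symm, (h3 i (by omega)).symm ▸ h2⟩)⟩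

/-- left ends of cones, with their class -/
def EC (c : ZMod 2) (x : L) : Prop := ∃ a, par a = c ∧ x = cm a z0

theorem EC.st (k : ℤ) : EC k (st k) := ⟨(k, []), by simp [par], rfl⟩

theorem EC.ev_ge {c : ZMod 2} {x z : L} (hx : EC c x) (h : x ≤ z) : ∀ᶠ w in nb z, x ≤ w := by
  rcases h.eq_or_lt with rfl | h
  · obtain ⟨a, -, rfl⟩ := hx
    filter_upwards [ev_cone a z0]
    rintro _ ⟨v, rfl⟩
    exact not_lt.1 (by simp [z0_le])
  · exact (ev_gt h).mono fun w => le_of_lt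

theorem wp_zero : ∀ {u : List (Fin 3)} {y : C}, z0 = app u y → wp u = 0 ∧ y = z0
  | [], _, h => ⟨rfl, h.symm⟩
  | a :: u, y, h => by
    rw [← cons_z0, app_cons, cons_inj] at h
    obtain ⟨h1, h2⟩ := wp_zero h.2
    exact ⟨by rw [wp_cons, h1, ← h.1]; rfl, h2⟩

theorem EC.uniq {c d : ZMod 2} {x : L} (h : EC c x) (h' : EC d x) : c = d := by
  obtain ⟨a, rfl, rfl⟩ := h
  obtain ⟨b, rfl, h⟩ := h'
  obtain ⟨u, v, w, h1, h2, h3⟩ := cm_eq h
  simpa [(wp_zero h2).1, (wp_zero h3).1] using congrArg par h1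

/-- points without a successor -/
def NS (x : L) : Prop := ∀ N, ∃ i, N ≤ i ∧ x.s i ≠ 2

theorem EC.ns {c : ZMod 2} {x : L} (h : EC c x) : NS x := by
  obtain ⟨a, -, rfl⟩ := h
  exact fun N => ⟨N + a.2.length, by omega, by simp [cm, app_ge]⟩

theorem NS.dens {x y : L} (hx : NS x) (h : x < y) (c : ZMod 2) : ∃ e, EC c e ∧ x < e ∧ e < y := by
  obtain ⟨N, hN⟩ := ev_of_long (ev_lt h)
  obtain ⟨i, hi, h2⟩ := hx N
  obtain ⟨u, z, hu, hz⟩ := exists_app i x.s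
  have h3 : z 0 < 2 := by
    have := app_ge u z 0
    rw [← hz, hu, zero_add] at this
    rw [← this]; omega
  have h4 : ∀ v, x < cm (x.k, u) (cons 2 v) ∧ cm (x.k, u) (cons 2 v) < y := fun v =>
    ⟨by
      have : x = cm (x.k, u) (cons (z 0) (tail z)) := L.ext rfl (by rw [cons_tail]; exact hz)
      rw [this]; simp [cm, L.lt_iff, h3], hN (x.k, u) z (L.ext rfl hz) (by simp [hu, hi]) _⟩
  by_cases hc : par (x.k, u) = c
  · exact ⟨_, ⟨Ad.ex (x.k, u) [2], by simpa [wp] using hc, (cm_ex _ _ _).symm⟩, h4 z0⟩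
  · refine ⟨_, ⟨Ad.ex (x.k, u) [2, 1], ?_, (cm_ex _ _ _).symm⟩, h4 (cons 1 z0)⟩
    rw [par_ex, show wp [2, 1] = 1 from rfl]
    revert hc; generalize par (x.k, u) = d; revert c d; decide

theorem exists_E {x y : L} (h : x < y) : ∃ c e, EC c e ∧ x < e ∧ e ≤ y := by
  obtain ⟨u, y', h1, h2⟩ := ev_ex (a := (y.k, [])) (y := y.s) (ev_gt h)
  refine ⟨_, _, ⟨_, rfl, rfl⟩, h2 z0, ?_⟩
  have : y = cm (Ad.ex (y.k, []) u) y' := by rw [cm_ex, ← h1]; rfl
  conv_rhs => rw [this]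
  exact not_lt.1 (by simp [z0_le])

/-- regularity: locally a parity preserving cone replacement -/
def Reg (g : L → L) (z : L) : Prop :=
  ∃ a b y, z = cm a y ∧ par a = par b ∧ ∀ w, g (cm a w) = cm b w

theorem Reg.congr {g h : L → L} {z : L} (hg : Reg g z) (e : ∀ᶠ w in nb z, h w = g w) :
    Reg h z := by
  obtain ⟨a, b, y, rfl, h1, h2⟩ := hg
  obtain ⟨u, y', rfl, h3⟩ := ev_ex e
  exact ⟨a.ex u, b.ex u, y', (cm_ex _ _ _).symm, by simp [h1], fun w => by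
    rw [h3, cm_ex, cm_ex, h2]⟩

theorem Reg.id (z : L) : Reg (fun w => w) z := ⟨(z.k, []), (z.k, []), z.s, rfl, rfl, fun _ => rfl⟩

theorem Reg.comp {g h : L → L} {z : L} (hh : Reg h (g z)) (hg : Reg g z) :
    Reg (fun w => h (g w)) z := by
  obtain ⟨a, b, y, rfl, h1, h2⟩ := hg
  obtain ⟨a', b', y', h3, h4, h5⟩ := hh
  rw [h2] at h3
  obtain ⟨u, v, w, e1, rfl, rfl⟩ := cm_eq h3
  refine ⟨a.ex u, b'.ex v, w, (cm_ex _ _ _).symm, ?_, fun w => ?_⟩
  · simpa [h1, h4] using congrArg par e1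
  · beta_reduce
    rw [cm_ex, h2, ← cm_ex, e1, cm_ex, h5, cm_ex]

theorem Reg.mul {g h : Au} {z : L} (hh : Reg h (g z)) (hg : Reg g z) : Reg (h * g : Au) z :=
  hh.comp hg

theorem Reg.inv {g : Au} {z : L} (hg : Reg g z) : Reg (g⁻¹ : Au) (g z) := by
  obtain ⟨a, b, y, rfl, h1, h2⟩ := hg
  exact ⟨b, a, y, h2 y, h1.symm, fun w => by rw [← h2]; simp⟩

theorem Reg.ec {g : L → L} {c : ZMod 2} {x : L} (hg : Reg g x) (hx : EC c x) : EC c (g x) := by
  obtain ⟨a, b, y, rfl, h1, h2⟩ := hg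
  obtain ⟨a', rfl, h3⟩ := hx
  obtain ⟨u, v, w, e1, rfl, e3⟩ := cm_eq h3
  obtain ⟨e4, rfl⟩ := wp_zero e3
  exact ⟨b.ex u, by simpa [h1, e4] using congrArg par e1, by rw [h2, cm_ex]⟩

/-- everywhere regular automorphisms -/
def RA : Subgroup Au where
  carrier := {g | ∀ z, Reg g z}
  one_mem' := Reg.id
  mul_mem' ha hb z := (ha _).mul (hb z)
  inv_mem' {g} ha z := by simpa using (ha (g⁻¹ z)).inv

theorem EC.ra {c : ZMod 2} {x : L} (hx : EC c x) {g : Au} (hg : g ∈ RA) : EC c (g x) :=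
  (hg x).ec hx

theorem exists_glue (g h : Au) (x : L) (e : g x = h x) :
    ∃ f : Au, (∀ z ≤ x, f z = g z) ∧ ∀ z, x ≤ z → f z = h z := by
  let f : L → L := fun z => if z ≤ x then g z else h z
  have h1 : ∀ z ≤ x, f z = g z := fun z hz => if_pos hz
  have h2 : ∀ z, x ≤ z → f z = h z := fun z hz => by
    rcases hz.eq_or_lt with rfl | hz
    · rw [h1 _ le_rfl, e]
    · exact if_neg (not_le.2 hz)
  refine ⟨StrictMono.orderIsoOfSurjective f (fun a b hab => ?_) (fun w => ?_), h1, h2⟩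
  · rcases le_total b x with hb | hb
    · rw [h1 a (hab.le.trans hb), h1 b hb]; exact g.strictMono hab
    · rcases le_total x a with ha | ha
      · rw [h2 a ha, h2 b hb]; exact h.strictMono hab
      · rw [h1 a ha, h2 b hb]
        rcases ha.eq_or_lt with rfl | ha
        · rw [e]; exact h.strictMono hab
        · exact (g.strictMono ha).trans_le (e ▸ h.monotone hb)
  · rcases le_total w (g x) with hw | hw
    · exact ⟨g.symm w, by rw [h1 _ (g.symm_apply_le.2 hw)]; simp⟩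
    · exact ⟨h.symm w, by rw [h2 _ (h.le_symm_apply.2 (e ▸ hw))]; simp⟩

theorem glue_ra {g h : Au} (hg : g ∈ RA) (hh : h ∈ RA) {c : ZMod 2} {x : L} (hx : EC c x)
    (e : g x = h x) : ∃ f ∈ RA, (∀ z ≤ x, f z = g z) ∧ ∀ z, x ≤ z → f z = h z := by
  obtain ⟨f, h1, h2⟩ := exists_glue g h x e
  refine ⟨f, fun z => ?_, h1, h2⟩
  rcases lt_or_ge z x with hz | hz
  · exact (hg z).congr ((ev_lt hz).mono fun w hw => h1 w hw.le)
  · exact (hh z).congr ((hx.ev_ge hz).mono h2)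

/-- shift of blocks -/
def sh (j : ℤ) : Au where
  toFun z := ⟨z.k + j, z.s⟩
  invFun z := ⟨z.k - j, z.s⟩
  left_inv z := by simp
  right_inv z := by simp
  map_rel_iff' := by
    intro a b
    simp only [← not_lt, L.lt_iff]
    simp

theorem sh_apply (j : ℤ) (z : L) : sh j z = ⟨z.k + j, z.s⟩ := rfl

theorem sh_mem {j : ℤ} (hj : (j : ZMod 2) = 0) : sh j ∈ RA := fun z =>
  ⟨(z.k, []), (z.k + j, []), z.s, rfl, by simp [par, hj], fun _ => rfl⟩

/-- multiplication by three -/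
noncomputable def S3 : Au :=
  StrictMono.orderIsoOfSurjective (fun z => ⟨3 * z.k + (z.s 0 : ℕ), tail z.s⟩)
    (by
      rintro ⟨k, y⟩ ⟨l, z⟩ h
      obtain ⟨a, y, rfl⟩ := exists_cons y
      obtain ⟨b, z, rfl⟩ := exists_cons z
      simp only [L.lt_iff, cons_lt, cons_zero, tail_cons] at h ⊢
      rcases h with h | ⟨rfl, h | ⟨rfl, h⟩⟩
      · left; omega
      · left; omega
      · exact Or.inr ⟨rfl, h⟩)
    (fun z => ⟨⟨z.k / 3, cons ⟨(z.k % 3).toNat, by omega⟩ z.s⟩, L.ext (by simp; omega) rfl⟩)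

theorem S3_cons (k : ℤ) (a : Fin 3) (y : C) : S3 ⟨k, cons a y⟩ = ⟨3 * k + (a : ℕ), y⟩ := rfl

theorem S3_mem : S3 ∈ RA := by
  rintro ⟨k, y⟩
  obtain ⟨a, y, rfl⟩ := exists_cons y
  refine ⟨(k, [a]), (3 * k + (a : ℕ), []), y, rfl, ?_, fun _ => rfl⟩
  simp only [par, wp_cons]
  push_cast
  rw [show (3 : ZMod 2) = 1 from rfl]; simp

theorem S3_st (k : ℤ) : S3 (st k) = st (3 * k) := by
  rw [st, ← cons_z0, S3_cons]; simp [st]

theorem S3_pow : ∀ (u : List (Fin 3)) (k : ℤ), ∃ l : ℤ, (l : ZMod 2) = par (k, u) ∧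
    ∀ y, (S3 ^ u.length) (cm (k, u) y) = ⟨l, y⟩
  | [], k => ⟨k, by simp [par], fun _ => rfl⟩
  | a :: u, k => by
    obtain ⟨l, h1, h2⟩ := S3_pow u (3 * k + (a : ℕ))
    refine ⟨l, ?_, fun y => by rw [List.length_cons, pow_succ]; exact h2 y⟩
    rw [h1]
    simp only [par, wp_cons]
    push_cast
    rw [show (3 : ZMod 2) = 1 from rfl]; ring

theorem ext_cone {a b : Ad} (h : par a = par b) : ∃ g ∈ RA, ∀ y, g (cm a y) = cm b y := by
  obtain ⟨k, h1, h2⟩ := S3_pow a.2 a.1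
  obtain ⟨l, h3, h4⟩ := S3_pow b.2 b.1
  refine ⟨(S3 ^ b.2.length)⁻¹ * sh (l - k) * S3 ^ a.2.length, mul_mem (mul_mem (inv_mem
    (pow_mem S3_mem _)) (sh_mem (by push_cast; rw [h1, h3]; simp [h]))) (pow_mem S3_mem _),
    fun y => ?_⟩
  rw [RelIso.mul_apply, RelIso.mul_apply, h2, sh_apply, add_sub_cancel, ← h4]
  simp

theorem EC.S3_pow {c : ZMod 2} {x : L} (hx : EC c x) :
    ∀ᶠ N in Filter.atTop, ∃ k, (S3 ^ N) x = Pool.Agent.P.MP_267653_al.st k := by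
  obtain ⟨a, -, rfl⟩ := hx
  refine Filter.eventually_atTop.2 ⟨a.2.length, fun N hN => ?_⟩
  induction N, hN using Nat.le_induction with
  | base =>
    obtain ⟨k, -, h⟩ := Pool.Agent.P.MP_267653_al.S3_pow a.2 a.1
    exact ⟨k, h z0⟩
  | succ N _ ih =>
    obtain ⟨k, h⟩ := ih
    exact ⟨3 * k, by rw [pow_succ', RelIso.mul_apply, h, S3_st]⟩

theorem key_st (k l : ℤ) (h : k < l) (i : ℕ) :
    ∃ g ∈ RA, g (st k) = st k ∧ g (st l) = st (l + 2 * i) := by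
  induction i with
  | zero => exact ⟨1, one_mem _, rfl, by simp⟩
  | succ i ih =>
    obtain ⟨g, hg, h1, h2⟩ := ih
    obtain ⟨f, hf, h3, h4⟩ := glue_ra (g := sh (-(2 * k)) * S3) (h := sh 2)
      (mul_mem (sh_mem (by push_cast; rw [show (2 : ZMod 2) = 0 from rfl]; simp)) S3_mem)
      (sh_mem rfl) (EC.st (k+1))
      (by rw [RelIso.mul_apply, S3_st]; exact L.ext (by simp [sh_apply]; ring) rfl)
    refine ⟨f * g, mul_mem hf hg, ?_, ?_⟩
    · rw [RelIso.mul_apply, h1, h3 _ (st_le.2 (by simp)), RelIso.mul_apply, S3_st]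
      exact L.ext (by simp [sh_apply]; ring) rfl
    · rw [RelIso.mul_apply, h2, h4 _ (st_le.2 (by simp; omega))]
      exact L.ext (by simp [sh_apply]; ring) rfl

/-- the key transitivity lemma -/
theorem key {c d : ZMod 2} {x y x' y' : L} (hx : EC c x) (hx' : EC c x') (hy : EC d y)
    (hy' : EC d y') (h : x < y) (h' : x' < y') : ∃ g ∈ RA, g x = x' ∧ g y = y' := by
  obtain ⟨N, ⟨k, h1⟩, ⟨k', h2⟩, ⟨l, h3⟩, ⟨l', h4⟩⟩ :=
    (hx.S3_pow.and (hx'.S3_pow.and (hy.S3_pow.and hy'.S3_pow))).exists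
  have hS := pow_mem S3_mem N
  have e1 : (k : ZMod 2) = k' := ((EC.st k).uniq (h1 ▸ hx.ra hS)).trans
    ((EC.st k').uniq (h2 ▸ hx'.ra hS)).symm
  have e2 : (l : ZMod 2) = l' := ((EC.st l).uniq (h3 ▸ hy.ra hS)).trans
    ((EC.st l').uniq (h4 ▸ hy'.ra hS)).symm
  have l1 : k < l := lt_st.1 (h1 ▸ h3 ▸ (S3 ^ N).strictMono h)
  have l2 : k' < l' := lt_st.1 (h2 ▸ h4 ▸ (S3 ^ N).strictMono h')
  rw [ZMod.intCast_eq_intCast_iff_dvd_sub] at e1 e2
  obtain ⟨g, hg, h5, h6⟩ := key_st k l l1 ((l' - k' - (l - k)) / 2).toNat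
  obtain ⟨g', hg', h7, h8⟩ := key_st k' l' l2 ((l - k - (l' - k')) / 2).toNat
  refine ⟨(S3 ^ N)⁻¹ * g'⁻¹ * sh (k' - k) * g * S3 ^ N, mul_mem (mul_mem (mul_mem (mul_mem
    (inv_mem hS) (inv_mem hg')) (sh_mem ((ZMod.intCast_zmod_eq_zero_iff_dvd _ _).2 e1))) hg) hS,
    ?_, ?_⟩
  · simp only [RelIso.mul_apply, h1, h5]
    rw [show sh (k' - k) (st k) = st k' from L.ext (by simp [sh_apply]) rfl, ← h7]
    simp [← h2]
  · simp only [RelIso.mul_apply, h3, h6]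
    rw [show sh (k' - k) (st (l + 2 * ((l' - k' - (l - k)) / 2).toNat)) = g' (st l') from
      h8 ▸ L.ext (by simp only [sh_apply, st_k]; push_cast at e1 e2; omega) rfl]
    simp [← h4]

theorem ext2 {h : Au} (hh : h ∈ RA) {c d e f : ZMod 2} {x y x' y' a b : L} (hx : EC c x)
    (hx' : EC c x') (hy : EC d y) (hy' : EC d y') (ha : EC e a) (hb : EC f b) (h1 : x < a)
    (h2 : a ≤ b) (h3 : b < y) (h4 : x' < h a) (h5 : h b < y') :
    ∃ g ∈ RA, g x = x' ∧ g y = y' ∧ ∀ z, a ≤ z → z ≤ b → g z = h z := by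
  obtain ⟨g1, hg1, e1, e2⟩ := key hx hx' ha (ha.ra hh) h1 h4
  obtain ⟨g2, hg2, e3, e4⟩ := key hb (hb.ra hh) hy hy' h3 h5
  obtain ⟨f1, hf1, e5, e6⟩ := glue_ra hg1 hh ha e2
  obtain ⟨f2, hf2, e7, e8⟩ := glue_ra hf1 hg2 hb (by rw [e6 b h2, e3])
  exact ⟨f2, hf2, by rw [e7 _ (h1.le.trans h2), e5 _ h1.le, e1], by rw [e8 _ h3.le, e4],
    fun z h6 h7 => by rw [e7 z h7, e6 z h6]⟩

/-- automorphisms supported in a half-open interval -/
def Sp (x y : L) : Subgroup Au where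
  carrier := {g | ∀ z, z < x ∨ y ≤ z → g z = z}
  one_mem' _ _ := rfl
  mul_mem' ha hb z hz := by rw [RelIso.mul_apply, hb z hz, ha z hz]
  inv_mem' {g} ha z hz := by conv_lhs => rw [← ha z hz]; simp

theorem Sp.mono {x y x' y' : L} (hx : x' ≤ x) (hy : y ≤ y') : Sp x y ≤ Sp x' y' :=
  fun _ hg z hz => hg z (hz.imp (fun h => h.trans_le hx) hy.trans)

theorem Sp.maps {x y : L} {g : Au} (hg : g ∈ Sp x y) {z : L} (h1 : x ≤ z) (h2 : z < y) :
    x ≤ g z ∧ g z < y := by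
  by_contra h
  have := g.injective (hg (g z) (by simpa only [not_and_or, not_le, not_lt] using h))
  rw [this] at h
  exact h ⟨h1, h2⟩

theorem Sp.lo {x y : L} {g : Au} (hg : g ∈ Sp x y) : g x = x := by
  rcases lt_or_ge x y with h | h
  · refine le_antisymm ?_ (Sp.maps hg le_rfl h).1
    simpa using g.monotone (Sp.maps ((Sp x y).inv_mem hg) le_rfl h).1
  · exact hg x (Or.inr h)

theorem Sp.conj {x y : L} {g : Au} (hg : g ∈ Sp x y) (h : Au) : h * g * h⁻¹ ∈ Sp (h x) (h y) := by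
  intro z hz
  obtain ⟨z, rfl⟩ := h.surjective z
  simp only [OrderIso.lt_iff_lt, OrderIso.le_iff_le] at hz
  simp [hg z hz]

/-- the Higman-Thompson group of an interval -/
def F (x y : L) : Subgroup Au := RA ⊓ Sp x y

theorem cut {g : Au} (hg : g ∈ RA) {c d : ZMod 2} {x y : L} (hx : EC c x) (hy : EC d y)
    (h : x ≤ y) (e1 : g x = x) (e2 : g y = y) : ∃ f ∈ F x y, ∀ z, x ≤ z → z ≤ y → f z = g z := by
  obtain ⟨f1, hf1, h1, h2⟩ := glue_ra hg (one_mem RA) hy e2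
  obtain ⟨f2, hf2, h3, h4⟩ := glue_ra (one_mem RA) hf1 hx (by rw [h1 x h, e1]; rfl)
  refine ⟨f2, ⟨hf2, ?_⟩, fun z h5 h6 => by rw [h4 z h5, h1 z h6]⟩
  rintro z (hz | hz)
  · exact h3 z hz.le
  · rw [h4 z (h.trans hz), h2 z hz]; rfl

end Pool.Agent.P.MP_267653_al
end

-- part Pool.Agent.P.MP_267653_al.Trans
section

/-! The exotic transducer, the reflection, and the special orbit. -/

set_option autoImplicit false

namespace Pool.Agent.P.MP_267653_al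

open Function Filter

def rn : ℕ → Bool → C → Fin 3
  | 0, false, y => y 0
  | i+1, false, y => rn i (y 0 = 1) (tail y)
  | 0, true, y => if y 0 = 2 then (if y 1 = 0 then 0 else y 1) else 0
  | 1, true, y => if y 0 = 2 then (if y 1 = 0 then 2 else rn 0 (y 1 = 1) (tail (tail y))) else y 0
  | i+2, true, y => if y 0 = 2 then (if y 1 = 0 then rn i false (tail (tail y))
      else rn (i+1) (y 1 = 1) (tail (tail y))) else rn i (y 0 = 1) (tail y)

def Lam (y : C) : C := fun i => rn i true y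
def Psi (y : C) : C := fun i => rn i false y

@[simp] theorem Lam0 (y : C) : Lam (cons 0 y) = cons 0 (cons 0 (Psi y)) := by
  funext i; rcases i with _ | _ | i <;> simp [Lam, Psi, rn]
@[simp] theorem Lam1 (y : C) : Lam (cons 1 y) = cons 0 (cons 1 (Lam y)) := by
  funext i; rcases i with _ | _ | i <;> simp [Lam, rn]
@[simp] theorem Lam20 (y : C) : Lam (cons 2 (cons 0 y)) = cons 0 (cons 2 (Psi y)) := by
  funext i; rcases i with _ | _ | i <;> simp [Lam, Psi, rn]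
@[simp] theorem Lam21 (y : C) : Lam (cons 2 (cons 1 y)) = cons 1 (Lam y) := by
  funext i; rcases i with _ | _ | i <;> simp [Lam, rn]
@[simp] theorem Lam22 (y : C) : Lam (cons 2 (cons 2 y)) = cons 2 (Psi y) := by
  funext i; rcases i with _ | _ | i <;> simp [Lam, Psi, rn]
@[simp] theorem Psi0 (y : C) : Psi (cons 0 y) = cons 0 (Psi y) := by
  funext i; rcases i with _ | i <;> simp [Psi, rn]
@[simp] theorem Psi1 (y : C) : Psi (cons 1 y) = cons 1 (Lam y) := by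
  funext i; rcases i with _ | i <;> simp [Lam, Psi, rn]
@[simp] theorem Psi2 (y : C) : Psi (cons 2 y) = cons 2 (Psi y) := by
  funext i; rcases i with _ | i <;> simp [Psi, rn]

theorem fin3 (a : Fin 3) : a = 0 ∨ a = 1 ∨ a = 2 := by revert a; decide

inductive St | A | B | Q

def run : St → C → C
  | .A => Lam
  | .B => fun y => Lam (cons 2 y)
  | .Q => Psi

def nx (s : St) (a : Fin 3) : St :=
  if a = 0 then .Q else if a = 1 then .A else match s with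
    | .A => .B
    | _ => .Q

theorem run_app : ∀ (u : List (Fin 3)) (s : St),
    ∃ v, wp v = wp u ∧ ∀ y, run s (app u y) = app v (run (u.foldl nx s) y)
  | [], _ => ⟨[], rfl, fun _ => rfl⟩
  | a :: u, s => by
    obtain ⟨v, h1, h2⟩ := run_app u (nx s a)
    obtain ⟨w, h3, h4⟩ : ∃ w, wp w = wp [a] ∧ ∀ y, run s (cons a y) = app w (run (nx s a) y) := by
      rcases fin3 a with rfl | rfl | rfl <;> cases s
      exacts [⟨[0, 0], rfl, Lam0⟩, ⟨[0, 2], rfl, Lam20⟩, ⟨[0], rfl, Psi0⟩, ⟨[0, 1], rfl, Lam1⟩,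
        ⟨[1], rfl, Lam21⟩, ⟨[1], rfl, Psi1⟩, ⟨[], rfl, fun _ => rfl⟩, ⟨[2], rfl, Lam22⟩,
        ⟨[2], rfl, Psi2⟩]
    exact ⟨w ++ v, by rw [wp_append, h1, h3, ← wp_append]; rfl, fun y => by
      rw [app_cons, h4, h2, app_append]; rfl⟩

theorem run_mono (s : St) : StrictMono (run s) := by
  rintro y z ⟨i, h1, h2⟩
  obtain ⟨u, y, rfl, rfl⟩ := exists_app i y
  obtain ⟨z, rfl⟩ := of_agree u y z fun j hj => (h1 j hj).symm
  have h3 : y 0 < z 0 := by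
    rw [← app_ge u y 0, ← app_ge u z 0, zero_add]; exact h2
  obtain ⟨v, -, h⟩ := run_app u s
  rw [h, h, app_lt]
  obtain ⟨a, y, rfl⟩ := exists_cons y
  obtain ⟨b, z, rfl⟩ := exists_cons z
  obtain ⟨c, z, rfl⟩ := exists_cons z
  cases u.foldl nx s <;> rcases fin3 a with rfl | rfl | rfl <;>
    rcases fin3 b with rfl | rfl | rfl <;> simp at h3 <;>
    rcases fin3 c with rfl | rfl | rfl <;> simp [run]

theorem coind {ι : Type} (f g : ι → C)
    (h : ∀ s, ∃ a w s', f s = cons a (app w (f s')) ∧ g s = cons a (app w (g s'))) (s : ι) :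
    f s = g s := by
  funext i
  induction i using Nat.strong_induction_on generalizing s with
  | _ i ih =>
    obtain ⟨a, w, s', h1, h2⟩ := h s
    rw [h1, h2]
    cases i with
    | zero => rfl
    | succ i =>
      rcases lt_or_ge i w.length with hi | hi
      · exact app_lo _ _ _ _ hi
      · obtain ⟨j, rfl⟩ := Nat.exists_eq_add_of_le' hi
        rw [cons_succ, cons_succ, app_ge, app_ge, ih j (by omega)]

/-- mirror -/
def mi (y : C) : C := fun i => (y i).rev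

@[simp] theorem mi_mi (y : C) : mi (mi y) = y := funext fun i => by simp [mi]
@[simp] theorem mi_cons (a : Fin 3) (y : C) : mi (cons a y) = cons a.rev (mi y) :=
  funext fun i => by cases i <;> rfl
theorem mi_app (u : List (Fin 3)) (y : C) : mi (app u y) = app (u.map Fin.rev) (mi y) := by
  induction u <;> simp [*]
theorem wp_rev (u : List (Fin 3)) : wp (u.map Fin.rev) = wp u := by
  induction u with
  | nil => rfl
  | cons a u ih => rw [List.map_cons, wp_cons, wp_cons, ih]; rcases fin3 a with rfl | rfl | rfl <;> rfl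
theorem mi_lt {y z : C} (h : y < z) : mi z < mi y := by
  obtain ⟨i, h1, h2⟩ := h
  exact ⟨i, fun j hj => by simp [mi, h1 j hj], Fin.rev_lt_rev.2 h2⟩

theorem run_inv (b : Bool) (y : C) :
    (if b then Lam (mi (Lam (mi y))) else Psi (mi (Psi (mi y)))) = y := by
  refine coind (fun s : Bool × C => if s.1 then Lam (mi (Lam (mi s.2))) else Psi (mi (Psi (mi s.2))))
    (fun s => s.2) ?_ (b, y)
  rintro ⟨b, y⟩
  obtain ⟨a, y, rfl⟩ := exists_cons y
  have r0 : (0 : Fin 3).rev = 2 := rfl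
  have r1 : (1 : Fin 3).rev = 1 := rfl
  have r2 : (2 : Fin 3).rev = 0 := rfl
  cases b <;> rcases fin3 a with rfl | rfl | rfl
  · exact ⟨0, [], (false, y), by simp [r0, r2], rfl⟩
  · exact ⟨1, [], (true, y), by simp [r1], rfl⟩
  · exact ⟨2, [], (false, y), by simp [r0, r2], rfl⟩
  · obtain ⟨a, y, rfl⟩ := exists_cons y
    rcases fin3 a with rfl | rfl | rfl
    · exact ⟨0, [0], (false, y), by simp [r0, r2], rfl⟩
    · exact ⟨0, [1], (true, y), by simp [r0, r1], rfl⟩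
    · exact ⟨0, [2], (false, y), by simp [r0, r2], rfl⟩
  · exact ⟨1, [], (true, y), by simp [r0, r1], rfl⟩
  · exact ⟨2, [], (false, y), by simp [r0, r2], rfl⟩

theorem Lam_inv (y : C) : Lam (mi (Lam (mi y))) = y := run_inv true y
theorem Lam_surj : Surjective Lam := fun y => ⟨_, Lam_inv y⟩
theorem Psi_surj : Surjective Psi := fun y => ⟨_, run_inv false y⟩
theorem Lam_mono : StrictMono Lam := run_mono .A

/-- the translation -/
noncomputable def lam : Au :=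
  StrictMono.orderIsoOfSurjective (fun z => ⟨z.k + 1, Lam z.s⟩)
    (fun a b h => by simpa [L.lt_iff, Lam_mono.lt_iff_lt] using h)
    (fun z => ⟨⟨z.k - 1, mi (Lam (mi z.s))⟩, L.ext (by simp) (Lam_inv _)⟩)

theorem lam_apply (z : L) : lam z = ⟨z.k + 1, Lam z.s⟩ := rfl

theorem lam_zpow_k (j : ℤ) (z : L) : ((lam ^ j) z).k = z.k + j := by
  induction j using Int.induction_on generalizing z with
  | zero => simp
  | succ i ih => rw [zpow_add_one, RelIso.mul_apply, ih, lam_apply]; ring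
  | pred i ih =>
    obtain ⟨z, rfl⟩ := lam.surjective z
    rw [zpow_sub_one, RelIso.mul_apply, ih, RelIso.inv_apply_self, lam_apply]; ring

theorem lam_pow_apply (n : ℕ) (z : L) : (lam ^ n) z = ⟨z.k + n, Lam^[n] z.s⟩ := by
  induction n with
  | zero => simp
  | succ n ih => rw [pow_succ', RelIso.mul_apply, ih, lam_apply, iterate_succ_apply']; simp [add_assoc]

theorem lt_lam (z : L) : z < lam z := L.lt_iff.2 (Or.inl (by simp [lam_apply]))

/-- the reflection -/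
def rf (z : L) : L := ⟨1 - z.k, mi z.s⟩

@[simp] theorem rf_rf (z : L) : rf (rf z) = z := by simp [rf]

theorem rf_lt {z w : L} : rf z < rf w ↔ w < z := by
  have : ∀ z w : L, w < z → rf z < rf w := fun z w h => by
    rcases L.lt_iff.1 h with h | ⟨h, h'⟩
    · exact L.lt_iff.2 (Or.inl (by simp [rf, h]))
    · exact L.lt_iff.2 (Or.inr ⟨by simp [rf, h], mi_lt h'⟩)
  exact ⟨fun h => by simpa using this _ _ h, this _ _⟩

/-- conjugation by the reflection -/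
noncomputable def tau : Au →* Au where
  toFun g :=
    { toFun := fun z => rf (g (rf z))
      invFun := fun z => rf (g⁻¹ (rf z))
      left_inv := fun z => by simp
      right_inv := fun z => by simp
      map_rel_iff' := by intro a b; simp only [← not_lt, Equiv.coe_fn_mk, rf_lt, OrderIso.lt_iff_lt] }
  map_one' := RelIso.ext fun z => rf_rf z
  map_mul' g h := RelIso.ext fun z => by
    show rf (g (h (rf z))) = rf (g (rf (rf (h (rf z)))))
    rw [rf_rf]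

theorem tau_apply (g : Au) (z : L) : tau g z = rf (g (rf z)) := rfl

@[simp] theorem tau_tau (g : Au) : tau (tau g) = g := RelIso.ext fun z => by simp [tau_apply]

theorem tau_lam : tau lam = lam⁻¹ := by
  refine eq_inv_of_mul_eq_one_right (RelIso.ext fun z => L.ext ?_ (Lam_inv _))
  simp [tau_apply, rf, lam_apply]

theorem rf_cm (a : Ad) : ∃ b, par b = par a + 1 ∧ ∀ y, rf (cm a y) = cm b (mi y) :=
  ⟨(1 - a.1, a.2.map Fin.rev), by
    simp only [par, wp_rev]; push_cast; rw [sub_eq_add_neg, ZMod.neg_eq_self_mod_two]; ring,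
    fun y => L.ext rfl (mi_app _ _)⟩

theorem Reg.tau {g : Au} {z : L} (h : Reg g z) : Reg (tau g) (rf z) := by
  obtain ⟨a, b, y, rfl, h1, h2⟩ := h
  obtain ⟨a', h3, h4⟩ := rf_cm a
  obtain ⟨b', h5, h6⟩ := rf_cm b
  exact ⟨a', b', _, h4 y, by rw [h3, h5, h1], fun w => by
    rw [tau_apply, ← mi_mi w, ← h4, rf_rf, h2, h6]⟩

theorem tau_ra {g : Au} (h : g ∈ RA) : tau g ∈ RA := fun z => by simpa using (h (rf z)).tau

theorem lam_cm (a : Ad) :
    ∃ b, par b = par a + 1 ∧ ∀ y, lam (cm a y) = cm b (run (a.2.foldl nx .A) y) := by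
  obtain ⟨v, h1, h2⟩ := run_app a.2 .A
  exact ⟨(a.1 + 1, v), by simp only [par, h1]; push_cast; ring, fun y => L.ext rfl (h2 y)⟩

theorem Reg.lam {g : Au} {z : L} (h : Reg g z) : Reg (lam * g * lam⁻¹ : Au) (lam z) := by
  obtain ⟨a, b, y, rfl, h1, h2⟩ := h
  obtain ⟨w, y, s, rfl, h3, h4⟩ : ∃ w y' s, y = app w y' ∧ Surjective (run s) ∧
      ∀ s0, w.foldl nx s0 = s := by
    obtain ⟨c, y, rfl⟩ := exists_cons y
    rcases fin3 c with rfl | rfl | rfl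
    · exact ⟨[0], y, .Q, rfl, Psi_surj, fun _ => rfl⟩
    · exact ⟨[1], y, .A, rfl, Lam_surj, fun _ => rfl⟩
    obtain ⟨c, y, rfl⟩ := exists_cons y
    rcases fin3 c with rfl | rfl | rfl
    · exact ⟨[2, 0], y, .Q, rfl, Psi_surj, fun _ => rfl⟩
    · exact ⟨[2, 1], y, .A, rfl, Lam_surj, fun _ => rfl⟩
    · exact ⟨[2, 2], y, .Q, rfl, Psi_surj, fun s => by cases s <;> rfl⟩
  obtain ⟨a', h5, h6⟩ := lam_cm (a.ex w)
  obtain ⟨b', h7, h8⟩ := lam_cm (b.ex w)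
  simp only [Ad.ex, List.foldl_append, h4] at h6 h8
  refine ⟨a', b', _, by rw [← cm_ex]; exact h6 y, by simp [h5, h7, h1], fun v => ?_⟩
  obtain ⟨v, rfl⟩ := h3 v
  rw [← h6, ← h8]
  simp only [RelIso.mul_apply, RelIso.inv_apply_self]
  exact congrArg _ ((congrArg g (cm_ex a w v)).trans ((h2 _).trans (cm_ex b w v).symm))

theorem Reg.zpow {g : Au} {z : L} (h : Reg g z) (j : ℤ) :
    Reg (Pool.Agent.P.MP_267653_al.lam ^ j * g * (Pool.Agent.P.MP_267653_al.lam ^ j)⁻¹ : Au)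
      ((Pool.Agent.P.MP_267653_al.lam ^ j) z) := by
  induction j using Int.induction_on with
  | zero => simpa using h
  | succ i ih =>
    have := ih.lam
    rwa [← RelIso.mul_apply, ← zpow_one_add, add_comm, show ∀ l g : Au,
      l * (l ^ (i : ℤ) * g * (l ^ (i : ℤ))⁻¹) * l⁻¹ = l ^ (i + 1 : ℤ) * g * (l ^ (i + 1 : ℤ))⁻¹ from
        fun l g => by group] at this
  | pred i ih =>
    have := ih.tau.lam.tau
    rwa [← tau_apply, map_mul, map_mul, map_inv, tau_tau, tau_lam, ← RelIso.mul_apply,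
      show ∀ l g : Au, l⁻¹ * (l ^ (-i : ℤ) * g * (l ^ (-i : ℤ))⁻¹) * l⁻¹⁻¹ =
        l ^ (-i - 1 : ℤ) * g * (l ^ (-i - 1 : ℤ))⁻¹ from fun l g => by group,
      show ∀ l : Au, l⁻¹ * l ^ (-i : ℤ) = l ^ (-i - 1 : ℤ) from fun l => by group] at this

theorem ra_conj {g : Au} (h : g ∈ RA) (j : ℤ) : lam ^ j * g * (lam ^ j)⁻¹ ∈ RA := fun z => by
  simpa using (h ((lam ^ j)⁻¹ z)).zpow j

theorem Psi_fix {a : Fin 3} {y : C} (ha : a ≠ 1) (h : y = cons a y) : Psi y = y :=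
  coind (fun _ : Unit => Psi y) (fun _ => y) (fun _ => ⟨a, [], (), by
    conv_lhs => rw [h]
    rcases fin3 a with rfl | rfl | rfl <;> simp at ha ⊢, h⟩) ()

theorem EC.lam {c : ZMod 2} {x : L} (h : EC c x) : EC (c+1) (lam x) := by
  obtain ⟨a, rfl, rfl⟩ := h
  obtain ⟨b, h1, h2⟩ := lam_cm (a.ex [0])
  refine ⟨b, by simpa [wp] using h1, ?_⟩
  have := h2 z0
  rw [cm_ex] at this
  simpa [Ad.ex, nx, run, Psi_fix (a := 0) (by decide) cons_z0.symm] using this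

theorem EC.lam_inv {c : ZMod 2} {x : L} (h : EC c x) :
    EC (c+1) (Pool.Agent.P.MP_267653_al.lam⁻¹ x) := by
  obtain ⟨a, rfl, rfl⟩ := h
  obtain ⟨a', h1, h2⟩ := rf_cm a
  obtain ⟨b, h3, h4⟩ := lam_cm (a'.ex [2, 2])
  obtain ⟨b', h5, h6⟩ := rf_cm b
  have e : mi z0 = cons 2 (mi z0) := (cons_tail _).symm
  refine ⟨b', by rw [h5, h3, par_ex, h1, show wp [2, 2] = 0 from rfl]; grind, ?_⟩
  have := h4 (mi z0)
  rw [cm_ex, app_cons, app_cons, app_nil, ← e, ← e, Ad.ex, List.foldl_append,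
    show ∀ s, [2, 2].foldl nx s = .Q from fun s => by cases s <;> rfl, run,
    Psi_fix (by decide) e] at this
  rw [← tau_lam, tau_apply, h2, this, h6, mi_mi]

theorem EC.zpow {c : ZMod 2} {x : L} (h : EC c x) (j : ℤ) :
    EC (c + j) ((Pool.Agent.P.MP_267653_al.lam ^ j) x) := by
  induction j using Int.induction_on with
  | zero => simpa using h
  | succ i ih => simpa [add_comm (i : ℤ), zpow_one_add, add_assoc, add_comm (1 : ZMod 2)] using ih.lam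
  | pred i ih =>
    have := ih.lam_inv
    rw [← RelIso.mul_apply, show ∀ l : Au, l⁻¹ * l ^ (-i : ℤ) = l ^ (-i - 1 : ℤ) from
      fun l => by group] at this
    convert this using 1
    push_cast
    grind

def pq : ℕ → ℕ → ℕ → Fin 3
  | 0, _, j => if j = 0 then 1 else 0
  | i+1, n, 0 => pq i (n+1) (n+1)
  | i+1, n, j+1 => pq i n j

/-- the special points -/
def p (n : ℕ) : C := fun i => pq i n n

def W (n : ℕ) : List (Fin 3) := List.replicate n 0 ++ [1]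

theorem wp_W (n : ℕ) : wp (W n) = 1 := by simp [W, wp, List.count_replicate]

theorem p_eq (n : ℕ) : p n = app (W n) (p (n+1)) := by
  have : ∀ j, (fun i => pq i n j : C) = app (W j) (p (n+1)) := by
    intro j
    induction j with
    | zero => funext i; cases i <;> rfl
    | succ j ih =>
      funext i
      cases i with
      | zero => rfl
      | succ i => exact congrFun ih i
  exact this n

theorem Lam_W (n : ℕ) (y : C) : Lam (app (W n) y) = app (W (n+1)) (Lam y) := by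
  have : ∀ n, Psi (app (W n) y) = app (W n) (Lam y) := by
    intro n
    induction n with
    | zero => exact Psi1 y
    | succ n ih => exact (Psi0 _).trans (congrArg (cons 0) ih)
  cases n with
  | zero => exact Lam1 y
  | succ n => exact (Lam0 _).trans (congrArg (fun w => cons 0 (cons 0 w)) (this n))

theorem Lam_p (n : ℕ) : Lam (p n) = p (n+1) :=
  coind (fun n => Lam (p n)) (fun n => p (n+1))
    (fun n => ⟨0, W n, n+1, by rw [p_eq n, Lam_W]; rfl, p_eq _⟩) n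

theorem Lam_iter_p (n : ℕ) : Lam^[n] (p 0) = p n := by
  induction n with
  | zero => rfl
  | succ n ih => rw [iterate_succ_apply', ih, Lam_p]

theorem Lam_iter_one (n : ℕ) (y : C) : Lam^[n] (cons 1 y) = app (W n) (Lam^[n] y) := by
  induction n with
  | zero => rfl
  | succ n ih => rw [iterate_succ_apply', ih, Lam_W, iterate_succ_apply']

theorem p_tail (n d : ℕ) : ∃ w, d ≤ w.length ∧ p n = app w (p (n + d)) := by
  induction d with
  | zero => exact ⟨[], le_rfl, rfl⟩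
  | succ d ih =>
    obtain ⟨w, h1, h2⟩ := ih
    exact ⟨w ++ W (n + d), by simp [W]; omega, by rw [h2, p_eq, app_append]; rfl⟩

theorem p_lo (n i : ℕ) (h : i < n) : p n i = 0 := by
  rw [p_eq, W, app_append, app_lo _ _ z0 i (by simpa using h)]
  clear h
  induction n generalizing i with
  | zero => rfl
  | succ n ih => cases i; rfl; exact ih _

theorem p_self (n : ℕ) : p n n = 1 := by
  have := app_ge (List.replicate n 0) (cons 1 (p (n+1))) 0
  rw [p_eq, W, app_append]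
  simpa using this

theorem p_rigid {u v : List (Fin 3)} {n : ℕ} (h : app u (p n) = app v (p n)) : u = v := by
  wlog hl : u.length ≤ v.length generalizing u v
  · exact (this h.symm (by omega)).symm
  obtain ⟨w, rfl, h1⟩ := app_eq h hl
  by_contra hne
  have hw : 0 < w.length := List.length_pos_iff.2 fun e => hne (by simp [e])
  obtain ⟨w', -, h2⟩ := p_tail n w.length
  have h3 := app_ge w (p n) (n + w'.length)
  rw [← h1, h2, app_ge, p_lo _ _ (by omega), add_right_comm, app_ge, p_self] at h3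
  exact absurd h3 (by decide)

/-- the address of level `n` of a point of the special orbit -/
def At (q : L) (n : ℕ) (a : Ad) : Prop := par a = n ∧ q = cm a (p n)

/-- the special orbit -/
def O : Set L := {q | ∃ n a, At q n a}

variable {q : L} {n : ℕ} {a b : Ad}

theorem At.succ (h : At q n a) : At q (n+1) (a.ex (W n)) :=
  ⟨by simp [h.1, wp_W], by rw [cm_ex, ← p_eq]; exact h.2⟩

theorem At.uniq (h : At q n a) (h' : At q n b) : a = b :=
  have e := h.2.symm.trans h'.2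
  Prod.ext (congrArg L.k e) (p_rigid (congrArg L.s e))

theorem At.add (h : At q n a) (d : ℕ) : ∃ w, d ≤ w.length ∧ At q (n + d) (a.ex w) := by
  induction d with
  | zero => exact ⟨[], le_rfl, by simpa [Ad.ex] using h⟩
  | succ d ih =>
    obtain ⟨w, h1, h2⟩ := ih
    exact ⟨w ++ W (n + d), by simp [W]; omega, by simpa [Ad.ex, add_assoc] using h2.succ⟩

open Classical in
noncomputable def ad (q : L) (n : ℕ) : Ad := if h : ∃ a, At q n a then h.choose else (0, [])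

theorem At.ad_eq (h : At q n a) : ad q n = a := by
  have : ∃ a, At q n a := ⟨a, h⟩
  rw [ad, dif_pos this]
  exact this.choose_spec.uniq h

theorem ev_at (hq : q ∈ O) (N : ℕ) : ∀ᶠ n in atTop, At q n (ad q n) ∧ N ≤ (ad q n).2.length := by
  obtain ⟨n, a, h⟩ := hq
  refine eventually_atTop.2 ⟨n + N, fun m hm => ?_⟩
  obtain ⟨d, rfl⟩ := Nat.exists_eq_add_of_le (show n ≤ m by omega)
  obtain ⟨w, h1, h2⟩ := h.add d
  rw [h2.ad_eq]
  exact ⟨h2, by simp [Ad.ex]; omega⟩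

theorem O_freq (hq : q ∈ O) (N : ℕ) : ∃ i, N ≤ i ∧ q.s i = 1 := by
  obtain ⟨n, h, hN⟩ := (ev_at hq N).exists
  exact ⟨n + (ad q n).2.length, by omega, by
    rw [congrArg L.s h.2]
    exact (app_ge _ _ _).trans (p_self n)⟩

theorem O_ns (hq : q ∈ O) : NS q := fun N => by
  obtain ⟨i, h1, h2⟩ := O_freq hq N
  exact ⟨i, h1, by rw [h2]; decide⟩

theorem EC.not_O {c : ZMod 2} {x : L} (h : EC c x) : x ∉ O := fun hx => by
  obtain ⟨a, -, rfl⟩ := h
  obtain ⟨i, h1, h2⟩ := O_freq hx a.2.length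
  obtain ⟨j, rfl⟩ := Nat.exists_eq_add_of_le' h1
  exact absurd ((app_ge _ _ _).symm.trans h2) (by decide : (0 : Fin 3) ≠ 1)

theorem Reg.at {g : L → L} (h : Reg g q) (hq : q ∈ O) :
    g q ∈ O ∧ ∀ᶠ n in atTop, ∀ v, g (cm (ad q n) v) = cm (ad (g q) n) v := by
  obtain ⟨a, b, y, e, h1, h2⟩ := h
  have : ∀ᶠ n in atTop, ∃ b', At (g q) n b' ∧ ∀ v, g (cm (ad q n) v) = cm b' v := by
    filter_upwards [ev_at hq a.2.length] with n ⟨h3, h4⟩
    have e2 := e.symm.trans h3.2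
    obtain ⟨w, h5, rfl⟩ := app_eq (congrArg L.s e2) h4
    have h6 : ad q n = a.ex w := Prod.ext (congrArg L.k e2).symm h5
    exact ⟨b.ex w, ⟨by rw [← h3.1, h6]; simp [h1], by rw [e, h2, cm_ex]⟩,
      fun v => by rw [h6, cm_ex, h2, cm_ex]⟩
  exact ⟨this.exists.imp fun n ⟨b', h, _⟩ => ⟨b', h⟩,
    this.mono fun n ⟨b', h, h'⟩ => by rwa [h.ad_eq]⟩

theorem O_lam (hq : q ∈ O) :
    lam q ∈ O ∧ ∀ᶠ n in atTop, ∀ v, lam (cm (ad q n) v) = cm (ad (lam q) (n+1)) (Lam v) := by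
  have : ∀ᶠ n in atTop, ∃ b', At (lam q) (n+1+1) b' ∧
      ∀ v, lam (cm (ad q (n+1)) v) = cm b' (Lam v) := by
    filter_upwards [ev_at hq 0] with n ⟨h, _⟩
    obtain ⟨b, h1, h2⟩ := lam_cm ((ad q n).ex (W n))
    have h3 : ∀ v, lam (cm ((ad q n).ex (W n)) v) = cm b (Lam v) := fun v => by
      simpa [Ad.ex, W, nx, run] using h2 v
    rw [h.succ.ad_eq]
    exact ⟨b, ⟨by rw [h1, h.succ.1]; simp, by rw [← Lam_p, ← h3, ← h.succ.2]⟩, h3⟩
  refine ⟨this.exists.elim fun n ⟨b', h, _⟩ => ⟨_, b', h⟩, ?_⟩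
  obtain ⟨N, hN⟩ := eventually_atTop.1 this
  refine eventually_atTop.2 ⟨N + 1, fun n hn => ?_⟩
  obtain ⟨n, rfl⟩ : ∃ m, n = m + 1 := ⟨n - 1, by omega⟩
  obtain ⟨b, h1, h2⟩ := hN n (by omega)
  rwa [h1.ad_eq]

theorem O_pt (n : ℕ) : (⟨n, p n⟩ : L) ∈ O := ⟨n, (n, []), by simp [par], rfl⟩

theorem At.ra (h : At q n a) : ∃ g ∈ RA, ∀ v, g ⟨n, v⟩ = cm a v :=
  ext_cone (a := (n, [])) (by rw [h.1]; simp [par])

theorem O_zpow (hq : q ∈ O) (j : ℤ) : (lam ^ j) q ∈ O := by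
  induction j using Int.induction_on with
  | zero => exact hq
  | succ i ih => rw [add_comm, zpow_one_add]; exact (O_lam ih).1
  | pred i ih =>
    obtain ⟨n, a, h⟩ := ih
    obtain ⟨g, hg, h1⟩ := h.succ.ra
    have := ((ra_conj hg (-1) _).at (O_pt n)).1
    rw [RelIso.mul_apply, RelIso.mul_apply, zpow_neg_one, inv_inv, lam_apply, Lam_p] at this
    have h2 := h1 (p (n+1))
    push_cast at h2
    rwa [h2, ← h.succ.2, ← RelIso.mul_apply, show ∀ l : Au, l⁻¹ * l ^ (-i : ℤ) = l ^ (-i - 1 : ℤ)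
      from fun l => by group] at this

theorem O_trans {q' : L} (hq : q ∈ O) (hq' : q' ∈ O) : ∃ g ∈ RA, g q = q' := by
  obtain ⟨n, ⟨h, -⟩, h', -⟩ := ((ev_at hq 0).and (ev_at hq' 0)).exists
  obtain ⟨g, hg, e⟩ := ext_cone (h.1.trans h'.1.symm)
  exact ⟨g, hg, by rw [h.2, e, ← h'.2]⟩

theorem O_dens {x y : L} (hx : NS x) (h : x < y) : ∃ q ∈ O, x < q ∧ q < y := by
  obtain ⟨_, ⟨a, -, rfl⟩, h1, h2⟩ := hx.dens h 0
  obtain ⟨u, y', -, h3⟩ := ev_ex ((ev_gt h1).and (ev_lt h2))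
  exact ⟨_, ⟨(par (a.ex u)).val, a.ex u, by simp, rfl⟩, h3 _⟩

end Pool.Agent.P.MP_267653_al
end

-- part Pool.Agent.P.MP_267653_al.Charts
section

/-! Charts and chart partitions of intervals. -/

set_option autoImplicit false

namespace Pool.Agent.P.MP_267653_al

open Function
open scoped Pointwise Classical

abbrev Φ := C → L

@[simp] theorem smul_app (g : Au) (φ : Φ) (w : C) : (g • φ) w = g (φ w) := rfl

/-- a chart onto the interval from `x` to `y` -/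
def Cht (φ : Φ) (x y : L) : Prop :=
  ∃ g ∈ RA, ∃ k, (∀ w, φ w = g ⟨k, w⟩) ∧ x = g (st k) ∧ y = g (st (k+1))

/-- children of a chart -/
def ch (φ : Φ) (a : Fin 3) : Φ := fun w => φ (cons a w)

theorem smul_ch (g : Au) (φ : Φ) (a : Fin 3) : g • ch φ a = ch (g • φ) a := rfl

variable {φ ψ : Φ} {x y z x' y' : L}

theorem Cht.smul (h : Cht φ x y) {g : Au} (hg : g ∈ RA) : Cht (g • φ) (g x) (g y) := by
  obtain ⟨f, hf, k, h1, rfl, rfl⟩ := h
  exact ⟨g * f, mul_mem hg hf, k, fun w => by simp [h1], rfl, rfl⟩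

theorem Cht.mono (h : Cht φ x y) : StrictMono φ := by
  obtain ⟨f, -, k, h1, -⟩ := h
  intro a b hab
  simp [h1, L.lt_iff, hab]

theorem Cht.range (h : Cht φ x y) : (∃ w, φ w = z) ↔ x ≤ z ∧ z < y := by
  obtain ⟨f, -, k, h1, rfl, rfl⟩ := h
  obtain ⟨z, rfl⟩ := f.surjective z
  simp only [h1, EmbeddingLike.apply_eq_iff_eq, OrderIso.le_iff_le, OrderIso.lt_iff_lt, st_le, lt_st]
  exact ⟨by rintro ⟨w, rfl⟩; simp, fun h => ⟨z.s, L.ext (by simp; omega) rfl⟩⟩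

theorem Cht.mem (h : Cht φ x y) (w : C) : x ≤ φ w ∧ φ w < y := h.range.1 ⟨w, rfl⟩

theorem Cht.lo (h : Cht φ x y) : φ z0 = x := by
  obtain ⟨f, -, k, h1, rfl, rfl⟩ := h
  exact h1 _

theorem Cht.lt (h : Cht φ x y) : x < y := h.lo ▸ (h.mem z0).2

theorem Cht.hi_le (h : Cht φ x y) (hz : ∀ w, φ w < z) : y ≤ z := by
  by_contra hlt
  obtain ⟨w, rfl⟩ := h.range.2 ⟨(h.lo ▸ hz z0).le, not_le.1 hlt⟩
  exact lt_irrefl _ (hz w)

theorem Cht.child (h : Cht φ x y) : Cht (ch φ 0) x (φ (cons 1 z0)) ∧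
    Cht (ch φ 1) (φ (cons 1 z0)) (φ (cons 2 z0)) ∧ Cht (ch φ 2) (φ (cons 2 z0)) y := by
  obtain ⟨f, hf, k, h1, rfl, rfl⟩ := h
  have e : ∀ (a : Fin 3) w, f ⟨k, cons a w⟩ = (f * S3⁻¹) ⟨3 * k + (a : ℕ), w⟩ := fun a w => by
    rw [← S3_cons]; simp
  have e' : ∀ l, f (st l) = (f * S3⁻¹) (st (3 * l)) := fun l => by rw [← S3_st]; simp
  have hm := mul_mem hf (inv_mem S3_mem)
  refine ⟨⟨_, hm, 3 * k, fun w => ?_, e' k, ?_⟩, ⟨_, hm, 3 * k + 1, fun w => ?_, ?_, ?_⟩,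
    ⟨_, hm, 3 * k + 2, fun w => ?_, ?_, ?_⟩⟩
  · simpa [ch, h1] using e 0 w
  · rw [h1, e]; rfl
  · rw [ch, h1, e]; rfl
  · rw [h1, e]; rfl
  · rw [h1, e, add_assoc]; rfl
  · rw [ch, h1, e]; rfl
  · rw [h1, e]; rfl
  · rw [e']; congr 2; ring

theorem Cht.E (h : Cht φ x y) : ∃ c, EC c x := by
  obtain ⟨f, hf, k, -, rfl, rfl⟩ := h
  exact ⟨_, (EC.st k).ra hf⟩

theorem Cht.ec (h : Cht φ x y) {c : ZMod 2} (hx : EC c x) : EC (c+1) y := by
  obtain ⟨f, hf, k, -, rfl, rfl⟩ := h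
  rw [hx.uniq ((EC.st k).ra hf)]
  simpa using (EC.st (k+1)).ra hf

theorem Cht.mtch (h : Cht φ x y) (h' : Cht ψ x' y') {c : ZMod 2} (hx : EC c x) (hx' : EC c x') :
    ∃ g ∈ RA, g • φ = ψ ∧ g x = x' ∧ g y = y' := by
  obtain ⟨f, hf, k, h1, rfl, rfl⟩ := h
  obtain ⟨f', hf', k', h2, rfl, rfl⟩ := h'
  have e := (hx.uniq ((EC.st k).ra hf)).symm.trans (hx'.uniq ((EC.st k').ra hf'))
  refine ⟨f' * sh (k' - k) * f⁻¹, mul_mem (mul_mem hf' (sh_mem (by push_cast; simp [e])))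
    (inv_mem hf), funext fun w => ?_, ?_, ?_⟩
  · simp [h1, h2, sh_apply]
  · simp [sh_apply, st]
  · simp only [RelIso.mul_apply, RelIso.inv_apply_self, sh_apply, st]
    congr 2; ring

theorem cht_cm (a : Ad) : ∃ y, Cht (cm a) (cm a z0) y := by
  obtain ⟨k, h1, -⟩ := S3_pow [] (par a).val
  obtain ⟨g, hg, h⟩ := ext_cone (a := (k, [])) (b := a) (by simpa [par] using h1)
  exact ⟨_, g, hg, k, fun w => (h w).symm, (h z0).symm, rfl⟩

theorem Cht.loc (h : Cht φ x y) (w : C) : ∃ u w' b, w = app u w' ∧ ∀ v, φ (app u v) = cm b v := by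
  obtain ⟨f, hf, k, h1, -⟩ := h
  obtain ⟨a, b, y, h2, -, h3⟩ := hf ⟨k, w⟩
  refine ⟨a.2, y, b, congrArg L.s h2, fun v => ?_⟩
  rw [h1, ← h3, show k = a.1 from congrArg L.k h2]; rfl

/-- sequences of adjacent charts -/
inductive Seq : L → List Φ → L → Prop
  | nil (x : L) : Seq x [] x
  | cons {φ : Φ} {x y z : L} {l : List Φ} : Cht φ x y → Seq y l z → Seq x (φ :: l) z

theorem Seq.le {l : List Φ} (h : Seq x l y) : x ≤ y := by
  induction h with
  | nil => exact le_rfl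
  | cons h _ ih => exact h.lt.le.trans ih

theorem Seq.mem {l : List Φ} (h : Seq x l y) : ∀ φ ∈ l, ∀ w, x ≤ φ w ∧ φ w < y := by
  induction h with
  | nil => simp
  | cons h h' ih =>
    intro ψ hψ w
    rcases List.mem_cons.1 hψ with rfl | hψ
    · exact ⟨(h.mem w).1, (h.mem w).2.trans_le h'.le⟩
    · exact ⟨h.lt.le.trans (ih ψ hψ w).1, (ih ψ hψ w).2⟩

theorem Seq.mtch {l : List Φ} (h : Seq x l y) : ∀ {l' : List Φ} {x' y' : L} {c : ZMod 2},
    Seq x' l' y' → l.length = l'.length → EC c x → EC c x' →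
    ∃ g ∈ RA, l.map (g • ·) = l' ∧ g x = x' ∧ g y = y' := by
  induction h with
  | nil x =>
    intro l' x' y' c h' hl hx hx'
    cases h' with
    | nil =>
      obtain ⟨a, ha, rfl⟩ := hx
      obtain ⟨b, hb, rfl⟩ := hx'
      obtain ⟨g, hg, h⟩ := ext_cone (ha.trans hb.symm)
      exact ⟨g, hg, rfl, h _, h _⟩
    | cons => simp at hl
  | cons h h2 ih =>
    intro l' x' y' c h' hl hx hx'
    cases h' with
    | nil => simp at hl
    | cons h' h2' =>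
      obtain ⟨g1, hg1, e1, e2, e3⟩ := h.mtch h' hx hx'
      obtain ⟨g2, hg2, e4, e5, e6⟩ := ih h2' (by simpa using hl) (h.ec hx) (h'.ec hx')
      obtain ⟨g, hg, h3, h4⟩ := glue_ra hg1 hg2 (h.ec hx) (e3.trans e5.symm)
      refine ⟨g, hg, ?_, by rw [h3 _ h.lt.le, e2], by rw [h4 _ h2.le, e6]⟩
      rw [List.map_cons, ← e1, ← e4]
      congr 1
      · exact funext fun w => h3 _ (h.mem w).2.le
      · exact List.map_congr_left fun χ hχ => funext fun w => h4 _ (h2.mem χ hχ w).1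

theorem Seq.mtchF {l l' : List Φ} (h : Seq x l y) (h' : Seq x l' y) (hl : l.length = l'.length)
    {c d : ZMod 2} (hx : EC c x) (hy : EC d y) : ∃ g ∈ F x y, l.map (g • ·) = l' := by
  obtain ⟨g, hg, h1, h2, h3⟩ := h.mtch h' hl hx hx
  obtain ⟨f, hf, h4⟩ := cut hg hx hy h.le h2 h3
  exact ⟨f, hf, h1 ▸ List.map_congr_left fun χ hχ => funext fun w =>
    h4 _ (h.mem χ hχ w).1 (h.mem χ hχ w).2.le⟩

theorem exists_parent {φ0 φ1 φ2 : Φ} {x1 x2 x3 : L} (h0 : Cht φ0 x x1) (h1 : Cht φ1 x1 x2)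
    (h2 : Cht φ2 x2 x3) : ∃ ψ, Cht ψ x x3 ∧ ch ψ 0 = φ0 ∧ ch ψ 1 = φ1 ∧ ch ψ 2 = φ2 := by
  obtain ⟨c, hc⟩ := h0.E
  have h : Cht (fun w => ⟨(c.val : ℤ), w⟩) (st c.val) (st (c.val + 1)) :=
    ⟨1, one_mem _, _, fun _ => rfl, rfl, rfl⟩
  obtain ⟨e0, e1, e2⟩ := h.child
  obtain ⟨g, hg, e3, e4, e5⟩ := (Seq.cons e0 (.cons e1 (.cons e2 (.nil _)))).mtch
    (Seq.cons h0 (.cons h1 (.cons h2 (.nil _)))) rfl (by simpa using EC.st c.val) hc
  simp only [List.map_cons, List.map_nil, List.cons.injEq, and_true] at e3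
  exact ⟨g • (fun w => (⟨(c.val : ℤ), w⟩ : L)), e4 ▸ e5 ▸ h.smul hg, e3⟩

/-- chart partitions of an interval -/
structure Vx (x y : L) (𝒜 : Finset Φ) : Prop where
  cht : ∀ φ ∈ 𝒜, ∃ a b, Cht φ a b
  sub : ∀ φ ∈ 𝒜, ∀ w, x ≤ φ w ∧ φ w < y
  cov : ∀ z, x ≤ z → z < y → ∃ φ ∈ 𝒜, ∃ w, φ w = z
  dis : ∀ φ ∈ 𝒜, ∀ ψ ∈ 𝒜, ∀ w w', φ w = ψ w' → φ = ψ

variable {𝒜 ℬ J : Finset Φ}

theorem Vx.seq (h : Vx x y 𝒜) (hxy : x ≤ y) : ∃ l, Seq x l y ∧ l.Nodup ∧ l.toFinset = 𝒜 := by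
  induction hn : 𝒜.card generalizing x 𝒜 with
  | zero =>
    obtain rfl := Finset.card_eq_zero.1 hn
    rcases hxy.eq_or_lt with rfl | hxy
    · exact ⟨[], .nil _, by simp, rfl⟩
    · simpa using h.cov x le_rfl hxy
  | succ n ih =>
    obtain ⟨χ, hχ⟩ := Finset.card_pos.1 (show 0 < 𝒜.card by omega)
    obtain ⟨φ, hφ, w, hw⟩ := h.cov x le_rfl ((h.sub χ hχ z0).1.trans_lt (h.sub χ hχ z0).2)
    obtain ⟨a, b, hc⟩ := h.cht φ hφ
    obtain rfl : a = x := le_antisymm (hw ▸ (hc.mem w).1) (hc.lo ▸ (h.sub φ hφ z0).1)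
    have hV : Vx b y (𝒜.erase φ) := by
      refine ⟨fun ψ hψ => h.cht ψ (Finset.mem_of_mem_erase hψ), fun ψ hψ v => ⟨?_,
        (h.sub ψ (Finset.mem_of_mem_erase hψ) v).2⟩, fun z h1 h2 => ?_,
        fun ψ hψ χ hχ => h.dis ψ (Finset.mem_of_mem_erase hψ) χ (Finset.mem_of_mem_erase hχ)⟩
      · by_contra hlt
        obtain ⟨h1, h2⟩ := Finset.mem_erase.1 hψ
        obtain ⟨w, hw⟩ := hc.range.2 ⟨(h.sub ψ h2 v).1, not_le.1 hlt⟩
        exact h1 (h.dis φ hφ ψ h2 _ _ hw).symm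
      · obtain ⟨ψ, hψ, v, rfl⟩ := h.cov z (hc.lt.le.trans h1) h2
        refine ⟨ψ, Finset.mem_erase.2 ⟨?_, hψ⟩, v, rfl⟩
        rintro rfl
        exact absurd (hc.mem v).2 (not_lt.2 h1)
    obtain ⟨l, h1, h2, h3⟩ := ih hV (hc.hi_le fun w => (h.sub φ hφ w).2)
      (by rw [Finset.card_erase_of_mem hφ, hn]; rfl)
    refine ⟨φ :: l, .cons hc h1, List.nodup_cons.2 ⟨?_, h2⟩, ?_⟩
    · rw [← List.mem_toFinset, h3]; simp
    · rw [List.toFinset_cons, h3, Finset.insert_erase hφ]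

theorem Vx.smul (h : Vx x y 𝒜) {g : Au} (hg : g ∈ RA) : Vx (g x) (g y) (g • 𝒜) := by
  refine ⟨?_, ?_, fun z h1 h2 => ?_, ?_⟩
  · simp only [Finset.mem_smul_finset]
    rintro _ ⟨φ, hφ, rfl⟩
    obtain ⟨a, b, h⟩ := h.cht φ hφ
    exact ⟨_, _, h.smul hg⟩
  · simp only [Finset.mem_smul_finset]
    rintro _ ⟨φ, hφ, rfl⟩ w
    simpa using h.sub φ hφ w
  · obtain ⟨z, rfl⟩ := g.surjective z
    obtain ⟨φ, hφ, w, rfl⟩ := h.cov z (by simpa using h1) (by simpa using h2)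
    exact ⟨_, Finset.smul_mem_smul_finset hφ, w, rfl⟩
  · simp only [Finset.mem_smul_finset]
    rintro _ ⟨φ, hφ, rfl⟩ _ ⟨ψ, hψ, rfl⟩ w w' e
    rw [h.dis φ hφ ψ hψ w w' (g.injective e)]

theorem Vx.smulF (h : Vx x y 𝒜) {g : Au} (hg : g ∈ F x y) : Vx x y (g • 𝒜) := by
  have := h.smul hg.1
  rwa [Sp.lo hg.2, hg.2 y (Or.inr le_rfl)] at this

theorem Vx.free (h : Vx x y 𝒜) {g : Au} (hg : g ∈ Sp x y) (e : g • 𝒜 = 𝒜) : g = 1 := by
  have h1 : ∀ φ ∈ 𝒜, g • φ ∈ 𝒜 := fun φ hφ => e ▸ Finset.smul_mem_smul_finset hφ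
  let T := 𝒜.image (· z0)
  let f : T → T := fun t => ⟨g t.1, by
    obtain ⟨φ, hφ, e⟩ := Finset.mem_image.1 t.2
    exact Finset.mem_image.2 ⟨_, h1 φ hφ, congrArg g e⟩⟩
  have hf : StrictMono f := fun a b hab => g.strictMono hab
  refine RelIso.ext fun z => ?_
  by_cases hz : z < x ∨ y ≤ z
  · exact hg z hz
  · rw [not_or, not_lt, not_le] at hz
    obtain ⟨φ, hφ, w, rfl⟩ := h.cov z hz.1 hz.2
    have := congrArg Subtype.val (hf.apply_eq (x := ⟨φ z0, Finset.mem_image_of_mem _ hφ⟩))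
    exact congrFun (h.dis _ (h1 φ hφ) φ hφ z0 z0 this) w

theorem Vx.trans (h : Vx x y 𝒜) (h' : Vx x y ℬ) (hc : 𝒜.card = ℬ.card) {c d : ZMod 2}
    (hx : EC c x) (hy : EC d y) (hxy : x ≤ y) : ∃ g ∈ F x y, g • 𝒜 = ℬ := by
  obtain ⟨l, h1, h2, rfl⟩ := h.seq hxy
  obtain ⟨l', h3, h4, rfl⟩ := h'.seq hxy
  rw [List.toFinset_card_of_nodup h2, List.toFinset_card_of_nodup h4] at hc
  obtain ⟨g, hg, rfl⟩ := h1.mtchF h3 hc hx hy
  exact ⟨g, hg, by ext φ; simp [Finset.mem_smul_finset]⟩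

theorem exists_vx {c d : ZMod 2} (hx : EC c x) (hy : EC d y) : ∃ 𝒜, Vx x y 𝒜 := by
  obtain ⟨N, ⟨k, h1⟩, ⟨l, h2⟩⟩ := (hx.S3_pow.and hy.S3_pow).exists
  have : Vx (st k) (st l) ((Finset.Ico k l).image fun j w => ⟨j, w⟩) := by
    refine ⟨?_, ?_, fun z h1 h2 => ⟨_, Finset.mem_image_of_mem _ (Finset.mem_Ico.2
      ⟨st_le.1 h1, lt_st.1 h2⟩), z.s, rfl⟩, ?_⟩ <;> simp only [Finset.mem_image, Finset.mem_Ico]
    · rintro _ ⟨j, -, rfl⟩
      exact ⟨_, _, 1, one_mem _, j, fun _ => rfl, rfl, rfl⟩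
    · rintro _ ⟨j, hj, rfl⟩ w
      exact ⟨st_le.2 hj.1, lt_st.2 hj.2⟩
    · rintro _ ⟨j, -, rfl⟩ _ ⟨j', -, rfl⟩ w w' e
      rw [show j = j' from congrArg L.k e]
  have := this.smul (inv_mem (pow_mem S3_mem N))
  rw [← h1, ← h2] at this
  exact ⟨_, by simpa using this⟩

theorem Vx.inj (h : Vx x y 𝒜) (hφ : φ ∈ 𝒜) : Injective φ := by
  obtain ⟨a, b, h⟩ := h.cht φ hφ
  exact h.mono.injective

theorem Vx.not_child (h : Vx x y 𝒜) (hφ : φ ∈ 𝒜) (a : Fin 3) : ch φ a ∉ 𝒜 := fun h' => by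
  have e := h.dis _ h' _ hφ z0 (cons a z0) rfl
  have h1 := congrFun (h.inj hφ (congrFun e z0)) 0
  have h2 := congrFun (h.inj hφ (congrFun e (cons 1 z0))) 0
  simp only [cons_zero, z0_apply] at h1 h2
  rw [h1] at h2
  exact absurd h2 (by decide)

/-- all children of a set of charts -/
noncomputable def kids (J : Finset Φ) : Finset Φ := (J ×ˢ Finset.univ).image fun p => ch p.1 p.2

theorem mem_kids : φ ∈ kids J ↔ ∃ ψ ∈ J, ∃ a, ch ψ a = φ := by simp [kids]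

/-- expansion -/
noncomputable def ex (𝒜 J : Finset Φ) : Finset Φ := (𝒜 \ J) ∪ kids J

theorem mem_ex : φ ∈ ex 𝒜 J ↔ (φ ∈ 𝒜 ∧ φ ∉ J) ∨ ∃ ψ ∈ J, ∃ a, ch ψ a = φ := by
  simp [ex, mem_kids]

theorem smul_ex (g : Au) : g • ex 𝒜 J = ex (g • 𝒜) (g • J) := by
  ext φ
  obtain ⟨φ, rfl⟩ := MulAction.surjective g φ
  simp only [Finset.smul_mem_smul_finset_iff, mem_ex]
  refine or_congr Iff.rfl ⟨?_, ?_⟩
  · rintro ⟨ψ, h, a, rfl⟩
    exact ⟨_, Finset.smul_mem_smul_finset h, a, rfl⟩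
  · rintro ⟨ψ, h, a, e⟩
    obtain ⟨ψ, h', rfl⟩ := Finset.mem_smul_finset.1 h
    exact ⟨ψ, h', a, MulAction.injective g e⟩

theorem Cht.child' (h : Cht φ x y) (a : Fin 3) : ∃ a' b', Cht (ch φ a) a' b' := by
  fin_cases a
  exacts [⟨_, _, h.child.1⟩, ⟨_, _, h.child.2.1⟩, ⟨_, _, h.child.2.2⟩]

theorem Vx.ex (h : Vx x y 𝒜) (hJ : J ⊆ 𝒜) : Vx x y (ex 𝒜 J) := by
  refine ⟨?_, ?_, fun z h1 h2 => ?_, ?_⟩ <;> simp only [mem_ex]
  · rintro φ (hφ | ⟨ψ, hψ, a, rfl⟩)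
    · exact h.cht φ hφ.1
    · obtain ⟨_, _, h⟩ := h.cht ψ (hJ hψ)
      exact h.child' a
  · rintro φ (hφ | ⟨ψ, hψ, a, rfl⟩) w
    · exact h.sub φ hφ.1 w
    · exact h.sub ψ (hJ hψ) _
  · obtain ⟨φ, hφ, w, rfl⟩ := h.cov z h1 h2
    by_cases hφJ : φ ∈ J
    · obtain ⟨a, w, rfl⟩ := exists_cons w
      exact ⟨_, Or.inr ⟨φ, hφJ, a, rfl⟩, w, rfl⟩
    · exact ⟨φ, Or.inl ⟨hφ, hφJ⟩, w, rfl⟩
  · rintro φ (hφ | ⟨ψ, hψ, a, rfl⟩) φ' (hφ' | ⟨ψ', hψ', a', rfl⟩) w w' e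
    · exact h.dis _ hφ.1 _ hφ'.1 _ _ e
    · exact absurd (h.dis _ hφ.1 _ (hJ hψ') _ _ e ▸ hψ') hφ.2
    · exact absurd (h.dis _ (hJ hψ) _ hφ'.1 _ _ e ▸ hψ) hφ'.2
    · obtain rfl := h.dis _ (hJ hψ) _ (hJ hψ') _ _ e
      rw [(cons_inj.1 (h.inj (hJ hψ) e)).1]

theorem Vx.card_ex (h : Vx x y 𝒜) (hJ : J ⊆ 𝒜) :
    (Pool.Agent.P.MP_267653_al.ex 𝒜 J).card = 𝒜.card + 2 * J.card := by
  rw [Pool.Agent.P.MP_267653_al.ex, Finset.card_union_of_disjoint, Finset.card_sdiff_of_subset hJ,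
    kids, Finset.card_image_of_injOn, Finset.card_product]
  · have := Finset.card_le_card hJ
    simp; omega
  · rintro ⟨φ, a⟩ h1 ⟨ψ, b⟩ h2 e
    simp only [Finset.coe_product, Set.mem_prod, Finset.mem_coe] at h1 h2
    obtain rfl := h.dis _ (hJ h1.1) _ (hJ h2.1) _ _ (congrFun e z0)
    rw [show a = b from (cons_inj.1 (h.inj (hJ h1.1) (congrFun e z0))).1]
  · refine Finset.disjoint_left.2 fun φ h1 h2 => ?_
    obtain ⟨ψ, hψ, a, rfl⟩ := mem_kids.1 h2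
    exact h.not_child (hJ hψ) a (Finset.mem_sdiff.1 h1).1

/-- elementary expansion -/
def Le (𝒜 ℬ : Finset Φ) : Prop := ∀ φ ∈ 𝒜, φ ∈ ℬ ∨ ∀ a, ch φ a ∈ ℬ

theorem le_ex (𝒜 J : Finset Φ) : Le 𝒜 (ex 𝒜 J) := fun φ hφ => by
  by_cases h : φ ∈ J
  · exact Or.inr fun a => mem_ex.2 (Or.inr ⟨φ, h, a, rfl⟩)
  · exact Or.inl (mem_ex.2 (Or.inl ⟨hφ, h⟩))

theorem Le.eq_ex (h : Le 𝒜 ℬ) (hA : Vx x y 𝒜) (hB : Vx x y ℬ) : ℬ = ex 𝒜 (𝒜 \ ℬ) := by
  ext χ
  rw [mem_ex]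
  constructor
  · intro hχ
    obtain ⟨φ, hφ, w, e⟩ := hA.cov _ (hB.sub χ hχ z0).1 (hB.sub χ hχ z0).2
    by_cases h1 : φ ∈ ℬ
    · obtain rfl := hB.dis _ h1 _ hχ _ _ e
      exact Or.inl ⟨hφ, by simp [h1]⟩
    · obtain ⟨a, w, rfl⟩ := exists_cons w
      exact Or.inr ⟨φ, by simp [hφ, h1], a, hB.dis _ ((h φ hφ).resolve_left h1 a) _ hχ w z0 e⟩
  · rintro (⟨h1, h2⟩ | ⟨ψ, hψ, a, rfl⟩)
    · simpa [h1] using h2
    · rw [Finset.mem_sdiff] at hψ
      exact (h ψ hψ.1).resolve_left hψ.2 a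

theorem Le.card (h : Le 𝒜 ℬ) (hA : Vx x y 𝒜) (hB : Vx x y ℬ) :
    ℬ.card = 𝒜.card + 2 * (𝒜 \ ℬ).card := by
  conv_lhs => rw [h.eq_ex hA hB]
  exact hA.card_ex Finset.sdiff_subset

theorem Le.eq (h : Le 𝒜 ℬ) (hA : Vx x y 𝒜) (hB : Vx x y ℬ) (hc : ℬ.card ≤ 𝒜.card) : 𝒜 = ℬ := by
  have := h.card hA hB
  exact Finset.eq_of_subset_of_card_le
    (Finset.sdiff_eq_empty_iff_subset.1 (Finset.card_eq_zero.1 (by omega))) hc

theorem Le.smul (h : Le 𝒜 ℬ) (g : Au) : Le (g • 𝒜) (g • ℬ) := by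
  intro φ hφ
  obtain ⟨φ, hφ', rfl⟩ := Finset.mem_smul_finset.1 hφ
  exact (h φ hφ').imp Finset.smul_mem_smul_finset fun h a => Finset.smul_mem_smul_finset (h a)

theorem bar (P : List (Fin 3) → Prop) (h1 : ∀ u, (∀ a, P (u ++ [a])) → P u)
    (h2 : ∀ y, ∃ u z, y = app u z ∧ P u) : P [] := by
  by_contra h0
  have : ∀ u, ∃ a, ¬ P u → ¬ P (u ++ [a]) := fun u => by
    by_contra h
    push Not at h
    exact (h 0).1 (h1 u fun a => (h a).2)
  choose f hf using this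
  let u : ℕ → List (Fin 3) := fun n => Nat.rec [] (fun _ u => u ++ [f u]) n
  have hu : ∀ n, ¬ P (u n) ∧ (u n).length = n ∧
      (fun i => f (u i) : C) = app (u n) (fun i => f (u (i + n))) := by
    intro n
    induction n with
    | zero => exact ⟨h0, rfl, rfl⟩
    | succ n ih =>
      refine ⟨hf _ ih.1, by
        show (u n ++ [f (u n)]).length = _
        simp [ih.2.1], ih.2.2.trans ?_⟩
      show _ = app (u n ++ [f (u n)]) _
      rw [app_append, app_inj]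
      funext i
      cases i with
      | zero => simp
      | succ i => simp [add_assoc, add_comm 1 n]
  obtain ⟨v, z, e, hv⟩ := h2 fun i => f (u i)
  obtain ⟨h3, h4, h5⟩ := hu v.length
  obtain ⟨w, h6, -⟩ := app_eq (e.symm.trans h5) h4.ge
  have : w = [] := by simpa [h6] using h4
  exact h3 (by simpa [h6, this] using hv)

/-- standard charts of a given depth -/
def Std (N : ℕ) (φ : Φ) : Prop := ∃ a : Ad, a.2.length = N ∧ φ = cm a

/-- charts which expand to standard ones -/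
inductive Gd (N : ℕ) : Φ → Prop
  | std {φ : Φ} : Std N φ → Gd N φ
  | node {φ : Φ} : (∀ a, Gd N (ch φ a)) → Gd N φ

theorem Gd.succ {N : ℕ} (h : Gd N φ) : Gd (N+1) φ := by
  induction h with
  | std h =>
    obtain ⟨a, h, rfl⟩ := h
    exact .node fun i => .std ⟨a.ex [i], by simp [Ad.ex, h], funext fun w => (cm_ex a [i] w).symm⟩
  | node _ ih => exact .node ih

theorem Gd.mono {N M : ℕ} (h : Gd N φ) (hNM : N ≤ M) : Gd M φ := by
  induction hNM with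
  | refl => exact h
  | step _ ih => exact ih.succ

theorem Cht.gd (h : Cht φ x y) : ∀ᶠ N in Filter.atTop, Gd N φ := by
  have := bar (fun u => ∀ᶠ N in Filter.atTop, Gd N (fun w => φ (app u w))) (fun u hu => ?_)
    (fun w => ?_)
  · exact this
  · filter_upwards [Filter.eventually_all.2 hu] with N hN
    exact .node fun a => by have := hN a; simp only [app_append] at this; exact this
  · obtain ⟨u, w', b, h1, h2⟩ := h.loc w
    exact ⟨u, w', h1, Filter.eventually_atTop.2 ⟨_, fun N hN =>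
      (Gd.std ⟨b, rfl, funext h2⟩).mono hN⟩⟩

theorem Gd.std_in {N : ℕ} (h : Gd N φ) : ∃ u, Std N fun w => φ (app u w) := by
  induction h with
  | std h => exact ⟨[], h⟩
  | node _ ih =>
    obtain ⟨u, h⟩ := ih 0
    exact ⟨0 :: u, h⟩

theorem Std.not_gd {N : ℕ} (h : Std N φ) (a : Fin 3) : ¬ Gd N (ch φ a) := by
  intro h'
  obtain ⟨b, hb, rfl⟩ := h
  obtain ⟨u, c, hc, e⟩ := h'.std_in
  have e' : ∀ w, app b.2 (cons a (app u w)) = app c.2 w := fun w => congrArg L.s (congrFun e w)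
  have h1 : ∀ w, cons a (app u w) = w := fun w => by
    obtain ⟨v, h1, h2⟩ := app_eq (e' w) (by omega)
    obtain rfl : v = [] := by simpa [h1, hb] using hc
    exact h2
  have h2 := congrFun (h1 z0) 0
  have h3 := congrFun (h1 (cons 1 z0)) 0
  simp only [cons_zero, z0_apply] at h2 h3
  rw [h2] at h3
  exact absurd h3 (by decide)

theorem Vx.std_eq {N : ℕ} (hA : Vx x y 𝒜) (hB : Vx x y ℬ) (h1 : ∀ φ ∈ 𝒜, Std N φ)
    (h2 : ∀ φ ∈ ℬ, Std N φ) : 𝒜 ⊆ ℬ := by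
  intro φ hφ
  obtain ⟨ψ, hψ, w, e⟩ := hB.cov _ (hA.sub φ hφ z0).1 (hA.sub φ hφ z0).2
  obtain ⟨a, ha, rfl⟩ := h1 φ hφ
  obtain ⟨b, hb, rfl⟩ := h2 ψ hψ
  obtain ⟨v, h3, -⟩ := app_eq (show app b.2 w = app a.2 z0 from congrArg L.s e) (by omega)
  obtain rfl : v = [] := by simpa [h3, hb] using ha
  rwa [show a = b from Prod.ext (congrArg L.k e).symm (by simpa using h3)]

theorem gd_bound (x y : L) (N : ℕ) :
    ∃ K, ∀ 𝒜, Vx x y 𝒜 → (∀ φ ∈ 𝒜, Gd N φ) → 𝒜.card ≤ K := by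
  have hT : (Set.Icc x.k y.k ×ˢ {u : List (Fin 3) | u.length = N}).Finite :=
    (Set.finite_Icc _ _).prod (List.finite_length_eq _ N)
  refine ⟨hT.toFinset.card, fun 𝒜 h1 h2 => Finset.card_le_card_of_forall_subsingleton
    (fun φ a => ∃ w, φ w = cm a z0) (fun φ hφ => ?_) ?_⟩
  · obtain ⟨u, a, h3, h4⟩ := (h2 φ hφ).std_in
    have h5 := congrFun h4 z0
    have := h5 ▸ h1.sub φ hφ (app u z0)
    exact ⟨a, by simpa using ⟨⟨L.k_mono this.1, L.k_mono this.2.le⟩, h3⟩, _, h5⟩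
  · rintro a - φ ⟨hφ, w, e⟩ ψ ⟨hψ, w', e'⟩
    exact h1.dis _ hφ _ hψ _ _ (e.trans e'.symm)

theorem Vx.ex_gd {N : ℕ} (h2 : ∀ φ ∈ 𝒜, Gd N φ) (hJ : J ⊆ 𝒜) (hJ' : ∀ φ ∈ J, ¬ Std N φ) :
    ∀ φ ∈ Pool.Agent.P.MP_267653_al.ex 𝒜 J, Gd N φ := by
  intro φ hφ
  rcases mem_ex.1 hφ with h | ⟨ψ, hψ, a, rfl⟩
  · exact h2 φ h.1
  · cases h2 ψ (hJ hψ) with
    | std h => exact absurd h (hJ' ψ hψ)
    | node h => exact h a

end Pool.Agent.P.MP_267653_al
end

-- part Pool.Agent.P.MP_267653_al.Stein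
section

/-! The Stein-Farley complex: the groups `F x y` are of type F-infinity; a generating set. -/

set_option autoImplicit false

namespace Pool.Agent.P.MP_267653_al

open Function Pool.Agent.Lib.Brown
open scoped Pointwise Classical

variable {φ ψ : Φ} {x y z x' y' : L} {𝒜 ℬ J : Finset Φ}

def Rl (𝒜 ℬ : Finset Φ) : Prop := Le 𝒜 ℬ ∨ Le ℬ 𝒜

instance : RS Rl := ⟨fun _ => Or.inl fun _ h => Or.inl h, fun _ _ h => h.symm⟩

theorem Rl.le (h : Rl 𝒜 ℬ) (hA : Vx x y 𝒜) (hB : Vx x y ℬ) (hc : 𝒜.card ≤ ℬ.card) : Le 𝒜 ℬ :=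
  h.elim id fun h => by rw [h.eq hB hA hc]; exact fun _ h => Or.inl h

theorem conn_gd (N M : ℕ) (hne : ∃ 𝒜, Vx x y 𝒜 ∧ ∀ φ ∈ 𝒜, Gd N φ) :
    Conn Rl {𝒜 | Vx x y 𝒜 ∧ ∀ φ ∈ 𝒜, Gd N φ} M := by
  obtain ⟨K, hK⟩ := gd_bound x y N
  obtain ⟨𝒰, hU, hmax⟩ : ∃ 𝒰, (Vx x y 𝒰 ∧ ∀ φ ∈ 𝒰, Gd N φ) ∧
      ∀ 𝒜, (Vx x y 𝒜 ∧ ∀ φ ∈ 𝒜, Gd N φ) → K - 𝒰.card ≤ K - 𝒜.card :=
    ⟨_, argminOn_mem (fun 𝒜 : Finset Φ => K - 𝒜.card) {𝒜 | Vx x y 𝒜 ∧ ∀ φ ∈ 𝒜, Gd N φ} hne,
      fun _ h => argminOn_le (fun 𝒜 : Finset Φ => K - 𝒜.card) _ h⟩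
  have hstd : ∀ 𝒜, Vx x y 𝒜 → (∀ φ ∈ 𝒜, Gd N φ) → 𝒰.card ≤ 𝒜.card → ∀ φ ∈ 𝒜, Std N φ := by
    intro 𝒜 h1 h2 h3 φ hφ
    by_contra h
    have hJ : {φ} ⊆ 𝒜 := by simpa using hφ
    have h4 := Vx.ex_gd h2 hJ (by simpa using h)
    have h5 := hmax _ ⟨h1.ex hJ, h4⟩
    have h6 := hK _ (h1.ex hJ) h4
    rw [h1.card_ex hJ, Finset.card_singleton] at h5 h6
    omega
  have hU' := hstd 𝒰 hU.1 hU.2 le_rfl
  have hKU := hK 𝒰 hU.1 hU.2
  refine Conn.up (fun 𝒜 => K - 𝒜.card) (K - 𝒰.card) (fun 𝒜 hA ℬ hB h he _ => ?_)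
    (fun 𝒜 hA hlt j _ => ?_) (conn_cone (S := Sub _ _ _) (v := 𝒰) ⟨hU, le_rfl⟩ (fun 𝒜 hA => ?_) M)
  · have := hK _ hA.1 hA.2
    have := hK _ hB.1 hB.2
    exact (h.le hA.1 hB.1 (by omega)).eq hA.1 hB.1 (by omega)
  · have hJ : 𝒜.filter (fun φ => ¬ Std N φ) ⊆ 𝒜 := Finset.filter_subset _ _
    have h4 := Vx.ex_gd hA.2 hJ (fun φ h => (Finset.mem_filter.1 h).2)
    refine (conn_cone (S := DLk _ _ _ _) (v := ex 𝒜 (𝒜.filter fun φ => ¬ Std N φ))
      ⟨(⟨hA.1.ex hJ, h4⟩ : _ ∧ _), ?_, Or.inl (le_ex _ _)⟩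
      (fun ℬ hB => Or.inr fun χ hχ => ?_) j).1 j le_rfl
    · have h6 := hK _ (hA.1.ex hJ) h4
      have : (𝒜.filter fun φ => ¬ Std N φ).card ≠ 0 := fun h => by
        have := Finset.card_le_card (hU.1.std_eq hA.1 hU' fun φ hφ => by
          simpa using Finset.filter_eq_empty_iff.1 (Finset.card_eq_zero.1 h) hφ)
        omega
      rw [hA.1.card_ex hJ] at h6 ⊢
      omega
    · obtain ⟨hB, h1, h2⟩ := hB
      have hχ' := hχ
      beta_reduce at h1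
      rw [(h2.le hA.1 hB.1 (by omega)).eq_ex hA.1 hB.1, mem_ex] at hχ'
      rcases hχ' with h | ⟨φ, hφ, a, rfl⟩
      · exact le_ex _ _ χ h.1
      · exact Or.inl (mem_ex.2 (Or.inr ⟨φ, Finset.mem_filter.2 ⟨(Finset.mem_sdiff.1 hφ).1,
          fun h => h.not_gd a (hB.2 _ hχ)⟩, a, rfl⟩))
  · have := hK _ hA.1.1 hA.1.2
    have h2 : K - 𝒜.card ≤ K - 𝒰.card := hA.2
    exact Or.inl fun φ hφ => Or.inl
      (hU.1.std_eq hA.1.1 hU' (hstd _ hA.1.1 hA.1.2 (by omega)) hφ)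

theorem Vx.gd (h : Vx x y 𝒜) : ∀ᶠ N in Filter.atTop, ∀ φ ∈ 𝒜, Gd N φ :=
  (Filter.eventually_all_finset _).2 fun φ hφ => by
    obtain ⟨_, _, h⟩ := h.cht φ hφ
    exact h.gd

theorem conn_vx (M : ℕ) (hne : ∃ 𝒜, Vx x y 𝒜) : Conn Rl {𝒜 | Vx x y 𝒜} M := by
  obtain ⟨𝒜, hA⟩ := hne
  obtain ⟨N, hN⟩ := hA.gd.exists
  refine conn_directed (fun n : ℕ => {𝒜 | Vx x y 𝒜 ∧ ∀ φ ∈ 𝒜, Gd (N + n) φ})
    (fun i j => ⟨i + j, fun _ h => ⟨h.1, fun φ hφ => (h.2 φ hφ).mono (by omega)⟩,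
      fun _ h => ⟨h.1, fun φ hφ => (h.2 φ hφ).mono (by omega)⟩⟩) (fun ℬ hB => ?_)
    (fun _ _ h => h.1) fun i => conn_gd _ _ ⟨𝒜, hA, fun φ hφ => (hN φ hφ).mono (by omega)⟩
  obtain ⟨n, hn⟩ := (Vx.gd hB).exists
  exact ⟨n, hB, fun φ hφ => (hn φ hφ).mono (by omega)⟩

theorem Seq.parents (j : ℕ) : ∀ {x : L} {l : List Φ}, Seq x l y → 3 * j ≤ l.length →
    ∃ σ : Finset Φ, σ.card = j ∧ (∀ ψ ∈ σ, (∃ a b, Cht ψ a b) ∧ (∀ a, ch ψ a ∈ l) ∧
      ∀ w, x ≤ ψ w) ∧ ∀ ψ ∈ σ, ∀ χ ∈ σ, ψ ≠ χ → ∀ w w', ψ w ≠ χ w' := by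
  induction j with
  | zero => exact fun _ _ => ⟨∅, rfl, by simp, by simp⟩
  | succ j ih =>
    intro x l h hl
    rcases h with _ | ⟨h0, _ | ⟨h1, _ | ⟨h2, h⟩⟩⟩
    · simp at hl
    · simp at hl; omega
    · simp at hl; omega
    obtain ⟨σ, e1, e2, e3⟩ := ih h (by simp at hl; omega)
    obtain ⟨ψ, h3, rfl, rfl, rfl⟩ := exists_parent h0 h1 h2
    have h4 : ∀ χ ∈ σ, ∀ w w', ψ w ≠ χ w' := fun χ hχ w w' =>
      ((h3.mem w).2.trans_le ((e2 χ hχ).2.2 w')).ne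
    refine ⟨insert ψ σ, by rw [Finset.card_insert_of_notMem fun h => h4 ψ h z0 z0 rfl, e1], ?_, ?_⟩
    · simp only [Finset.mem_insert]
      rintro χ (rfl | hχ)
      · exact ⟨⟨_, _, h3⟩, fun a => by fin_cases a <;> simp, fun w => (h3.mem w).1⟩
      · exact ⟨(e2 χ hχ).1, fun a => by simp [(e2 χ hχ).2.1 a],
          fun w => h3.lt.le.trans ((e2 χ hχ).2.2 w)⟩
    · simp only [Finset.mem_insert]
      rintro χ (rfl | hχ) χ' (rfl | hχ') hne w w'
      · exact absurd rfl hne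
      · exact h4 _ hχ' _ _
      · exact (h4 _ hχ _ _).symm
      · exact e3 _ hχ _ hχ' hne _ _

theorem conn_link (N : ℕ) (hA : Vx x y 𝒜) (hxy : x ≤ y) (hc : 3 * (N * 3 + 1) ≤ 𝒜.card) :
    Conn Rl (DLk Rl {𝒜 | Vx x y 𝒜} Finset.card 𝒜) N := by
  obtain ⟨l, h1, h2, h3⟩ := hA.seq hxy
  obtain ⟨σ, e1, e2, e3⟩ := h1.parents (N * 3 + 1)
    (by rwa [← h3, List.toFinset_card_of_nodup h2] at hc)
  set T : Set Φ := {ψ | (∃ a b, Cht ψ a b) ∧ ∀ a, ch ψ a ∈ 𝒜}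
  have hcn := grounded (fun ψ χ : Φ => ∀ w w', ψ w ≠ χ w') (fun _ _ h w w' => (h w' w).symm) 3 N
    T σ ⟨Finset.card_pos.1 (by omega), fun ψ hψ => ⟨(e2 ψ hψ).1, fun a => by
      rw [← h3, List.mem_toFinset]; exact (e2 ψ hψ).2.1 a⟩, e3⟩ e1.ge (fun ψ hψ => by
      refine (Finset.card_le_card_of_forall_subsingleton (t := Finset.univ)
        (fun χ (a : Fin 3) => ∃ v, χ v = ψ (cons a z0)) (fun χ hχ => ?_) ?_).trans (by simp)
      · obtain ⟨h4, -, h5⟩ := Finset.mem_filter.1 hχ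
        push Not at h5
        obtain ⟨w, w', h5⟩ := h5
        obtain ⟨a, w, rfl⟩ := exists_cons w
        obtain ⟨a', w', rfl⟩ := exists_cons w'
        have := hA.dis _ (hψ.2 a) (ch χ a') (by
          rw [← h3, List.mem_toFinset]; exact (e2 χ h4).2.1 a') w w' h5
        exact ⟨a, Finset.mem_univ _, _, (congrFun this z0).symm⟩
      · rintro a - χ ⟨h4, w, e⟩ χ' ⟨h5, w', e'⟩
        by_contra hne
        exact e3 _ (Finset.mem_filter.1 h4).1 _ (Finset.mem_filter.1 h5).1 hne _ _ (e.trans e'.symm))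
  have hlk : ∀ ℬ ∈ DLk Rl {𝒜 | Vx x y 𝒜} Finset.card 𝒜, Le ℬ 𝒜 := fun ℬ hB =>
    Rl.le (RS.symm _ _ hB.2.2) hB.1 hA hB.2.1.le
  have hf : ∀ ℬ ∈ DLk Rl {𝒜 | Vx x y 𝒜} Finset.card 𝒜, ∀ ℬ' ∈ DLk Rl {𝒜 | Vx x y 𝒜} Finset.card 𝒜,
      Le ℬ ℬ' → ℬ' \ 𝒜 ⊆ ℬ \ 𝒜 := by
    intro ℬ hB ℬ' hB' h ψ hψ
    obtain ⟨h4, h5⟩ := Finset.mem_sdiff.1 hψ
    refine Finset.mem_sdiff.2 ⟨?_, h5⟩
    have h6 := h4
    rw [h.eq_ex hB.1 hB'.1, mem_ex] at h6
    rcases h6 with h6 | ⟨χ, hχ, a, rfl⟩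
    · exact h6.1
    · rcases hlk ℬ hB χ (Finset.mem_sdiff.1 hχ).1 with h7 | h7
      · have h8 := (hlk ℬ' hB' _ h4).resolve_left h5 0
        have h9 := hA.dis _ h8 _ h7 z0 _ rfl
        have h10 := congrFun (hA.inj h7 (congrFun h9 (cons 1 z0))) 1
        have h11 := congrFun (hA.inj h7 (congrFun h9 (cons 1 (cons 1 z0)))) 1
        exact absurd h11 (show (0 : Fin 3) ≠ 1 by decide)
      · exact absurd (h7 a) h5
  have hg : ∀ J ∈ Clq (fun ψ χ : Φ => ∀ w w', ψ w ≠ χ w') T,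
      ∀ J' ∈ Clq (fun ψ χ : Φ => ∀ w w', ψ w ≠ χ w') T, J ⊆ J' →
      Le (J' ∪ (𝒜 \ kids J')) (J ∪ (𝒜 \ kids J)) := by
    intro J hJ J' hJ' h φ hφ
    simp only [Finset.mem_union, Finset.mem_sdiff, mem_kids] at hφ ⊢
    rcases hφ with hφ | hφ
    · refine or_iff_not_imp_left.2 fun h4 a => Or.inr ⟨(hJ'.2.1 φ hφ).2 a, ?_⟩
      rintro ⟨ψ, hψ, b, e⟩
      exact hJ'.2.2 ψ (h hψ) φ hφ (fun e => h4 (Or.inl (e ▸ hψ))) _ _ (congrFun e z0)
    · exact Or.inl (Or.inr ⟨hφ.1, fun ⟨ψ, hψ, e⟩ => hφ.2 ⟨ψ, h hψ, e⟩⟩)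
  refine hcn.retract (fun ℬ => ℬ \ 𝒜) (fun J => J ∪ (𝒜 \ kids J)) (fun ℬ hB => ⟨?_, ?_, ?_⟩)
    (fun J hJ => ?_) (fun ℬ hB ℬ' hB' h => (h.imp (hf _ hB _ hB') (hf _ hB' _ hB)).symm)
    (fun J hJ J' hJ' h => (h.imp (hg _ hJ _ hJ') (hg _ hJ' _ hJ)).symm) (fun ℬ hB => ?_)
  · have := (hlk ℬ hB).card hB.1 hA
    have := hB.2.1
    exact Finset.card_pos.1 (by omega)
  · intro ψ hψ
    rw [Finset.mem_sdiff] at hψ
    exact ⟨Vx.cht hB.1 ψ hψ.1, (hlk ℬ hB ψ hψ.1).resolve_left hψ.2⟩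
  · intro ψ hψ χ hχ hne w w' e
    exact hne (Vx.dis hB.1 _ (Finset.mem_sdiff.1 hψ).1 _ (Finset.mem_sdiff.1 hχ).1 _ _ e)
  · have hV : Vx x y (J ∪ (𝒜 \ kids J)) := by
      refine ⟨?_, ?_, fun z h1 h2 => ?_, ?_⟩ <;>
        simp only [Finset.mem_union, Finset.mem_sdiff, mem_kids]
      · rintro φ (hφ | hφ)
        exacts [(hJ.2.1 φ hφ).1, hA.cht φ hφ.1]
      · rintro φ (hφ | hφ) w
        · obtain ⟨a, w, rfl⟩ := exists_cons w
          exact hA.sub _ ((hJ.2.1 φ hφ).2 a) w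
        · exact hA.sub φ hφ.1 w
      · obtain ⟨φ, hφ, w, rfl⟩ := hA.cov z h1 h2
        by_cases h : ∃ ψ ∈ J, ∃ a, ch ψ a = φ
        · obtain ⟨ψ, hψ, a, rfl⟩ := h
          exact ⟨ψ, Or.inl hψ, _, rfl⟩
        · exact ⟨φ, Or.inr ⟨hφ, h⟩, w, rfl⟩
      · have : ∀ φ ∈ J, ∀ χ ∈ 𝒜, ∀ w w', φ w = χ w' → ∃ ψ ∈ J, ∃ a, ch ψ a = χ := by
          intro φ hφ χ hχ w w' e
          obtain ⟨a, w, rfl⟩ := exists_cons w
          exact ⟨φ, hφ, a, hA.dis _ ((hJ.2.1 φ hφ).2 a) _ hχ w w' e⟩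
        rintro φ (hφ | hφ) χ (hχ | hχ) w w' e
        · by_contra hne
          exact hJ.2.2 φ hφ χ hχ hne _ _ e
        · exact absurd (this φ hφ χ hχ.1 _ _ e) hχ.2
        · exact absurd (this χ hχ φ hφ.1 _ _ e.symm) hφ.2
        · exact hA.dis _ hφ.1 _ hχ.1 _ _ e
    have hle : Le (J ∪ (𝒜 \ kids J)) 𝒜 := fun φ hφ =>
      (Finset.mem_union.1 hφ).elim (fun h => Or.inr (hJ.2.1 φ h).2)
        fun h => Or.inl (Finset.mem_sdiff.1 h).1
    refine ⟨hV, ?_, Or.inr hle⟩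
    by_contra hlt
    obtain ⟨ψ, hψ⟩ := hJ.1
    exact hA.not_child (hle.eq hV hA (not_lt.1 hlt) ▸ Finset.mem_union_left _ hψ) 0
      ((hJ.2.1 ψ hψ).2 0)
  · ext φ
    simp only [Finset.mem_union, Finset.mem_sdiff, mem_kids]
    constructor
    · rintro (h | ⟨h4, h5⟩)
      · exact h.1
      · rw [(hlk ℬ hB).eq_ex hB.1 hA, mem_ex] at h4
        exact (h4.resolve_right (by simpa only [Finset.mem_sdiff] using h5)).1
    · intro h
      by_cases h4 : φ ∈ 𝒜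
      · refine Or.inr ⟨h4, ?_⟩
        rintro ⟨ψ, hψ, a, rfl⟩
        exact Vx.not_child hB.1 hψ.1 a h
      · exact Or.inl ⟨h, h4⟩

/-- the Higman-Thompson groups are of type F-infinity -/
theorem fn_F {c d : ZMod 2} (hx : EC c x) (hy : EC d y) (m : ℕ) : Fn (F x y) m := by
  rcases lt_or_ge y x with hxy | hxy
  · have : Subsingleton (F x y) := ⟨fun a b => Subtype.ext (RelIso.ext fun z => by
      have h : z < x ∨ y ≤ z := (lt_or_ge z x).imp id fun h => hxy.le.trans h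
      rw [a.2.2 z h, b.2.2 z h])⟩
    exact fn_of_subsingleton m
  refine Fn.mono (Nat.le_succ m) ?_
  set m0 := 3 * ((m + 2) * 3 + 1)
  let rep : ℕ → Finset Φ := fun n => if h : ∃ 𝒜, Vx x y 𝒜 ∧ 𝒜.card = n then h.choose else ∅
  refine brown Rl (Sub {𝒜 | Vx x y 𝒜} Finset.card m0)
    (fun g 𝒜 h => ⟨Vx.smulF h.1 g.2, (Finset.card_smul_finset _ _).trans_le h.2⟩)
    (fun g _ _ h => h.imp (·.smul g) (·.smul g)) (by omega)
    (Conn.down _ m0 (fun 𝒜 hA ℬ hB h he _ => (h.le hA hB he.le).eq hA hB he.ge)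
      (fun 𝒜 hA h => conn_link _ hA hxy h.le) (conn_vx _ (exists_vx hx hy)))
    ((Finset.range (m0+1)).biUnion fun n => (rep n ∪ kids (rep n)).powerset)
    (fun l hl _ => ?_) (fun l hl hs => ?_)
  · by_cases hne : l = []
    · exact ⟨1, by simp [hne]⟩
    obtain ⟨𝒜, hA, hmin⟩ := l.toFinset.exists_min_image Finset.card
      (by simpa [List.toFinset_nonempty_iff] using hne)
    rw [List.mem_toFinset] at hA
    have hV : Vx x y 𝒜 := (hl 𝒜 hA).1.1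
    have h : ∃ ℬ, Vx x y ℬ ∧ ℬ.card = 𝒜.card := ⟨𝒜, hV, rfl⟩
    obtain ⟨g, hg, e⟩ := hV.trans h.choose_spec.1 h.choose_spec.2.symm hx hy hxy
    refine ⟨⟨g, hg⟩, fun ℬ hB => Finset.mem_biUnion.2 ⟨𝒜.card,
      Finset.mem_range.2 (Nat.lt_succ_of_le (hl 𝒜 hA).1.2), Finset.mem_powerset.2 fun φ hφ => ?_⟩⟩
    have hV' : Vx x y ℬ := (hl ℬ hB).1.1
    have hle := (((hl 𝒜 hA).2 ℬ hB).le hV hV' (hmin ℬ (List.mem_toFinset.2 hB))).smul g
    change φ ∈ g • ℬ at hφ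
    rw [hle.eq_ex (hV.smulF hg) (hV'.smulF hg), mem_ex, e] at hφ
    rw [show rep 𝒜.card = h.choose from dif_pos h, Finset.mem_union, mem_kids]
    exact hφ.imp (·.1) fun ⟨ψ, hψ, e⟩ => ⟨ψ, (Finset.mem_sdiff.1 hψ).1, e⟩
  · obtain ⟨𝒜, hA⟩ := List.exists_mem_of_ne_nil l hl
    have h1 : ∀ g : MulAction.stabilizer (F x y) l, g = 1 := fun g => Subtype.ext (Subtype.ext
      (Vx.free (hs 𝒜 hA).1.1 g.1.2.2 (mem_stab_list.1 g.2 𝒜 hA)))
    have : Subsingleton (MulAction.stabilizer (F x y) l) := ⟨fun a b => by rw [h1 a, h1 b]⟩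
    exact fn_of_subsingleton _

/-- the basic generators -/
def IsY (φ ψ : Φ) (g : Au) : Prop :=
  g • ch φ 0 = φ ∧ g • ch φ 1 = ch ψ 0 ∧ g • ch φ 2 = ch ψ 1 ∧ g • ψ = ch ψ 2

theorem exists_Y (h : Cht φ x y) (h' : Cht ψ y z) : ∃ g ∈ F x z, IsY φ ψ g := by
  obtain ⟨c, hc⟩ := h.E
  obtain ⟨a0, a1, a2⟩ := h.child
  obtain ⟨b0, b1, b2⟩ := h'.child
  obtain ⟨g, hg, e⟩ := (Seq.cons a0 (.cons a1 (.cons a2 (.cons h' (.nil _))))).mtchF
    (Seq.cons h (.cons b0 (.cons b1 (.cons b2 (.nil _))))) rfl hc (h'.ec (h.ec hc))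
  exact ⟨g, hg, by simpa [IsY] using e⟩

theorem gen {c d : ZMod 2} (hx : EC c x) (hy : EC d y) (K : Subgroup Au)
    (hK : ∀ φ ψ a b e g, Cht φ a b → Cht ψ b e → x ≤ a → e ≤ y → g ∈ F a e → IsY φ ψ g → g ∈ K) :
    F x y ≤ K := by
  intro g hg
  rcases lt_or_ge y x with hxy | hxy
  · rw [show g = 1 from RelIso.ext fun z => hg.2 z ((lt_or_ge z x).imp id fun h => hxy.le.trans h)]
    exact K.one_mem
  let E : Finset Φ → Finset Φ → Prop := fun 𝒜 ℬ => ∃ k ∈ K ⊓ F x y, k • 𝒜 = ℬ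
  have Etrans : ∀ {𝒜 ℬ 𝒞}, E 𝒜 ℬ → E ℬ 𝒞 → E 𝒜 𝒞 := by
    rintro _ _ _ ⟨k, hk, rfl⟩ ⟨k', hk', rfl⟩
    exact ⟨k' * k, mul_mem hk' hk, mul_smul _ _ _⟩
  have Esymm : ∀ {𝒜 ℬ}, E 𝒜 ℬ → E ℬ 𝒜 := by
    rintro _ _ ⟨k, hk, rfl⟩
    exact ⟨k⁻¹, inv_mem hk, inv_smul_smul _ _⟩
  have Erefl : ∀ 𝒜, E 𝒜 𝒜 := fun _ => ⟨1, one_mem _, one_smul _ _⟩
  have s1 : ∀ 𝒜, Vx x y 𝒜 → ∀ (l : List Φ) φ a, Seq a (φ :: l) y → (∀ χ ∈ φ :: l, χ ∈ 𝒜) →
      ∀ ψ ∈ φ :: l, E (ex 𝒜 {φ}) (ex 𝒜 {ψ}) := by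
    intro 𝒜 hA l
    induction l with
    | nil => intro φ a _ _ ψ hψ; rw [List.mem_singleton.1 hψ]; exact Erefl _
    | cons φ' l ih =>
      intro φ a hs hm ψ hψ
      rcases List.mem_cons.1 hψ with rfl | hψ
      · exact Erefl _
      cases hs with | cons h1 hs =>
      refine Etrans ?_ (ih φ' _ hs (fun χ h => hm χ (List.mem_cons_of_mem _ h)) ψ hψ)
      cases hs with | cons h2 hs =>
      obtain ⟨k, hk, hY⟩ := exists_Y h1 h2
      have hφ := hm φ (by simp)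
      have hφ' := hm φ' (by simp)
      have ha : x ≤ a := h1.lo ▸ (hA.sub φ hφ z0).1
      refine ⟨k, ⟨hK _ _ _ _ _ k h1 h2 ha hs.le hk hY, hk.1, Sp.mono ha hs.le hk.2⟩,
        Finset.eq_of_subset_of_card_le (fun χ hχ => ?_) ?_⟩
      · obtain ⟨χ, hχ', rfl⟩ := Finset.mem_smul_finset.1 hχ
        simp only [mem_ex, Finset.mem_singleton, exists_eq_left] at hχ' ⊢
        rcases hχ' with ⟨h3, h4⟩ | ⟨i, rfl⟩
        · by_cases h5 : χ = φ'
          · exact Or.inr ⟨2, by rw [h5, hY.2.2.2]⟩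
          · suffices h : k • χ = χ from Or.inl (by rw [h]; exact ⟨h3, h5⟩)
            refine funext fun w => hk.2 _ ?_
            by_contra h6
            rw [not_or, not_lt, not_le] at h6
            rcases lt_or_ge (χ w) _ with h7 | h7
            · obtain ⟨v, e⟩ := h1.range.2 ⟨h6.1, h7⟩
              exact h4 (hA.dis _ hφ _ h3 _ _ e).symm
            · obtain ⟨v, e⟩ := h2.range.2 ⟨h7, h6.2⟩
              exact h5 (hA.dis _ hφ' _ h3 _ _ e).symm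
        · fin_cases i
          · refine Or.inl (show k • ch φ 0 ∈ 𝒜 ∧ ¬ k • ch φ 0 = φ' from ?_)
            rw [hY.1]
            exact ⟨hφ, fun e => absurd (h1.mem z0).2 (not_lt.2 (e ▸ (h2.mem z0).1))⟩
          · exact Or.inr ⟨0, hY.2.1.symm⟩
          · exact Or.inr ⟨1, hY.2.2.1.symm⟩
      · rw [Finset.card_smul_finset, hA.card_ex (by simpa), hA.card_ex (by simpa)]; simp
  have s2 : ∀ 𝒜, Vx x y 𝒜 → ∀ φ ∈ 𝒜, ∀ ψ ∈ 𝒜, E (ex 𝒜 {φ}) (ex 𝒜 {ψ}) := by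
    intro 𝒜 hA φ hφ ψ hψ
    obtain ⟨l, h1, -, rfl⟩ := hA.seq hxy
    rw [List.mem_toFinset] at hφ hψ
    cases l with
    | nil => simp at hφ
    | cons χ l =>
      have := s1 _ hA l χ x h1 fun _ h => List.mem_toFinset.2 h
      exact Etrans (Esymm (this φ hφ)) (this ψ hψ)
  let R : Finset Φ → Finset Φ → Prop := fun 𝒜 ℬ => ∃ φ ∈ 𝒜, ℬ = ex 𝒜 {φ}
  have r1 : ∀ 𝒜 ℬ, Vx x y 𝒜 → Relation.ReflTransGen R 𝒜 ℬ → Vx x y ℬ ∧ 𝒜.card ≤ ℬ.card := by
    intro 𝒜 ℬ hA h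
    induction h with
    | refl => exact ⟨hA, le_rfl⟩
    | tail _ h ih =>
      obtain ⟨φ, hφ, rfl⟩ := h
      exact ⟨ih.1.ex (by simpa), by rw [ih.1.card_ex (by simpa)]; omega⟩
  have r2 : ∀ 𝒜 ℬ, Vx x y 𝒜 → Relation.ReflTransGen R 𝒜 ℬ → ∀ ℬ', Relation.ReflTransGen R 𝒜 ℬ' →
      ℬ.card = ℬ'.card → E ℬ ℬ' := by
    intro 𝒜 ℬ hA h
    induction h with
    | refl =>
      intro ℬ' h' hc
      rcases h'.cases_tail with rfl | ⟨ℬ1, h1, φ, hφ, rfl⟩
      · exact Erefl _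
      · have := r1 _ _ hA h1
        rw [this.1.card_ex (by simpa), Finset.card_singleton] at hc
        omega
    | tail h0 h ih =>
      intro ℬ' h' hc
      obtain ⟨φ, hφ, rfl⟩ := h
      have h2 := r1 _ _ hA h0
      rw [h2.1.card_ex (by simpa), Finset.card_singleton] at hc
      rcases h'.cases_tail with rfl | ⟨ℬ1, h1, ψ, hψ, rfl⟩
      · omega
      · have h3 := r1 _ _ hA h1
        rw [h3.1.card_ex (by simpa), Finset.card_singleton] at hc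
        obtain ⟨k, hk, rfl⟩ := ih _ h1 (by omega)
        exact Etrans ⟨k, hk, by rw [smul_ex, Finset.smul_finset_singleton]⟩
          (s2 _ h3.1 _ (Finset.smul_mem_smul_finset hφ) _ hψ)
  have r3 : ∀ 𝒜 ℬ, Relation.ReflTransGen R 𝒜 ℬ → Relation.ReflTransGen R (g⁻¹ • 𝒜) (g⁻¹ • ℬ) :=
    fun 𝒜 ℬ h => h.lift _ (by
      rintro _ _ ⟨φ, hφ, rfl⟩
      exact ⟨_, Finset.smul_mem_smul_finset hφ, by rw [smul_ex, Finset.smul_finset_singleton]⟩)
  have r4 : ∀ N 𝒜, Vx x y 𝒜 → (∀ φ ∈ 𝒜, Gd N φ) →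
      ∃ 𝒰, Relation.ReflTransGen R 𝒜 𝒰 ∧ ∀ φ ∈ 𝒰, Std N φ := by
    intro N 𝒜 hA hG
    obtain ⟨K, hK⟩ := gd_bound x y N
    induction hn : K - 𝒜.card using Nat.strong_induction_on generalizing 𝒜 with
    | _ n ih =>
      by_cases h : ∀ φ ∈ 𝒜, Std N φ
      · exact ⟨𝒜, .refl, h⟩
      push Not at h
      obtain ⟨φ, hφ, h⟩ := h
      have hJ : {φ} ⊆ 𝒜 := by simpa using hφ
      have h4 := Vx.ex_gd hG hJ (by simpa using h)
      have h6 := hK _ (hA.ex hJ) h4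
      have h7 := hA.card_ex hJ
      rw [Finset.card_singleton] at h7
      obtain ⟨𝒰, h8, h9⟩ := ih _ (by omega) _ (hA.ex hJ) h4 rfl
      exact ⟨𝒰, .head ⟨φ, hφ, rfl⟩ h8, h9⟩
  obtain ⟨𝒜, hA⟩ := exists_vx hx hy
  obtain ⟨N, h1, h2⟩ := (hA.gd.and (hA.smulF hg).gd).exists
  obtain ⟨𝒰, h3, h4⟩ := r4 N _ hA h1
  obtain ⟨𝒰', h5, h6⟩ := r4 N _ (hA.smulF hg) h2
  have h7 := (r1 _ _ hA h3).1
  have h8 := (r1 _ _ (hA.smulF hg) h5).1
  obtain rfl : 𝒰 = 𝒰' := (h7.std_eq h8 h4 h6).antisymm (h8.std_eq h7 h6 h4)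
  obtain ⟨k, hk, e⟩ := r2 _ _ hA h3 _ (by simpa using r3 _ _ h5) (Finset.card_smul_finset _ _).symm
  have := h7.free (mul_mem hg.2 hk.2.2) (by rw [mul_smul, e, smul_inv_smul])
  rw [eq_inv_of_mul_eq_one_left this]
  exact K.inv_mem hk.1

end Pool.Agent.P.MP_267653_al
end

-- part Pool.Agent.P.MP_267653_al.Per
section

/-! Periodic regular automorphisms: the group `B`, its transitivity and finiteness properties. -/

set_option autoImplicit false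

namespace Pool.Agent.P.MP_267653_al

open Function Filter Pool.Agent.Lib.Brown

theorem glue_fam {H ι : Type} [Group H] (x y : ι → L) (s : ι → H →* Au)
    (hs : ∀ i a, s i a ∈ Sp (x i) (y i))
    (hd : ∀ i j z, x i ≤ z → z < y i → x j ≤ z → z < y j → i = j) :
    ∃ S : H →* Au, (∀ a i z, x i ≤ z → z < y i → S a z = s i a z) ∧
      ∀ a z, (∀ i, z < x i ∨ y i ≤ z) → S a z = z := by
  classical
  let f : H → L → L := fun a z => if h : ∃ i, x i ≤ z ∧ z < y i then s h.choose a z else z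
  have h1 : ∀ a i z, x i ≤ z → z < y i → f a z = s i a z := fun a i z h1 h2 => by
    have h : ∃ i, x i ≤ z ∧ z < y i := ⟨i, h1, h2⟩
    simp only [f, dif_pos h, hd _ _ z h.choose_spec.1 h.choose_spec.2 h1 h2]
  have h2 : ∀ a z, (¬ ∃ i, x i ≤ z ∧ z < y i) → f a z = z := fun a z h => dif_neg h
  have h3 : ∀ a b z, f a (f b z) = f (a * b) z := fun a b z => by
    by_cases h : ∃ i, x i ≤ z ∧ z < y i
    · obtain ⟨i, h4, h5⟩ := h
      have := Sp.maps (hs i b) h4 h5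
      rw [h1 b i z h4 h5, h1 a i _ this.1 this.2, h1 _ i z h4 h5, map_mul]; rfl
    · rw [h2 b z h, h2 a z h, h2 _ z h]
  have h4 : ∀ z, f 1 z = z := fun z => by
    by_cases h : ∃ i, x i ≤ z ∧ z < y i
    · obtain ⟨i, h4, h5⟩ := h
      rw [h1 1 i z h4 h5, map_one]; rfl
    · exact h2 1 z h
  have h5 : ∀ a, StrictMono (f a) := fun a z w hzw => by
    by_cases hz : ∃ i, x i ≤ z ∧ z < y i
    · obtain ⟨i, h6, h7⟩ := hz
      have h8 := Sp.maps (hs i a) h6 h7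
      rw [h1 a i z h6 h7]
      rcases lt_or_ge w (y i) with hw | hw
      · rw [h1 a i w (h6.trans hzw.le) hw]; exact (s i a).strictMono hzw
      by_cases hw' : ∃ j, x j ≤ w ∧ w < y j
      · obtain ⟨j, h9, h10⟩ := hw'
        rw [h1 a j w h9 h10]
        refine lt_of_lt_of_le ?_ (Sp.maps (hs j a) h9 h10).1
        by_contra h11
        obtain rfl := hd i j _ h8.1 h8.2 (not_lt.1 h11) (h8.2.trans (hw.trans_lt h10))
        exact absurd h10 (not_lt.2 hw)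
      · rw [h2 a w hw']; exact h8.2.trans_le hw
    · rw [h2 a z hz]
      by_cases hw' : ∃ j, x j ≤ w ∧ w < y j
      · obtain ⟨j, h9, h10⟩ := hw'
        rw [h1 a j w h9 h10]
        refine lt_of_lt_of_le ?_ (Sp.maps (hs j a) h9 h10).1
        by_contra h11
        exact hz ⟨j, not_lt.1 h11, hzw.trans h10⟩
      · rwa [h2 a w hw']
  refine ⟨MonoidHom.mk' (fun a => StrictMono.orderIsoOfSurjective (f a) (h5 a)
    fun z => ⟨f a⁻¹ z, by rw [h3, mul_inv_cancel, h4]⟩)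
    fun a b => RelIso.ext fun z => (h3 a b z).symm, h1, fun a z h => h2 a z ?_⟩
  rintro ⟨i, h6, h7⟩
  exact (h i).elim (not_lt.2 h6) (not_le.2 h7)

/-- automorphisms commuting with the translation -/
noncomputable def CL : Subgroup Au := Subgroup.centralizer {lam}

variable {g b : Au} {x y z w q : L} {c d : ZMod 2}

theorem mem_CL : g ∈ CL ↔ ∀ z, g (lam z) = lam (g z) := by
  rw [CL, Subgroup.mem_centralizer_singleton_iff]
  exact ⟨fun h z => congrArg (· z) h, fun h => RelIso.ext h⟩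

theorem CL.zpow (h : g ∈ CL) (j : ℤ) (z : L) : g ((lam ^ j) z) = (lam ^ j) (g z) :=
  congrArg (· z) ((show Commute g lam from Subgroup.mem_centralizer_singleton_iff.1 h).zpow_right j).eq

theorem CL.conj (h : g ∈ CL) (j : ℤ) : lam ^ j * g * (lam ^ j)⁻¹ = g :=
  RelIso.ext fun z => by simp [← CL.zpow h]

theorem CL.reg (h : g ∈ CL) (j : ℤ) : Reg g ((lam ^ j) z) ↔ Reg g z := by
  have : ∀ z (j : ℤ), Reg g z → Reg g ((lam ^ j) z) := fun z j h' => by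
    have := h'.zpow j
    rwa [CL.conj h] at this
  exact ⟨fun h' => by simpa using this _ (-j) h', this z j⟩

theorem CL.fix (h : g ∈ CL) (j : ℤ) : g ((lam ^ j) z) = (lam ^ j) z ↔ g z = z := by
  rw [CL.zpow h]; simp

theorem exists_fd (x z : L) : ∃ j : ℤ, x ≤ (lam ^ j) z ∧ (lam ^ j) z < lam x := by
  rcases le_or_gt x ((lam ^ (x.k - z.k)) z) with h | h
  · exact ⟨_, h, L.lt_iff.2 (Or.inl (by simp [lam_zpow_k, lam_apply]))⟩
  · refine ⟨1 + (x.k - z.k), (L.lt_iff.2 (Or.inl (by rw [lam_zpow_k]; omega))).le, ?_⟩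
    rw [zpow_one_add]; simpa using h

theorem per_ext (hg : g ∈ CL) (hb : b ∈ CL) (x : L) (h : ∀ z, x ≤ z → z < lam x → g z = b z) :
    g = b := RelIso.ext fun z => by
  obtain ⟨j, h1, h2⟩ := exists_fd x z
  simpa [CL.zpow hg, CL.zpow hb] using h _ h1 h2

theorem exists_per (x : L) : ∃ P : Sp x (lam x) →* Au,
    ∀ g, P g ∈ CL ∧ ∀ z, x ≤ z → z < lam x → P g z = g.1 z := by
  obtain ⟨S, h1, -⟩ := glue_fam (fun j : ℤ => (lam ^ j) x) (fun j => (lam ^ j) (lam x))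
    (fun j => (MulAut.conj (lam ^ j)).toMonoidHom.comp (Sp x (lam x)).subtype)
    (fun j g => Sp.conj g.2 _) (fun i j z h1 h2 h3 h4 => by
      have key : ∀ i j : ℤ, i < j → (lam ^ i) (lam x) ≤ (lam ^ j) x := fun i j h => by
        rcases (show i + 1 = j ∨ i + 1 < j by omega) with rfl | h
        · rw [zpow_add_one]; rfl
        · exact (L.lt_iff.2 (Or.inl (by simp only [lam_zpow_k, lam_apply]; omega))).le
      rcases lt_trichotomy i j with h | h | h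
      · exact absurd (h3.trans_lt h2) (not_lt.2 (key _ _ h))
      · exact h
      · exact absurd (h1.trans_lt h4) (not_lt.2 (key _ _ h)))
  refine ⟨S, fun g => ⟨mem_CL.2 fun z => ?_, fun z h2 h3 => by simpa using h1 g 0 z h2 h3⟩⟩
  obtain ⟨j, h2, h3⟩ := exists_fd x z
  obtain ⟨z, rfl⟩ := (lam ^ (-j)).surjective z
  simp only [zpow_neg, RelIso.apply_inv_self] at h2 h3
  have e : ∀ i : ℤ, S g ((lam ^ i) z) = (lam ^ i) (g.1 z) := fun i => by
    rw [h1 g i _ (by simpa using h2) (by simpa using h3)]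
    exact congrArg (fun w => (lam ^ i) (g.1 w)) (RelIso.inv_apply_self _ _)
  rw [e, ← RelIso.mul_apply lam, ← RelIso.mul_apply lam, ← zpow_one_add, e]

/-- the periodic regular group -/
noncomputable def B : Subgroup Au := RA ⊓ CL

theorem B.cl (h : g ∈ B) : g ∈ CL := h.2

theorem lam_CL : lam ∈ CL := mem_CL.2 fun _ => rfl

theorem EC.ev_fd (hx : EC c x) (h1 : x ≤ z) (h2 : z < y) : ∀ᶠ w in nb z, x ≤ w ∧ w < y :=
  (hx.ev_ge h1).and (ev_lt h2)

theorem exists_perB (hx : EC c x) : ∃ P : F x (lam x) →* B,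
    ∀ g z, x ≤ z → z < lam x → (P g).1 z = g.1 z := by
  obtain ⟨P, hP⟩ := exists_per x
  refine ⟨(P.comp (Subgroup.inclusion inf_le_right)).codRestrict B fun g => ⟨fun z => ?_,
    (hP _).1⟩, fun g => (hP _).2⟩
  obtain ⟨j, h1, h2⟩ := exists_fd x z
  exact (CL.reg (hP _).1 j).1 ((g.2.1 _).congr ((hx.ev_fd h1 h2).mono fun w h => (hP _).2 w h.1 h.2))

/-- pointwise stabilisers of intervals -/
def Fx (y z : L) : Subgroup Au where
  carrier := {g | ∀ w, y ≤ w → w < z → g w = w}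
  one_mem' _ _ _ := rfl
  mul_mem' ha hb w h1 h2 := by rw [RelIso.mul_apply, hb w h1 h2, ha w h1 h2]
  inv_mem' {g} ha w h1 h2 := by conv_lhs => rw [← ha w h1 h2]; simp

theorem Fx.conj (hg : g ∈ Fx y z) (h : Au) : h * g * h⁻¹ ∈ Fx (h y) (h z) := by
  intro w h1 h2
  obtain ⟨w, rfl⟩ := h.surjective w
  simp [hg w (by simpa using h1) (by simpa using h2)]

theorem Fx.out {a e : L} (hb : b ∈ CL) (h : b ∈ Fx e (lam a)) (h1 : x ≤ a) (h2 : e ≤ lam x)
    (h3 : x ≤ w) (h4 : w < lam x) (h5 : w < a ∨ e ≤ w) : b w = w := by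
  rcases h5 with h5 | h5
  · exact (CL.fix hb 1).1 (h _ (h2.trans (by simpa using h3)) (by simpa using h5))
  · exact h _ h5 (h4.trans_le (by simpa using h1))

theorem mk_small (hg : g ∈ RA) (hy : EC c y) (hz : EC d z) (h1 : y < z) (h2 : z ≤ lam y)
    (e1 : g z = z) (e2 : g (lam y) = lam y) :
    ∃ b ∈ B, b ∈ Fx y z ∧ ∀ w, z ≤ w → w ≤ lam y → b w = g w := by
  obtain ⟨f, hf, h3⟩ := cut hg hz hy.lam h2 e1 e2
  obtain ⟨P, hP⟩ := exists_perB hz
  let f' : F z (lam z) := ⟨f, hf.1, Sp.mono le_rfl (by simpa using h1.le) hf.2⟩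
  refine ⟨P f', (P f').2, fun w h4 h5 => (CL.fix (P f').2.2 1).1 ?_, fun w h4 h5 => ?_⟩
  · rw [zpow_one, hP _ _ (h2.trans (by simpa using h4)) (by simpa using h5)]
    exact hf.2 _ (Or.inr (by simpa using h4))
  · rw [hP _ _ h4 (h5.trans_lt (by simpa using h1)), h3 w h4 h5]

/-- proper arcs -/
structure Arc where
  y : L
  z : L
  hy : ∃ c, EC c y
  hz : ∃ c, EC c z
  lt : y < z
  lt' : z < lam y

noncomputable def B0 : Subgroup Au := Subgroup.closure {g | g ∈ B ∧ ∃ U : Arc, g ∈ Fx U.y U.z}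

theorem B0_le : B0 ≤ B := (Subgroup.closure_le _).2 fun _ h => h.1

theorem EC.max_ns {x' : L} (hx : NS x) (hx' : NS x') : NS (max x x') := by
  rcases le_total x x' with h | h <;> simp [h, hx, hx']

theorem trans_E {x' : L} (hx : EC c x) (hx' : EC c x') : ∃ h ∈ B0, h x = x' := by
  have h1 : ∀ {x x'}, EC c x → EC c x' → x < x' → x' < lam x → ∃ h ∈ B0, h x = x' := by
    intro x x' hx hx' h1 h2
    obtain ⟨y, hy, h3, h4⟩ := hx'.lam_inv.ns.dens (lam.symm_apply_lt.2 h2) 0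
    obtain ⟨z, hz, h5, h6⟩ := hy.ns.dens h4 0
    have h7 : x' < lam y := lam.symm_apply_lt.1 h3
    obtain ⟨g0, hg0, e0, -⟩ := key hx hx' hx.lam hx'.lam (lt_lam _) (lt_lam _)
    obtain ⟨g, hg, e1, e2, e3⟩ := ext2 hg0 hz hz hy.lam hy.lam hx hx h6 le_rfl (h1.trans h7)
      (e0 ▸ h6.trans h1) (e0 ▸ h7)
    obtain ⟨b, hb, h8, h9⟩ := mk_small hg hy hz h5 (h6.trans (h1.trans h7)).le e1 e2
    exact ⟨b, Subgroup.subset_closure ⟨hb, ⟨y, z, ⟨_, hy⟩, ⟨_, hz⟩, h5, h6.trans (h1.trans h7)⟩,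
      h8⟩, by rw [h9 x h6.le (h1.trans h7).le, e3 x le_rfl le_rfl, e0]⟩
  have h2 : ∀ {x}, EC c x → ∀ (n : ℕ) {x'}, EC c x' → x < x' → x' < (lam ^ (n+1)) x →
      ∃ h ∈ B0, h x = x' := by
    intro x hx n
    induction n with
    | zero => exact fun hx' h3 h4 => h1 hx hx' h3 (by simpa using h4)
    | succ n ih =>
      intro x' hx' h3 h4
      rcases lt_or_ge x' ((lam ^ (n+1)) x) with h5 | h5
      · exact ih hx' h3 h5
      obtain ⟨x'', hx'', h6, h7⟩ := (EC.max_ns hx'.lam_inv.ns hx.ns).dens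
        (y := (lam ^ (n+1)) x) (max_lt (lam.symm_apply_lt.2 (by rwa [pow_succ'] at h4))
          (L.lt_iff.2 (Or.inl (by simp [lam_pow_apply])))) c
      obtain ⟨k, hk, rfl⟩ := ih hx'' (lt_of_le_of_lt (le_max_right _ _) h6) h7
      obtain ⟨k', hk', rfl⟩ := h1 hx'' hx' (h7.trans_le h5)
        (lam.symm_apply_lt.1 (lt_of_le_of_lt (le_max_left _ _) h6))
      exact ⟨k' * k, mul_mem hk' hk, rfl⟩
  have h3 : ∀ {x x'}, EC c x → EC c x' → x < x' → ∃ h ∈ B0, h x = x' := fun {x x'} hx hx' h =>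
    h2 hx (x'.k - x.k).toNat hx' h (L.lt_iff.2 (Or.inl (by simp [lam_pow_apply]; omega)))
  rcases lt_trichotomy x x' with h | rfl | h
  · exact h3 hx hx' h
  · exact ⟨1, one_mem _, rfl⟩
  · obtain ⟨k, hk, rfl⟩ := h3 hx' hx h
    exact ⟨k⁻¹, inv_mem hk, by simp⟩

theorem periodize (hg : g ∈ RA) (hx : EC c x) (e : g (lam x) = lam (g x)) :
    ∃ b ∈ B, ∀ z, x ≤ z → z < lam x → b z = g z := by
  obtain ⟨h, hh, e1⟩ := trans_E hx (hx.ra hg)
  have hB := B0_le hh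
  obtain ⟨f, hf, h1⟩ := cut (mul_mem (inv_mem hB.1) hg) hx hx.lam (lt_lam x).le
    (by simp [← e1]) (by simp [e, ← e1, ← mem_CL.1 hB.2])
  obtain ⟨P, hP⟩ := exists_perB hx
  exact ⟨h * P ⟨f, hf⟩, mul_mem hB (P _).2, fun z h2 h3 => by
    simp [hP _ z h2 h3, h1 z h2 h3.le]⟩

theorem frag : B ≤ B0 := by
  intro g hg
  have hx := EC.st 0
  generalize st 0 = x at hx
  obtain ⟨h, hh, e1⟩ := trans_E hx (hx.ra hg.1)
  have hg' := mul_mem (inv_mem (B0_le hh)) hg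
  have e2 : (h⁻¹ * g) x = x := by simp [← e1]
  suffices h⁻¹ * g ∈ B0 by simpa using mul_mem hh this
  generalize h⁻¹ * g = g at hg' e2
  have e3 : g (lam x) = lam x := by rw [mem_CL.1 hg'.2, e2]
  obtain ⟨y, hy, h1, h2⟩ := hx.ns.dens (lt_lam x) 0
  obtain ⟨w, hw, h3, h4⟩ := (EC.max_ns hy.ns (hy.ra hg'.1).ns).dens
    (max_lt h2 (e3 ▸ g.strictMono h2)) 0
  rw [max_lt_iff] at h3
  obtain ⟨k, hk, e4, e5⟩ := key hy (hy.ra hg'.1) hw hw h3.1 h3.2
  obtain ⟨f, hf, e6, e7⟩ := glue_ra hg'.1 hk hy e4.symm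
  have h5 : lam⁻¹ w < x := lam.symm_apply_lt.2 h4
  obtain ⟨b, hb, h6, h7⟩ := mk_small hf hw.lam_inv hx h5 (by simpa using (h1.trans h3.1).le)
    (by rw [e6 x h1.le, e2]) (by simpa [e7 w h3.1.le] using e5)
  have hb0 : b ∈ B0 := Subgroup.subset_closure ⟨hb, ⟨_, x, ⟨_, hw.lam_inv⟩, ⟨_, hx⟩, h5,
    by simpa using h1.trans h3.1⟩, h6⟩
  suffices b⁻¹ * g ∈ B0 by simpa using mul_mem hb0 this
  refine Subgroup.subset_closure ⟨mul_mem (inv_mem hb) hg', ⟨x, y, ⟨_, hx⟩, ⟨_, hy⟩, h1, h2⟩,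
    fun z h8 h9 => ?_⟩
  rw [RelIso.mul_apply, ← e6 z h9.le, ← h7 z h8 (by simpa using (h9.trans h3.1).le)]
  simp

theorem arc_move (U V : Arc) : ∃ (W : Arc), ∃ b ∈ B, b ∈ Fx W.y W.z ∧
    Fx U.y U.z ≤ Fx W.y W.z ∧ ∀ a ∈ CL, a ∈ Fx U.y U.z → b * a * b⁻¹ ∈ Fx V.y V.z := by
  obtain ⟨y, z, ⟨c, hy⟩, ⟨d, hz⟩, h1, h2⟩ := U
  obtain ⟨y', z', ⟨c', hy'⟩, ⟨d', hz'⟩, h3, h4⟩ := V
  obtain ⟨m, hm, h5, h6⟩ := hy.ns.dens h1 0
  obtain ⟨j, h7, h8⟩ := exists_fd m z'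
  have hs := hz'.zpow j
  obtain ⟨w1, hw1, h9, h10⟩ := (EC.max_ns hy.ns hs.lam_inv.ns).dens
    (max_lt h5 (lam.symm_apply_lt.2 h8)) 0
  rw [max_lt_iff] at h9
  obtain ⟨w2, hw2, h11, h12⟩ := hw1.ns.dens h10 0
  obtain ⟨r, hr, h13, h14⟩ := hs.ns.dens (lt_min ((lam ^ j).strictMono h4)
    (lam.symm_apply_lt.1 h9.2)) d
  obtain ⟨r', hr', h15, h16⟩ := hr.ns.dens h14 (c + 1)
  rw [lt_min_iff] at h16
  obtain ⟨k, hk, e1, e2⟩ := key hz hr hy.lam hr' h2 h15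
  obtain ⟨g, hg, e3, e4, e5⟩ := ext2 hk hw2 hw2 hw1.lam hw1.lam hz hy.lam (h12.trans h6) h2.le
    (by simpa using h9.1) (e1 ▸ (h12.trans_le h7).trans h13) (e2 ▸ h16.2)
  have h17 : w2 < lam w1 := ((h12.trans h6).trans h2).trans (by simpa using h9.1)
  obtain ⟨b, hb, h18, h19⟩ := mk_small hg hw1 hw2 h11 h17.le e3 e4
  refine ⟨⟨w1, w2, ⟨_, hw1⟩, ⟨_, hw2⟩, h11, h17⟩, b, hb, h18,
    fun a ha w h20 h21 => ha w (h9.1.le.trans h20) (h21.trans (h12.trans h6)),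
    fun a ha ha' w h20 h21 => ?_⟩
  have hc := mul_mem (mul_mem (B.cl hb) ha) (inv_mem (B.cl hb))
  refine (CL.fix hc j).1 (Fx.conj ha' b _ ?_ ?_)
  · have : lam (b y) = r' := by
      rw [← mem_CL.1 hb.2, h19 _ (((h12.trans h6).trans h2).le) (by simpa using h9.1.le),
        e5 _ h2.le le_rfl, e2]
    have h22 := h16.1
    rw [← this, ← CL.zpow lam_CL, OrderIso.lt_iff_lt] at h22
    exact h22.le.trans ((lam ^ j).monotone h20)
  · rw [h19 z (h12.trans h6).le (h2.le.trans (by simpa using h9.1.le)), e5 _ le_rfl h2.le, e1]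
    exact ((lam ^ j).strictMono h21).trans h13

theorem commute_of_fix {a b : Au} (h : ∀ w, a w = w ∨ b w = w) : Commute a b :=
  RelIso.ext fun w => by
    simp only [RelIso.mul_apply]
    by_cases ha : a w = w
    · by_cases hb : b w = w
      · simp [ha, hb]
      · rw [ha, (h (b w)).resolve_right fun e => hb (b.injective e)]
    · rw [(h w).resolve_left ha, (h (a w)).resolve_left fun e => ha (a.injective e)]

theorem arc_comm (U : Arc) : ∃ V : Arc, ∀ a ∈ CL, a ∈ Fx U.y U.z → ∀ b ∈ CL, b ∈ Fx V.y V.z →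
    Commute a b := by
  obtain ⟨y, z, ⟨c, hy⟩, ⟨d, hz⟩, h1, h2⟩ := U
  obtain ⟨m, hm, h3, h4⟩ := hy.ns.dens h1 0
  obtain ⟨m', hm', h5, h6⟩ := hm.ns.dens h4 0
  refine ⟨⟨m', lam m, ⟨_, hm'⟩, ⟨_, hm.lam⟩, (h6.trans h2).trans (by simpa using h3),
    by simpa using h5⟩, fun a ha ha' b hb hb' => commute_of_fix fun w => ?_⟩
  obtain ⟨j, h7, h8⟩ := exists_fd m w
  rw [← CL.fix ha j, ← CL.fix hb j]
  rcases lt_or_ge ((lam ^ j) w) m' with h | h
  · exact Or.inl (ha' _ (h3.le.trans h7) (h.trans h6))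
  · exact Or.inr (hb' _ h h8)

theorem one_point {x' y' q' : L} (hx : EC c x) (hx' : EC c x') (hy : EC d y) (hy' : EC d y')
    (hq : q ∈ O) (hq' : q' ∈ O) (h1 : x < q) (h2 : q < y) (h3 : x' < q') (h4 : q' < y') :
    ∃ g ∈ RA, g x = x' ∧ g y = y' ∧ g q = q' := by
  obtain ⟨g, hg, rfl⟩ := O_trans hq hq'
  obtain ⟨a, ha, h5, h6⟩ := (EC.max_ns hx.ns (hx'.ra (inv_mem hg)).ns).dens
    (max_lt h1 (g.symm_apply_lt.2 h3)) 0
  obtain ⟨b, hb, h7, h8⟩ := (O_ns hq).dens (lt_min h2 (g.lt_symm_apply.2 h4)) 0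
  rw [max_lt_iff] at h5
  rw [lt_min_iff] at h8
  obtain ⟨f, hf, e1, e2, e3⟩ := ext2 hg hx hx' hy hy' ha hb h5.1 (h6.trans h7).le h8.1
    (g.symm_apply_lt.1 h5.2) (g.lt_symm_apply.1 h8.2)
  exact ⟨f, hf, e1, e2, e3 q h6.le h7.le⟩

theorem many_points {ι : Type} [LinearOrder ι] (s : Finset ι) (u v : ι → L)
    {x' : L} (hx : EC c x) (hx' : EC c x') : ∀ {y y' : L} {d : ZMod 2}, EC d y → EC d y' →
    x < y → x' < y' → StrictMonoOn u s → StrictMonoOn v s →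
    (∀ i ∈ s, u i ∈ O ∧ v i ∈ O ∧ x < u i ∧ u i < y ∧ x' < v i ∧ v i < y') →
    ∃ g ∈ RA, g x = x' ∧ g y = y' ∧ ∀ i ∈ s, g (u i) = v i := by
  induction s using Finset.induction_on_max with
  | empty =>
    intro y y' d hy hy' h1 h2 _ _ _
    obtain ⟨g, hg, e1, e2⟩ := key hx hx' hy hy' h1 h2
    exact ⟨g, hg, e1, e2, by simp⟩
  | insert i s hi ih =>
    intro y y' d hy hy' h1 h2 hu hv h
    have key : ∀ (u : ι → L) (x : L), NS x → StrictMonoOn u (insert i s : Finset ι) →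
        (∀ j ∈ s, u j ∈ O) → x < u i → ∃ z, EC 0 z ∧ x < z ∧ z < u i ∧ ∀ j ∈ s, u j < z := by
      intro u x hx hu hO h1
      obtain ⟨w, hw, h2, h3, h4⟩ : ∃ w, NS w ∧ x ≤ w ∧ w < u i ∧ ∀ j ∈ s, u j ≤ w := by
        rcases s.eq_empty_or_nonempty with rfl | hs
        · exact ⟨x, hx, le_rfl, h1, by simp⟩
        · obtain ⟨j, hj, h2⟩ := s.exists_max_image u hs
          exact ⟨max x (u j), EC.max_ns hx (O_ns (hO j hj)), le_max_left _ _,
            max_lt h1 (hu (by simp [hj]) (by simp) (hi j hj)),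
            fun k hk => (h2 k hk).trans (le_max_right _ _)⟩
      obtain ⟨z, hz, h5, h6⟩ := hw.dens h3 0
      exact ⟨z, hz, h2.trans_lt h5, h6, fun j hj => (h4 j hj).trans_lt h5⟩
    have h3 := h i (by simp)
    have h4 := fun j hj => h j (Finset.mem_insert_of_mem hj)
    obtain ⟨z, hz, h5, h6, h7⟩ := key u x hx.ns hu (fun j hj => (h4 j hj).1) h3.2.2.1
    obtain ⟨z', hz', h8, h9, h10⟩ := key v x' hx'.ns hv (fun j hj => (h4 j hj).2.1) h3.2.2.2.2.1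
    obtain ⟨g1, hg1, e1, e2, e3⟩ := ih hz hz' h5 h8 (hu.mono (by simp)) (hv.mono (by simp))
      fun j hj => ⟨(h4 j hj).1, (h4 j hj).2.1, (h4 j hj).2.2.1, h7 j hj, (h4 j hj).2.2.2.2.1,
        h10 j hj⟩
    obtain ⟨g2, hg2, e4, e5, e6⟩ := one_point hz hz' hy hy' h3.1 h3.2.1 h6 h3.2.2.2.1 h9
      h3.2.2.2.2.2
    obtain ⟨g, hg, e7, e8⟩ := glue_ra hg1 hg2 hz (e2.trans e4.symm)
    refine ⟨g, hg, by rw [e7 x h5.le, e1], by rw [e8 y (h6.trans h3.2.2.2.1).le, e5], fun j hj => ?_⟩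
    rcases Finset.mem_insert.1 hj with rfl | hj
    · rw [e8 _ h6.le, e6]
    · rw [e7 _ (h7 j hj).le, e3 j hj]

/-- the special orbit modulo the translation -/
def X : Type := {q : L // q ∈ O ∧ q.k = 0}

noncomputable instance : LinearOrder X := Subtype.instLinearOrder _

theorem X.mem (q : X) : st 0 < q.1 ∧ q.1 < st 1 :=
  ⟨lt_of_le_of_ne (st_le.2 q.2.2.ge) fun e => (EC.st 0).not_O (e ▸ q.2.1),
    lt_st.2 (by rw [q.2.2]; decide)⟩

instance : Nonempty X := ⟨⟨_, O_pt 0, rfl⟩⟩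

instance : NoMaxOrder X := ⟨fun q => by
  obtain ⟨q', h1, h2, h3⟩ := O_dens (O_ns q.2.1) q.mem.2
  have := lt_st.1 h3
  have := st_le.1 (q.mem.1.trans h2).le
  exact ⟨⟨q', h1, by omega⟩, h2⟩⟩

theorem lam_st (k : ℤ) : lam (st k) = st (k+1) := by
  refine L.ext rfl ?_
  show Lam z0 = z0
  conv_lhs => rw [← cons_z0, Lam0, Psi_fix (a := 0) (by decide) cons_z0.symm]
  simp

theorem X_trans (j : ℕ) : ∃ X0 : Finset X, ∀ M : Finset X, M.card ≤ j →
    ∃ b ∈ B, ∀ q ∈ M, ∃ q' ∈ X0, b q.1 = q'.1 := by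
  classical
  obtain ⟨X0, hX⟩ := Infinite.exists_subset_card_eq X j
  refine ⟨X0, fun M hM => ?_⟩
  let f : X → X := fun q => if h : q ∈ M then
    X0.orderEmbOfCardLe (hM.trans hX.ge) ((M.orderIsoOfFin rfl).symm ⟨q, h⟩) else q
  have h01 : st 0 < st 1 := lt_st.2 (by simp)
  obtain ⟨g, hg, e1, e2, e3⟩ := many_points M Subtype.val (fun q => (f q).1) (EC.st 0) (EC.st 0)
    (EC.st 1) (EC.st 1) h01 h01 (fun _ _ _ _ h => h)
    (fun a (ha : a ∈ M) b (hb : b ∈ M) h => by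
      show f a < f b
      simpa [f, ha, hb] using h)
    fun q _ => ⟨q.2.1, (f q).2.1, q.mem.1, q.mem.2, (f q).mem.1, (f q).mem.2⟩
  obtain ⟨b, hb, h⟩ := periodize hg (EC.st 0) (by rw [e1, lam_st, zero_add, e2])
  exact ⟨b, hb, fun q hq => ⟨f q, by simp [f, hq, Finset.orderEmbOfCardLe_mem], by
    rw [h _ q.mem.1.le (by simpa [lam_st] using q.mem.2), e3 q hq]⟩⟩

theorem exists_t (M : Finset X) : ∃ t ∈ B, ∀ q ∈ M, t q.1 = lam q.1 := by
  obtain ⟨w, hw, h1, h2⟩ : ∃ w, NS w ∧ w < st 1 ∧ ∀ q ∈ M, q.1 ≤ w := by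
    rcases M.eq_empty_or_nonempty with rfl | hs
    · exact ⟨_, (EC.st 0).ns, lt_st.2 (by simp), by simp⟩
    · exact ⟨(M.max' hs).1, O_ns (M.max' hs).2.1, (M.max' hs).mem.2, fun q hq => M.le_max' q hq⟩
  obtain ⟨x, hx, h3, h4⟩ := hw.dens h1 0
  obtain ⟨g, hg, e1, e2, e3⟩ := many_points M Subtype.val (fun q => lam q.1) (EC.st 0) hx
    (EC.st 1) hx.lam (lt_st.2 (by simp)) (lt_lam x) (fun _ _ _ _ h => h)
    (fun a _ b _ h => lam.strictMono h)
    fun q hq => ⟨q.2.1, (O_lam q.2.1).1, q.mem.1, q.mem.2,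
      h4.trans_le (st_le.2 (by simp [lam_apply, q.2.2])), lam.strictMono ((h2 q hq).trans_lt h3)⟩
  obtain ⟨b, hb, h⟩ := periodize hg (EC.st 0) (by rw [e1, lam_st, zero_add, e2])
  exact ⟨b, hb, fun q hq => by rw [h _ q.mem.1.le (by simpa [lam_st] using q.mem.2), e3 q hq]⟩

theorem fn_FJ (m : ℕ) (𝒥 : List (L × L)) (hJ : ∀ J ∈ 𝒥, (∃ c, EC c J.1) ∧ ∃ c, EC c J.2) :
    ∀ {x y : L}, (∃ c, EC c x) → (∃ c, EC c y) → ∀ K : Subgroup Au,
      (∀ g, g ∈ K ↔ g ∈ F x y ∧ ∀ J ∈ 𝒥, g ∈ Fx J.1 J.2) → Fn K m := by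
  induction 𝒥 with
  | nil =>
    rintro x y ⟨c, hx⟩ ⟨d, hy⟩ K hK
    rw [show K = F x y from Subgroup.ext (by simpa using hK)]
    exact fn_F hx hy m
  | cons J 𝒥 ih =>
    intro x y hx hy K hK
    obtain ⟨a, b⟩ := J
    obtain ⟨⟨c, ha⟩, hb⟩ := hJ (a, b) (by simp)
    replace ih := @ih fun J h => hJ J (by simp [h])
    simp only [List.mem_cons, forall_eq_or_imp] at hK
    rcases le_or_gt b a with hab | hab
    · exact ih hx hy K fun g => (hK g).trans (and_congr_right fun _ => and_iff_right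
        fun w h1 h2 => absurd (h1.trans_lt h2) (not_lt.2 hab))
    let K1 := F x (min a y) ⊓ ⨅ J ∈ 𝒥, Fx J.1 J.2
    let K2 := F (max b x) y ⊓ ⨅ J ∈ 𝒥, Fx J.1 J.2
    have h1 : Fn K1 m := ih (y := min a y) hx
      (by rcases le_total a y with h | h <;> simp only [h, hy, min_eq_left, min_eq_right]
          exact ⟨c, ha⟩) K1 (by simp [K1])
    have h2 : Fn K2 m := ih (x := max b x)
      (by rcases le_total b x with h | h <;> simp only [h, hx, max_eq_left, max_eq_right]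
          exact hb) hy K2 (by simp [K2])
    have f1 : ∀ g : K1, ∀ w, a ≤ w → g.1 w = w := fun g w h =>
      g.2.1.2 w (Or.inr ((min_le_left _ _).trans h))
    have f2 : ∀ g : K2, ∀ w, w < b → g.1 w = w := fun g w h =>
      g.2.1.2 w (Or.inl (h.trans_le (le_max_left _ _)))
    let φ := K1.subtype.noncommCoprod K2.subtype fun g h => commute_of_fix fun w =>
      (le_or_gt a w).imp (f1 g w) fun h' => f2 h w (h'.trans hab)
    have hφ : Injective φ := (injective_iff_map_eq_one φ).2 fun ⟨g, h⟩ e => by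
      have e1 : g.1 = 1 := RelIso.ext fun w => (le_or_gt a w).elim (f1 g w) fun h' => by
        have := congrArg (· w) e
        simpa [φ, f2 h w (h'.trans hab)] using this
      exact Prod.ext (Subtype.ext e1) (Subtype.ext (by simpa [φ, e1] using e))
    refine (h1.prod h2).equiv ((MonoidHom.ofInjective hφ).trans (MulEquiv.subgroupCongr ?_))
    ext g
    rw [hK]
    constructor
    · rintro ⟨⟨g, h⟩, rfl⟩
      have g2 := (Subgroup.mem_inf.1 g.2).2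
      have g3 := (Subgroup.mem_inf.1 h.2).2
      simp only [Subgroup.mem_iInf] at g2 g3
      refine ⟨mul_mem ⟨g.2.1.1, Sp.mono le_rfl (min_le_right _ _) g.2.1.2⟩
        ⟨h.2.1.1, Sp.mono (le_max_right _ _) le_rfl h.2.1.2⟩, fun w h3 h4 => ?_,
        fun J hJ => mul_mem (g2 J hJ) (g3 J hJ)⟩
      show g.1 (h.1 w) = w
      rw [f2 h w h4, f1 g w h3]
    · rintro ⟨h3, h4, h5⟩
      have e := h4 a le_rfl hab
      obtain ⟨g1, hg1, e1, e2⟩ := glue_ra h3.1 (one_mem RA) ha e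
      obtain ⟨g2, hg2, e3, e4⟩ := glue_ra (one_mem RA) h3.1 ha e.symm
      have e5 : ∀ w, g w = w → g1 w = w := fun w h =>
        (le_total w a).elim (fun h' => (e1 w h').trans h) (e2 w)
      have e6 : ∀ w, g w = w → g2 w = w := fun w h =>
        (le_total w a).elim (e3 w) fun h' => (e4 w h').trans h
      refine ⟨(⟨g1, Subgroup.mem_inf.2 ⟨⟨hg1, fun w h => ?_⟩, ?_⟩⟩,
        ⟨g2, Subgroup.mem_inf.2 ⟨⟨hg2, fun w h => ?_⟩, ?_⟩⟩), RelIso.ext fun w => ?_⟩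
      · rcases h with h | h
        · exact e5 w (h3.2 w (Or.inl h))
        · exact (min_le_iff.1 h).elim (e2 w) fun h => e5 w (h3.2 w (Or.inr h))
      · simp only [Subgroup.mem_iInf]
        exact fun J hJ w h6 h7 => e5 w (h5 J hJ w h6 h7)
      · rcases h with h | h
        · rcases lt_max_iff.1 h with h | h
          · exact (le_total w a).elim (e3 w) fun h' => e6 w (h4 w h' h)
          · exact e6 w (h3.2 w (Or.inl h))
        · exact e6 w (h3.2 w (Or.inr h))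
      · simp only [Subgroup.mem_iInf]
        exact fun J hJ w h6 h7 => e6 w (h5 J hJ w h6 h7)
      · show g1 (g2 w) = g w
        rcases le_total w a with h | h
        · rw [e3 w h]; exact e1 w h
        · rw [e4 w h]; exact e2 _ (e ▸ g.monotone h)

end Pool.Agent.P.MP_267653_al
end

-- part Pool.Agent.P.MP_267653_al.BM
section

/-! Finiteness properties of `B` and of its stabilisers of finite sets of special points. -/

set_option autoImplicit false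

namespace Pool.Agent.P.MP_267653_al

open Function Filter Pool.Agent.Lib.Brown

variable {g b : Au} {x y z w q : L} {c d : ZMod 2}

theorem fn_cones (m : ℕ) (𝒜 : Finset Ad) (hne : 𝒜.Nonempty) (h0 : ∀ a ∈ 𝒜, a.1 = 0)
    (K : Subgroup Au) (hK : ∀ g, g ∈ K ↔ g ∈ B ∧ ∀ a ∈ 𝒜, ∀ v, g (cm a v) = cm a v) :
    Fn K m := by
  choose hi hhi using cht_cm
  obtain ⟨a0, ha0⟩ := hne
  have hx : EC (par a0) (cm a0 z0) := ⟨_, rfl, rfl⟩
  have hk : (cm a0 z0).k = 0 := h0 a0 ha0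
  obtain ⟨P, hP⟩ := exists_perB hx
  let K0 := F (cm a0 z0) (lam (cm a0 z0)) ⊓ ⨅ a ∈ 𝒜,
    (Fx (cm a z0) (hi a) ⊓ Fx (lam (cm a z0)) (lam (hi a)))
  have h1 : Fn K0 m := fn_FJ m (𝒜.toList.flatMap fun a =>
    [(cm a z0, hi a), (lam (cm a z0), lam (hi a))]) (by
      simp only [List.mem_flatMap, List.mem_cons, List.not_mem_nil, or_false]
      have : ∀ a, EC (par a) (cm a z0) := fun a => ⟨_, rfl, rfl⟩
      rintro _ ⟨a, -, rfl | rfl⟩
      · exact ⟨⟨_, this a⟩, _, (hhi a).ec (this a)⟩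
      · exact ⟨⟨_, (this a).lam⟩, _, ((hhi a).ec (this a)).lam⟩) ⟨_, hx⟩ ⟨_, hx.lam⟩ K0 (by
      intro g
      simp only [K0, Subgroup.mem_inf, Subgroup.mem_iInf, List.mem_flatMap, List.mem_cons,
        List.not_mem_nil, or_false, Finset.mem_toList]
      refine and_congr_right fun _ => ⟨?_, fun h a ha => ⟨h _ ⟨a, ha, Or.inl rfl⟩,
        h _ ⟨a, ha, Or.inr rfl⟩⟩⟩
      rintro h _ ⟨a, ha, rfl | rfl⟩
      exacts [(h a ha).1, (h a ha).2])
  let φ : K0 →* Au := B.subtype.comp (P.comp (Subgroup.inclusion inf_le_left))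
  have hφ : Injective φ := (injective_iff_map_eq_one φ).2 fun g e => Subtype.ext <|
    RelIso.ext fun z => by
      by_cases h : z < cm a0 z0 ∨ lam (cm a0 z0) ≤ z
      · exact g.2.1.2 z h
      · rw [not_or, not_lt, not_le] at h
        exact (hP _ z h.1 h.2).symm.trans (congrArg (· z) e)
  refine h1.equiv ((MonoidHom.ofInjective hφ).trans (MulEquiv.subgroupCongr ?_))
  ext g
  rw [hK]
  constructor
  · rintro ⟨g, rfl⟩
    have g2 := (Subgroup.mem_inf.1 g.2).2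
    simp only [Subgroup.mem_iInf, Subgroup.mem_inf] at g2
    refine ⟨(P _).2, fun a ha v => ?_⟩
    have hv : (cm a v).k = 0 := h0 a ha
    rcases le_or_gt (cm a0 z0) (cm a v) with h | h
    · exact (hP _ _ h (L.lt_iff.2 (Or.inl (by simp [lam_apply, hk, hv])))).trans
        ((g2 a ha).1 _ ((hhi a).mem v).1 ((hhi a).mem v).2)
    · refine (CL.fix (B.cl (P _).2) 1).1 ((hP _ _ (L.lt_iff.2 (Or.inl (by
        simp [lam_apply, hk, hv]))).le (by simpa using h)).trans ((g2 a ha).2 _ ?_ ?_))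
      · simpa using ((hhi a).mem v).1
      · simpa using ((hhi a).mem v).2
  · rintro ⟨h2, h3⟩
    obtain ⟨f, hf, h4⟩ := cut h2.1 hx hx.lam (lt_lam _).le (h3 a0 ha0 _)
      (by rw [mem_CL.1 (B.cl h2), h3 a0 ha0])
    have h5 : ∀ w, g w = w → f w = w := fun w h => by
      by_cases h' : w < cm a0 z0 ∨ lam (cm a0 z0) ≤ w
      · exact hf.2 w h'
      · rw [not_or, not_lt, not_le] at h'
        rw [h4 w h'.1 h'.2.le, h]
    refine ⟨⟨f, Subgroup.mem_inf.2 ⟨hf, ?_⟩⟩, per_ext (B.cl (P _).2) (B.cl h2) _ fun z h6 h7 =>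
      (hP _ z h6 h7).trans (h4 z h6 h7.le)⟩
    simp only [Subgroup.mem_iInf, Subgroup.mem_inf]
    refine fun a ha => ⟨fun w h6 h7 => h5 w ?_, fun w h6 h7 => h5 w ?_⟩
    · obtain ⟨v, rfl⟩ := (hhi a).range.2 ⟨h6, h7⟩
      exact h3 a ha v
    · obtain ⟨w, rfl⟩ := lam.surjective w
      obtain ⟨v, rfl⟩ := (hhi a).range.2 ⟨by simpa using h6, by simpa using h7⟩
      rw [mem_CL.1 (B.cl h2), h3 a ha]

/-- stabilisers of finite sets of special points of the circle -/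
noncomputable def BM (M : Finset X) : Subgroup Au where
  carrier := {g | g ∈ B ∧ ∀ q ∈ M, ∃ j : ℤ, g q.1 = (lam ^ j) q.1}
  one_mem' := ⟨one_mem _, fun _ _ => ⟨0, rfl⟩⟩
  mul_mem' {a b} ha hb := ⟨mul_mem ha.1 hb.1, fun q hq => by
    obtain ⟨i, hi⟩ := ha.2 q hq
    obtain ⟨j, hj⟩ := hb.2 q hq
    exact ⟨j + i, by rw [RelIso.mul_apply, hj, CL.zpow (B.cl ha.1), hi, zpow_add]; rfl⟩⟩
  inv_mem' {a} ha := ⟨inv_mem ha.1, fun q hq => by
    obtain ⟨i, hi⟩ := ha.2 q hq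
    refine ⟨-i, a.injective ?_⟩
    rw [CL.zpow (B.cl ha.1), hi]; simp⟩

theorem same_j (hg : g ∈ CL) {q' : L} (h : q.k = q'.k) {i j : ℤ} (h1 : g q = (lam ^ i) q)
    (h2 : g q' = (lam ^ j) q') : i = j := by
  wlog hq : q ≤ q' generalizing q q' i j
  · exact (this h.symm h2 h1 (le_of_not_ge hq)).symm
  have h3 := L.k_mono (g.monotone hq)
  have h4 := g.strictMono (L.lt_iff.2 (Or.inl (by simp [lam_apply, h])) : q' < lam q)
  rw [mem_CL.1 hg, h1, h2] at h4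
  have h5 := L.k_mono h4.le
  simp only [h1, h2, lam_zpow_k, lam_apply] at h3 h5
  by_contra hne
  obtain rfl : j = 1 + i := by omega
  rw [zpow_one_add, RelIso.mul_apply, OrderIso.lt_iff_lt, OrderIso.lt_iff_lt] at h4
  exact absurd hq (not_le.2 h4)

theorem fn_BM_ne {m : ℕ} (hm : 1 ≤ m) (M : Finset X) (hne : M.Nonempty) : Fn (BM M) m := by
  classical
  obtain ⟨q0, hq0⟩ := hne
  obtain ⟨t, ht, ht'⟩ := exists_t M
  have hχ : ∀ g : BM M, ∀ q ∈ M, g.1 q.1 = (lam ^ (g.1 q0.1).k) q.1 := fun g q hq => by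
    obtain ⟨i, hi⟩ := g.2.2 q0 hq0
    obtain ⟨j, hj⟩ := g.2.2 q hq
    rw [hj, hi, lam_zpow_k, q0.2.2, zero_add,
      same_j (B.cl g.2.1) (q0.2.2.trans q.2.2.symm) hi hj]
  obtain ⟨n, hn⟩ := eventually_atTop.1 ((eventually_all_finset M).2 fun q hq =>
    (ev_at q.2.1 0).and (((ht.1 q.1).at q.2.1).2.and (O_lam q.2.1).2))
  let A : ℕ → Subgroup (BM M) := fun n =>
    { carrier := {g | ∀ q ∈ M, ∀ v, g.1 (cm (ad q.1 n) v) = cm (ad q.1 n) v}
      one_mem' := fun _ _ _ => rfl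
      mul_mem' := fun {a b} ha hb q hq v => by
        show a.1 (b.1 _) = _
        rw [hb q hq, ha q hq]
      inv_mem' := fun {a} ha q hq v => a.1.injective (by
        rw [ha q hq]; exact RelIso.apply_inv_self _ _) }
  let t' : BM M := ⟨t, ht, fun q hq => ⟨1, by simpa using ht' q hq⟩⟩
  have hc : ∀ l, n ≤ l → ∀ a ∈ A (l+1), t' * a * t'⁻¹ ∈ A l := by
    intro l hl a ha q hq v
    refine (CL.fix (B.cl (t' * a * t'⁻¹).2.1) 1).1 ?_
    rw [zpow_one, (hn l hl q hq).2.2, ← ht' q hq, ← (hn (l+1) (by omega) q hq).2.1]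
    show t (a.1 (t⁻¹ (t _))) = _
    rw [RelIso.inv_apply_self, ha q hq]
  have hle : A n ≤ A (n+1) := fun a ha q hq v => by
    rw [(hn n le_rfl q hq).1.1.succ.ad_eq, cm_ex, ha q hq]
  let D : Asc (BM M) :=
    { χ := fun g => (g.1 q0.1).k
      t := t'
      A := A n
      χ_mul := fun a b => by
        show (a.1 (b.1 q0.1)).k = _
        rw [hχ b q0 hq0, CL.zpow (B.cl a.2.1), lam_zpow_k, lam_zpow_k, q0.2.2, zero_add]
      χ_t := by simp [t', ht' q0 hq0, lam_apply, q0.2.2]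
      χ_A := fun a ha => by
        rw [(hn n le_rfl q0 hq0).1.1.2, ha q0 hq0, ← (hn n le_rfl q0 hq0).1.1.2, q0.2.2]
      conj := fun a ha => hc n le_rfl a (hle ha)
      exh := fun g hg => by
        obtain ⟨l, h1, h2⟩ := ((eventually_ge_atTop n).and ((eventually_all_finset M).2
          fun q hq => ((g.2.1.1 q.1).at q.2.1).2)).exists
        obtain ⟨i, rfl⟩ := Nat.exists_eq_add_of_le h1
        have h3 : g ∈ A (n + i) := fun q hq v => by
          rw [h2 q hq, hχ g q hq, hg]; rfl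
        refine ⟨i, ?_⟩
        clear h1 h2 hg
        induction i generalizing g with
        | zero => simpa using h3
        | succ i ih =>
          convert ih _ (hc (n + i) (by omega) g h3) using 1
          rw [pow_succ]; group }
  refine D.fn_self hm (Fn.equiv (Subgroup.equivMapOfInjective (A n) (BM M).subtype
    Subtype.val_injective).symm (fn_cones m (M.image fun q => ad q.1 n)
      (Finset.image_nonempty.2 ⟨q0, hq0⟩) ?_ _ fun g => ?_))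
  · simp only [Finset.mem_image]
    rintro _ ⟨q, hq, rfl⟩
    exact (congrArg L.k (hn n le_rfl q hq).1.1.2).symm.trans q.2.2
  · simp only [Finset.mem_image, forall_exists_index, and_imp, forall_apply_eq_imp_iff₂]
    refine ⟨by rintro ⟨g, h, rfl⟩; exact ⟨g.2.1, h⟩, fun h => ⟨⟨g, h.1, fun q hq => ⟨0, ?_⟩⟩, h.2, rfl⟩⟩
    rw [(hn n le_rfl q hq).1.1.2, h.2 q hq]; rfl

/-- normalisation into the zero block -/
noncomputable def nrm (z : L) : L := (lam ^ (-z.k)) z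

theorem nrm_k (z : L) : (nrm z).k = 0 := by rw [nrm, lam_zpow_k, add_neg_cancel]

theorem nrm_zpow (j : ℤ) (z : L) : nrm ((lam ^ j) z) = nrm z := by
  rw [nrm, nrm, lam_zpow_k, ← RelIso.mul_apply, ← zpow_add]; congr 2; ring

theorem nrm_eq (hq : q.k = 0) : nrm z = q ↔ ∃ j : ℤ, z = (lam ^ j) q :=
  ⟨fun h => ⟨z.k, by simp [← h, nrm]⟩, by rintro ⟨j, rfl⟩; rw [nrm_zpow, nrm, hq]; rfl⟩

/-- periodic automorphisms preserving the special orbit -/
noncomputable def CO : Subgroup Au where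
  carrier := {g | g ∈ CL ∧ ∀ z, g z ∈ O ↔ z ∈ O}
  one_mem' := ⟨one_mem _, fun _ => Iff.rfl⟩
  mul_mem' ha hb := ⟨mul_mem ha.1 hb.1, fun z => (ha.2 _).trans (hb.2 z)⟩
  inv_mem' {a} ha := ⟨inv_mem ha.1, fun z => by simpa using (ha.2 (a⁻¹ z)).symm⟩

/-- the action on the special orbit of the circle -/
@[reducible] noncomputable def actX (K : Subgroup Au) (hK : K ≤ CO) : MulAction K X where
  smul g q := ⟨nrm (g.1 q.1), O_zpow (((hK g.2).2 _).2 q.2.1) _, nrm_k _⟩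
  one_smul q := Subtype.ext ((nrm_eq q.2.2).2 ⟨0, rfl⟩)
  mul_smul g h q := Subtype.ext (by
    show nrm (g.1 (h.1 q.1)) = nrm (g.1 ((lam ^ _) _))
    rw [CL.zpow (hK g.2).1, nrm_zpow])

theorem B_le_CO : B ≤ CO := fun g hg => ⟨hg.2, fun z => ⟨fun h => by
  simpa using ((inv_mem hg.1 : g⁻¹ ∈ RA) (g z)).at h |>.1, fun h => ((hg.1 z).at h).1⟩⟩

theorem fn_BM {m : ℕ} (hm : 1 ≤ m) (M : Finset X) : Fn (BM M) m := by
  classical
  rcases M.eq_empty_or_nonempty with rfl | hne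
  swap
  · exact fn_BM_ne hm M hne
  rw [show BM ∅ = B from Subgroup.ext fun g => ⟨fun h => h.1, fun h => ⟨h, by simp⟩⟩]
  let _ := actX B B_le_CO
  obtain ⟨X0, hX0⟩ := X_trans (m + 2)
  obtain ⟨q0⟩ : Nonempty X := inferInstance
  refine brown (V := X) (fun _ _ => True) Set.univ (fun _ _ _ => trivial) (fun _ _ _ _ => trivial)
    hm (conn_cone (v := q0) (Set.mem_univ _) (fun _ _ => trivial) _) X0 (fun l _ hl => ?_)
    fun l hl _ => ?_
  · obtain ⟨b, hb, h⟩ := hX0 l.toFinset ((List.toFinset_card_le l).trans hl)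
    refine ⟨⟨b, hb⟩, fun q hq => ?_⟩
    obtain ⟨q', h1, h2⟩ := h q (List.mem_toFinset.2 hq)
    rwa [show (⟨b, hb⟩ : B) • q = q' from Subtype.ext ((nrm_eq q'.2.2).2 ⟨0, h2⟩)]
  · refine Fn.equiv (Subgroup.equivMapOfInjective _ B.subtype Subtype.val_injective).symm ?_
    rw [show (MulAction.stabilizer B l).map B.subtype = BM l.toFinset from ?_]
    · exact fn_BM_ne hm _ (by simpa [List.toFinset_nonempty_iff] using hl)
    ext g
    constructor
    · rintro ⟨g, h, rfl⟩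
      exact ⟨g.2, fun q hq => (nrm_eq q.2.2).1 (congrArg Subtype.val
        (mem_stab_list.1 h q (List.mem_toFinset.1 hq)))⟩
    · exact fun h => ⟨⟨g, h.1⟩, mem_stab_list.2 fun q hq => Subtype.ext ((nrm_eq q.2.2).2
        (h.2 q (List.mem_toFinset.2 hq))), rfl⟩

end Pool.Agent.P.MP_267653_al
end

-- part Pool.Agent.P.MP_267653_al.Grp
section

/-! The finite germ extension `G`. -/

set_option autoImplicit false

namespace Pool.Agent.P.MP_267653_al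

open Function Filter Pool.Agent.Lib.Brown

def w0 : L := ⟨0, cons 2 z0⟩

/-- the zero block without its middle cone -/
def Z (z : L) : Prop := z.k = 0 ∧ z.s 0 ≠ 1

/-- parametrisation of the neighbourhoods of special points -/
noncomputable def gm (q : L) (n : ℕ) (z : L) : L := cm (ad q n) (Lam^[n] z.s)

variable {g h : Au} {x y z w q : L} {n : ℕ}

theorem mem_w0 : w0 ≤ z ∧ z < st 1 ↔ z.k = 0 ∧ z.s 0 = 2 := by
  obtain ⟨k, y⟩ := z
  obtain ⟨a, y, rfl⟩ := exists_cons y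
  have := z0_le y
  rw [← not_lt, lt_st, L.lt_iff]
  rcases fin3 a with rfl | rfl | rfl <;> simp [w0, this] <;> omega

theorem Z.sp (hz : Z z) (hg : g ∈ Sp w0 (st 1)) : Z (g z) := by
  by_cases h : z < w0 ∨ st 1 ≤ z
  · rwa [hg z h]
  · rw [not_or, not_lt, not_le] at h
    have := mem_w0.1 (Sp.maps hg h.1 h.2)
    exact ⟨this.1, by rw [this.2]; decide⟩

theorem gm_lt (h : z.k = w.k) : gm q n z < gm q n w ↔ z < w := by
  rw [gm, gm, cm_lt, (Lam_mono.iterate n).lt_iff_lt, L.lt_iff]; simp [h]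

theorem gm_inj (h : z.k = w.k) (e : gm q n z = gm q n w) : z = w :=
  L.ext h ((Lam_mono.iterate n).injective ((cm_inj _).1 e))

theorem gm_exit {n' : ℕ} (h : At q n (ad q n)) (hn : n < n') (hz : Z z) (v : C) :
    gm q n z ≠ cm (ad q n') v := by
  intro e
  obtain ⟨d, rfl⟩ := Nat.exists_eq_add_of_le (show n + 1 ≤ n' from hn)
  obtain ⟨u, -, h1⟩ := h.succ.add d
  obtain ⟨y, hy⟩ := Lam_surj.iterate n (app u v)
  rw [h1.ad_eq, cm_ex, cm_ex, gm, cm_inj, ← hy, ← Lam_iter_one] at e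
  exact hz.2 (congrFun ((Lam_mono.iterate n).injective e) 0)

theorem gm_pt (h : At q n (ad q n)) : gm q n ⟨0, p 0⟩ = q := by rw [gm, Lam_iter_p, ← h.2]

theorem gm_lam (hq : q ∈ O) : ∀ᶠ n in atTop, ∀ z, lam (gm q n z) = gm (lam q) (n+1) z :=
  (O_lam hq).2.mono fun n h z => by rw [gm, gm, h, iterate_succ_apply']

theorem gm_pow (hq : q ∈ O) (j : ℕ) :
    ∀ᶠ n in atTop, ∀ z, (lam ^ j) (gm q n z) = gm ((lam ^ j) q) (n+j) z := by
  induction j with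
  | zero => simp
  | succ j ih =>
    have := (tendsto_add_atTop_nat j).eventually (gm_lam (zpow_natCast lam j ▸ O_zpow hq j))
    filter_upwards [ih, this] with n h1 h2 z
    rw [pow_succ', RelIso.mul_apply, h1, h2]; rfl

theorem gm_nb (hq : q ∈ O) {P : L → Prop} (h : ∀ᶠ w in nb q, P w) :
    ∀ᶠ n in atTop, ∀ v, P (cm (ad q n) v) := by
  obtain ⟨N, hN⟩ := ev_of_long h
  exact (ev_at hq N).mono fun n h => hN _ _ h.1.2 h.2

theorem p_exit {v : C} (h : v ≠ p n) : ∃ (d : ℕ) (u : List (Fin 3)) (y : C), y 0 ≠ 1 ∧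
    v = app u (Lam^[n+d] y) ∧ p n = app u (p (n+d)) ∧ wp u = d := by
  by_contra hn
  have : ∀ d : ℕ, ∃ u v', d ≤ u.length ∧ v = app u v' ∧ p n = app u (p (n+d)) ∧ wp u = d := by
    intro d
    induction d with
    | zero => exact ⟨[], v, le_rfl, rfl, rfl, rfl⟩
    | succ d ih =>
      obtain ⟨u, v', h1, h2, h3, h4⟩ := ih
      obtain ⟨y, rfl⟩ := Lam_surj.iterate (n+d) v'
      obtain ⟨a, y, rfl⟩ := exists_cons y
      obtain rfl : a = 1 := by
        by_contra ha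
        exact hn ⟨d, u, cons a y, ha, h2, h3, h4⟩
      exact ⟨u ++ W (n+d), _, by simp [W]; omega, by rw [h2, Lam_iter_one, app_append],
        by rw [h3, p_eq, app_append]; rfl, by simp [h4, wp_W]⟩
  refine h (funext fun i => ?_)
  obtain ⟨u, v', h1, h2, h3, -⟩ := this (i+1)
  rw [h2, h3]
  exact app_lo _ _ _ i (by omega)

theorem Reg.O_iff (h : Reg g z) : g z ∈ O ↔ z ∈ O :=
  ⟨fun h' => by simpa using (h.inv.at h').1, fun h' => (h.at h').1⟩

/-- the data of the germ group -/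
structure Dat (H : Type) [Group H] where
  α : MulAut H
  N : ℕ
  hN : N ≠ 0
  αN : α ^ N = 1
  ev : ℕ → H →* Au
  ev_mem : ∀ n a, ev n a ∈ F w0 (st 1)
  ev_α : ∀ n a, ev (n+1) (α a) = ev n a
  ev_inj : ∀ a b, (∀ᶠ n in atTop, ev n a = ev n b) → a = b

namespace Dat

variable {H : Type} [Group H] (D : Dat H) {a b : H}

def Germ (g : Au) (q : L) (a : H) : Prop :=
  ∀ᶠ n in atTop, ∀ z, Z z → g (gm q n z) = gm (g q) n (D.ev n a z)

variable {D}

theorem Germ.uniq (h1 : D.Germ g q a) (h2 : D.Germ g q b) : a = b := by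
  refine D.ev_inj a b ?_
  filter_upwards [h1, h2] with n h1 h2
  refine RelIso.ext fun z => ?_
  by_cases h : z < w0 ∨ st 1 ≤ z
  · rw [(D.ev_mem n a).2 z h, (D.ev_mem n b).2 z h]
  · rw [not_or, not_lt, not_le] at h
    have hz : Z z := ⟨(mem_w0.1 h).1, by rw [(mem_w0.1 h).2]; decide⟩
    exact gm_inj ((hz.sp (D.ev_mem n a).2).1.trans (hz.sp (D.ev_mem n b).2).1.symm)
      ((h1 z hz).symm.trans (h2 z hz))

theorem Germ.mul (h1 : D.Germ g (h q) a) (h2 : D.Germ h q b) : D.Germ (g * h) q (a * b) := by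
  filter_upwards [h1, h2] with n h1 h2 z hz
  rw [RelIso.mul_apply, h2 z hz, h1 _ (hz.sp (D.ev_mem n b).2), map_mul]; rfl

theorem Germ.inv (h1 : D.Germ g q a) : D.Germ g⁻¹ (g q) a⁻¹ := by
  filter_upwards [h1] with n h1 z hz
  have := h1 _ (hz.sp (D.ev_mem n a⁻¹).2)
  rw [← RelIso.mul_apply (D.ev n a), ← map_mul, mul_inv_cancel, map_one, RelIso.one_apply] at this
  rw [← this]; simp

theorem germ_of_reg (hq : q ∈ O) (h : Reg g q) : D.Germ g q 1 :=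
  (h.at hq).2.mono fun n h z _ => by rw [map_one, gm, h]; rfl

theorem Germ.reg (hq : q ∈ O) (hq' : g q ∈ O) (h : D.Germ g q 1) : Reg g q := by
  obtain ⟨n, hn⟩ := eventually_atTop.1 ((ev_at hq 0).and ((ev_at hq' 0).and h))
  obtain ⟨⟨h1, -⟩, ⟨h2, -⟩, -⟩ := hn n le_rfl
  refine ⟨_, _, _, h1.2, h1.1.trans h2.1.symm, fun v => ?_⟩
  by_cases hv : v = p n
  · rw [hv, ← h1.2, ← h2.2]
  obtain ⟨d, u, y, h3, rfl, h4, h5⟩ := p_exit hv
  have h6 : ∀ q, At q n (ad q n) → ad q (n+d) = (ad q n).ex u := fun q h =>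
    At.ad_eq ⟨by simp [h.1, h5], by rw [cm_ex, ← h4]; exact h.2⟩
  have := (hn (n+d) (by omega)).2.2 ⟨0, y⟩ ⟨rfl, h3⟩
  rwa [map_one, gm, gm, h6 _ h1, h6 _ h2, cm_ex, cm_ex] at this

theorem Germ.congr (hq : q ∈ O) (h1 : D.Germ g q a) (e : ∀ᶠ w in nb q, h w = g w) :
    D.Germ h q a := by
  filter_upwards [h1, gm_nb hq e, ev_at hq 0] with n h1 h2 h3 z hz
  rw [gm, h2, show h q = g q by rw [h3.1.2]; exact h2 _]
  exact h1 z hz

theorem germ_lam (hg : g ∈ CO) (hq : q ∈ O) : D.Germ g (lam q) (D.α a) ↔ D.Germ g q a := by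
  rw [Germ, ← map_add_atTop_eq_nat 1, eventually_map]
  refine eventually_congr ?_
  filter_upwards [gm_lam hq, gm_lam ((hg.2 q).2 hq)] with n h1 h2
  simp only [D.ev_α, mem_CL.1 hg.1, ← h1, ← h2, EmbeddingLike.apply_eq_iff_eq]

theorem Germ.zpow (hg : g ∈ CO) (hq : q ∈ O) (h : D.Germ g q a) (j : ℤ) :
    D.Germ g ((lam ^ j) q) ((D.α ^ j) a) := by
  induction j using Int.induction_on with
  | zero => exact h
  | succ i ih => rw [add_comm, zpow_one_add, zpow_one_add]; exact (germ_lam hg (O_zpow hq _)).2 ih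
  | pred i ih =>
    rw [← germ_lam hg (O_zpow hq _), ← RelIso.mul_apply, ← MulAut.mul_apply, ← zpow_one_add,
      ← zpow_one_add]
    simpa using ih

variable (D)

/-- the germ extension -/
noncomputable def G : Subgroup Au where
  carrier := {g | g ∈ CO ∧ (∀ z ∉ O, Reg g z) ∧ (∀ q ∈ O, ∃ a, D.Germ g q a) ∧
    {q : X | ¬ Reg g q.1}.Finite}
  one_mem' := ⟨one_mem _, fun z _ => Reg.id z, fun q hq => ⟨1, germ_of_reg hq (Reg.id q)⟩,
    Set.finite_empty.subset fun q hq => hq (Reg.id _)⟩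
  mul_mem' {g h} hg hh := ⟨mul_mem hg.1 hh.1,
    fun z hz => (hg.2.1 _ (mt (hh.1.2 z).1 hz)).mul (hh.2.1 z hz), fun q hq => by
      obtain ⟨a, ha⟩ := hg.2.2.1 _ ((hh.1.2 q).2 hq)
      obtain ⟨b, hb⟩ := hh.2.2.1 q hq
      exact ⟨_, ha.mul hb⟩, by
      let _ := actX CO le_rfl
      refine (hh.2.2.2.union (hg.2.2.2.preimage (f := fun q => (⟨h, hh.1⟩ : CO) • q)
        (MulAction.injective _).injOn)).subset fun q hq => ?_
      by_contra hn
      simp only [Set.mem_union, Set.mem_preimage, Set.mem_ofPred_eq, not_or, not_not] at hn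
      exact hq (((CL.reg hg.1.1 _).1 hn.2).mul hn.1)⟩
  inv_mem' {g} hg := ⟨inv_mem hg.1, fun z hz => by
      simpa using (hg.2.1 (g⁻¹ z) (mt ((inv_mem hg.1 : g⁻¹ ∈ CO).2 z).1 hz)).inv, fun q hq => by
      obtain ⟨a, ha⟩ := hg.2.2.1 _ (((inv_mem hg.1 : g⁻¹ ∈ CO).2 q).2 hq)
      exact ⟨_, by simpa using ha.inv⟩, by
      let _ := actX CO le_rfl
      refine (hg.2.2.2.preimage (f := fun q => (⟨g⁻¹, inv_mem hg.1⟩ : CO) • q)
        (MulAction.injective _).injOn).subset fun q hq hn => hq ?_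
      simpa using ((CL.reg hg.1.1 _).1 hn).inv⟩

theorem B_le : B ≤ D.G := fun _ hg => ⟨B_le_CO hg, fun z _ => hg.1 z,
  fun q hq => ⟨1, germ_of_reg hq (hg.1 q)⟩, Set.finite_empty.subset fun _ hq => hq (hg.1 _)⟩

noncomputable instance : MulAction D.G X := actX _ fun _ h => h.1

theorem smul_val (g : D.G) (q : X) : (g • q).1 = nrm (g.1 q.1) := rfl

open Classical in
/-- the germ cocycle -/
noncomputable def c0 (g : D.G) (q : L) : H := if h : ∃ a, D.Germ g q a then h.choose else 1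

variable {D}

theorem c0_spec (g : D.G) (hq : q ∈ O) : D.Germ g q (D.c0 g q) := by
  rw [c0, dif_pos (g.2.2.2.1 q hq)]
  exact (g.2.2.2.1 q hq).choose_spec

theorem c0_mul (g h : D.G) (hq : q ∈ O) : D.c0 (g * h) q = D.c0 g (h.1 q) * D.c0 h q :=
  (c0_spec _ hq).uniq ((c0_spec g ((h.2.1.2 q).2 hq)).mul (c0_spec h hq))

theorem c0_zpow (g : D.G) (hq : q ∈ O) (j : ℤ) : D.c0 g ((lam ^ j) q) = (D.α ^ j) (D.c0 g q) :=
  (c0_spec _ (O_zpow hq j)).uniq ((c0_spec g hq).zpow g.2.1 hq j)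

theorem c0_eq_one (g : D.G) (hq : q ∈ O) : D.c0 g q = 1 ↔ Reg g.1 q :=
  ⟨fun h => Germ.reg hq ((g.2.1.2 q).2 hq) (h ▸ c0_spec g hq),
    fun h => (c0_spec g hq).uniq (germ_of_reg hq h)⟩

variable (D)

theorem exists_sigma (hq : q ∈ O) {S : L → Prop} (hS : ∀ᶠ w in nb q, S w) :
    ∃ σ : H →* D.G, ∀ a, (σ a).1 q = q ∧ D.c0 (σ a) q = a ∧
      (∀ z, (∀ j : ℤ, z ≠ (lam ^ j) q) → Reg (σ a).1 z) ∧
      ∀ z, z.k = q.k → ¬ S z → (σ a).1 z = z := by
  obtain ⟨n, hn⟩ := eventually_atTop.1 ((ev_at hq 0).and (gm_nb hq hS))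
  have hat : ∀ i, At q (n+i) (ad q (n+i)) := fun i => (hn _ (by omega)).1.1
  choose b hb hb' using fun i => (hat i).ra
  let Γ : ℕ → Au := fun i => b i * lam ^ (n+i)
  have hΓ : ∀ i z, z.k = 0 → Γ i z = gm q (n+i) z := fun i z hz => by
    rw [gm, ← hb', RelIso.mul_apply, lam_pow_apply, hz, zero_add]
  have hI : ∀ i z, Γ i w0 ≤ z → z < Γ i (st 1) → ∃ w, w.k = 0 ∧ w.s 0 = 2 ∧ z = gm q (n+i) w := by
    intro i z h1 h2
    obtain ⟨w, rfl⟩ := (Γ i).surjective z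
    have := mem_w0.1 ⟨by simpa using h1, by simpa using h2⟩
    exact ⟨w, this.1, this.2, hΓ i w this.1⟩
  have hs : ∀ i a, Γ i * D.ev (n+i) a * (Γ i)⁻¹ ∈ RA := fun i a => by
    have := mul_mem (mul_mem (hb i) (ra_conj (D.ev_mem (n+i) a).1 (n+i : ℕ))) (inv_mem (hb i))
    rw [zpow_natCast] at this
    convert this using 1
    simp only [Γ]; group
  obtain ⟨T, h1, h2⟩ := glue_fam (fun i => Γ i w0) (fun i => Γ i (st 1))
    (fun i => (MulAut.conj (Γ i)).toMonoidHom.comp (D.ev (n+i)))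
    (fun i a => Sp.conj (D.ev_mem _ a).2 _) (fun i j z h1 h2 h3 h4 => by
      obtain ⟨w, e1, e2, e3⟩ := hI i z h1 h2
      obtain ⟨w', e4, e5, e6⟩ := hI j z h3 h4
      rcases lt_trichotomy i j with h | h | h
      · exact absurd (e3.symm.trans e6) (gm_exit (hat i) (by omega) ⟨e1, by rw [e2]; decide⟩ _)
      · exact h
      · exact absurd (e6.symm.trans e3) (gm_exit (hat j) (by omega) ⟨e4, by rw [e5]; decide⟩ _))
  replace h2 : ∀ a z, (∀ i w, w.k = 0 → w.s 0 = 2 → z ≠ gm q (n+i) w) → T a z = z := fun a z h =>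
    h2 a z fun i => by
      by_contra h3
      rw [not_or, not_lt, not_le] at h3
      obtain ⟨w, e1, e2, e3⟩ := hI i z h3.1 h3.2
      exact h i w e1 e2 e3
  have hk : ∀ i w, (gm q (n+i) w).k = q.k := fun i w => (congrArg L.k (hat i).2).symm
  have hlt : ∀ i w, w.k = 0 → w.s 0 = 2 → q < gm q (n+i) w := fun i w e1 e2 => by
    nth_rewrite 1 [← gm_pt (hat i)]
    rw [gm_lt e1.symm]
    exact L.lt_iff.2 (Or.inr ⟨e1.symm, 0, by simp, by rw [e2]; decide⟩)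
  have hT : ∀ a, T a ∈ Sp (st q.k) (lam (st q.k)) := fun a z hz => h2 a z fun i w _ _ e => by
    rw [lam_st, lt_st, st_le, e, hk] at hz
    omega
  obtain ⟨P, hP⟩ := exists_per (st q.k)
  let σ := P.comp (T.codRestrict _ hT)
  have s1 : ∀ a, σ a ∈ CL := fun a => (hP _).1
  have s2 : ∀ a z, z.k = q.k → σ a z = T a z := fun a z hz =>
    (hP _).2 z (st_le.2 hz.ge) (by rw [lam_st, lt_st]; omega)
  have s3 : ∀ a z, z.k = q.k → ∀ᶠ w in nb z, σ a w = T a w := fun a z hz =>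
    ⟨0, fun w hw _ => s2 a w (hw.trans hz)⟩
  have t1 : ∀ a, T a q = q := fun a => h2 a q fun i w e1 e2 => (hlt i w e1 e2).ne
  have s4 : ∀ a, σ a q = q := fun a => (s2 a q rfl).trans (t1 a)
  have hE : ∀ i, (∃ c, EC c (Γ i w0)) ∧ ∃ c, EC c (Γ i (st 1)) := fun i => by
    have : ∀ c x, EC c x → ∃ c, EC c (Γ i x) := fun c x h =>
      ⟨_, (zpow_natCast lam (n+i) ▸ h.zpow (n+i : ℕ)).ra (hb i)⟩
    exact ⟨this _ _ ⟨(0, [2]), rfl, rfl⟩, this _ _ (EC.st 1)⟩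
  have t2 : ∀ a z, z ≠ q → Reg (T a) z := by
    intro a z hz
    by_cases h : ∃ i, Γ i w0 ≤ z ∧ z < Γ i (st 1)
    · obtain ⟨i, h3, h4⟩ := h
      obtain ⟨c, hc⟩ := (hE i).1
      exact (hs i a z).congr ((hc.ev_fd h3 h4).mono fun w h => h1 a i w h.1 h.2)
    obtain ⟨l, hl⟩ := eventually_atTop.1 (gm_nb hq (P := fun w => w ≠ z)
      (hz.lt_or_gt.elim (fun h => (ev_gt h).mono fun _ h => h.ne')
        fun h => (ev_lt h).mono fun _ h => h.ne))
    refine (Reg.id z).congr ?_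
    have e1 := ev_not_cone (a := ad q (n+l)) (z := z) fun v => (hl _ (by omega) v).symm
    have e2 : ∀ᶠ w in nb z, ∀ i ∈ Finset.range l, w < Γ i w0 ∨ Γ i (st 1) ≤ w :=
      (eventually_all_finset _).2 fun i _ => by
        rcases lt_or_ge z (Γ i w0) with h3 | h3
        · exact (ev_lt h3).mono fun _ => Or.inl
        · obtain ⟨c, hc⟩ := (hE i).2
          exact (hc.ev_ge (not_lt.1 fun h4 => h ⟨i, h3, h4⟩)).mono fun _ => Or.inr
    filter_upwards [e1, e2] with w e1 e2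
    refine h2 a w fun i v e3 e4 e5 => ?_
    rcases lt_or_ge i l with h3 | h3
    · have := mem_w0.2 ⟨e3, e4⟩
      rw [e5] at e2
      simpa [← hΓ i v e3, this.1.not_gt, this.2.not_ge] using e2 i (Finset.mem_range.2 h3)
    · obtain ⟨d, rfl⟩ := Nat.exists_eq_add_of_le h3
      obtain ⟨u, -, h4⟩ := (hat l).add d
      exact e1 _ (by rw [e5, gm, ← add_assoc, h4.ad_eq, cm_ex])
  have t3 : ∀ a, D.Germ (T a) q a := fun a => eventually_atTop.2 ⟨n, fun m hm z hz => by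
    obtain ⟨i, rfl⟩ := Nat.exists_eq_add_of_le hm
    rw [t1]
    rcases fin3 (z.s 0) with h | h | h
    · have h3 : z < ⟨0, p 0⟩ := L.lt_iff.2 (Or.inr ⟨hz.1, 0, by simp, by rw [h]; decide⟩)
      rw [(D.ev_mem _ a).2 z (Or.inl (h3.trans (L.lt_iff.2 (Or.inr ⟨rfl, 0, by simp, by decide⟩))))]
      refine h2 a _ fun j w e1 e2 => ne_of_lt (lt_trans ?_ (hlt j w e1 e2))
      nth_rewrite 2 [← gm_pt (hat i)]
      exact (gm_lt hz.1).2 h3
    · exact absurd h hz.2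
    · have := mem_w0.2 ⟨hz.1, h⟩
      rw [← hΓ i z hz.1, h1 a i _ (by simpa using this.1) (by simpa using this.2),
        ← hΓ i _ (hz.sp (D.ev_mem _ a).2).1]
      exact congrArg (fun w => Γ i (D.ev (n+i) a w)) (RelIso.inv_apply_self (Γ i) z)⟩
  have s5 : ∀ a z, (∀ j : ℤ, z ≠ (lam ^ j) q) → Reg (σ a) z := fun a z hz => by
    rw [← CL.reg (s1 a) (q.k - z.k)]
    refine (t2 a _ fun e => hz (-(q.k - z.k)) ?_).congr (s3 a _ (by simp [lam_zpow_k]))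
    generalize q.k - z.k = j at e
    rw [← e]; simp
  have s6 : ∀ a, σ a ∈ CO := fun a => ⟨s1 a, fun z => by
    by_cases h : ∃ j : ℤ, z = (lam ^ j) q
    · obtain ⟨j, rfl⟩ := h
      rw [(CL.fix (s1 a) j).2 (s4 a)]
    · exact (s5 a z (not_exists.1 h)).O_iff⟩
  have s7 : ∀ a, D.Germ (σ a) q a := fun a => (t3 a).congr hq (s3 a q rfl)
  have s8 : ∀ a, σ a ∈ D.G := fun a => ⟨s6 a, fun z hz => s5 a z fun j e => hz (e ▸ O_zpow hq j),
    fun z hz => by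
      by_cases h : ∃ j : ℤ, z = (lam ^ j) q
      · obtain ⟨j, rfl⟩ := h
        exact ⟨_, (s7 a).zpow (s6 a) hq j⟩
      · exact ⟨1, germ_of_reg hz (s5 a z (not_exists.1 h))⟩,
    (Set.finite_singleton (⟨nrm q, O_zpow hq _, nrm_k q⟩ : X)).subset fun z hz => by
      by_contra h
      refine hz (s5 a _ fun j e => h (Subtype.ext ((nrm_eq z.2.2).2 ⟨-j, ?_⟩).symm))
      rw [e]; simp⟩
  refine ⟨σ.codRestrict _ s8, fun a => ⟨s4 a, (c0_spec _ hq).uniq (s7 a), s5 a,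
    fun z e1 e2 => (s2 a z e1).trans (h2 a z fun i w _ _ e => e2 ?_)⟩⟩
  rw [e]
  exact (hn _ (by omega)).2 _

end Dat

end Pool.Agent.P.MP_267653_al
end

-- part Pool.Agent.P.MP_267653_al.Abel
section

/-! Homomorphisms to torsion-free abelian groups. -/

set_option autoImplicit false

namespace Pool.Agent.P.MP_267653_al

open Function Filter

variable {φ φ' χ χ' : Φ} {a m e a' m' e' x : L} {b b' : B} {c : ZMod 2}

/-- periodic basic generators -/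
structure PY (φ φ' : Φ) (a m e : L) (b : B) : Prop where
  c1 : Cht φ a m
  c2 : Cht φ' m e
  sh : e < lam a
  isY : IsY φ φ' b
  fx : b.1 ∈ Fx e (lam a)

theorem IsY.eq {g h : Au} (h1 : IsY φ φ' g) (h2 : IsY φ φ' h) (c1 : Cht φ a m) (c2 : Cht φ' m e)
    {z : L} (h3 : a ≤ z) (h4 : z < e) : g z = h z := by
  rcases lt_or_ge z m with h5 | h5
  · obtain ⟨w, rfl⟩ := c1.range.2 ⟨h3, h5⟩
    obtain ⟨i, w, rfl⟩ := exists_cons w
    rcases fin3 i with rfl | rfl | rfl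
    exacts [congrFun (h1.1.trans h2.1.symm) w, congrFun (h1.2.1.trans h2.2.1.symm) w,
      congrFun (h1.2.2.1.trans h2.2.2.1.symm) w]
  · obtain ⟨w, rfl⟩ := c2.range.2 ⟨h5, h4⟩
    exact congrFun (h1.2.2.2.trans h2.2.2.2.symm) w

theorem IsY.conj {g : Au} (h1 : IsY φ φ' g) (h : Au) : IsY (h • φ) (h • φ') (h * g * h⁻¹) := by
  simp only [IsY, ← smul_ch, mul_smul, inv_smul_smul, h1.1, h1.2.1, h1.2.2.1, h1.2.2.2, and_self]

theorem IsY.congr {g h : Au} (h1 : IsY φ φ' g) (c1 : Cht φ a m) (c2 : Cht φ' m e)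
    (h2 : ∀ z, a ≤ z → z < e → h z = g z) : IsY φ φ' h := by
  have e1 : ∀ i, h • ch φ i = g • ch φ i := fun i => funext fun w =>
    h2 _ (c1.mem _).1 ((c1.mem _).2.trans c2.lt)
  have e2 : h • φ' = g • φ' := funext fun w => h2 _ (c1.lt.le.trans (c2.mem _).1) (c2.mem _).2
  rwa [IsY, e1, e1, e1, e2]

theorem PY.uniq (h : PY φ φ' a m e b) (h' : PY φ φ' a m e b') : b = b' :=
  Subtype.ext (per_ext (B.cl b.2) (B.cl b'.2) a fun z h1 h2 => (lt_or_ge z e).elim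
    (h.isY.eq h'.isY h.c1 h.c2 h1) fun h3 => (h.fx z h3 h2).trans (h'.fx z h3 h2).symm)

theorem PY.conj (h : PY φ φ' a m e b) (k : B) :
    PY (k.1 • φ) (k.1 • φ') (k.1 a) (k.1 m) (k.1 e) (k * b * k⁻¹) :=
  ⟨h.c1.smul k.2.1, h.c2.smul k.2.1, by rw [← mem_CL.1 (B.cl k.2)]; exact k.1.strictMono h.sh,
    h.isY.conj k.1, by rw [← mem_CL.1 (B.cl k.2)]; exact Fx.conj h.fx k.1⟩

theorem exists_PY (c1 : Cht φ a m) (c2 : Cht φ' m e) (h : e < lam a) : ∃ b, PY φ φ' a m e b := by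
  obtain ⟨g, hg, hY⟩ := exists_Y c1 c2
  obtain ⟨c, hc⟩ := c1.E
  obtain ⟨P, hP⟩ := exists_perB hc
  exact ⟨P ⟨g, hg.1, Sp.mono le_rfl h.le hg.2⟩, c1, c2, h,
    hY.congr c1 c2 fun z h1 h2 => hP _ z h1 (h2.trans h), fun z h1 h2 =>
      (hP _ z ((c1.lt.trans c2.lt).le.trans h1) h2).trans (hg.2 z (Or.inr h1))⟩

theorem PY.val {C : Type} [CommGroup C] (ψ : B →* C) (h : PY φ φ' a m e b)
    (h' : PY χ χ' a' m' e' b') (ha : EC c a) (ha' : EC c a') : ψ b = ψ b' := by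
  obtain ⟨g1, hg1, e1, e2, e3⟩ := (Seq.cons h.c1 (.cons h.c2 (.nil _))).mtch
    (Seq.cons h'.c1 (.cons h'.c2 (.nil _))) rfl ha ha'
  have he := h.c2.ec (h.c1.ec ha)
  obtain ⟨g2, hg2, e4, e5⟩ := key he (h'.c2.ec (h'.c1.ec ha')) ha.lam ha'.lam h.sh h'.sh
  obtain ⟨g, hg, e6, e7⟩ := glue_ra hg1 hg2 he (e3.trans e4.symm)
  have hae := (h.c1.lt.trans h.c2.lt).le
  obtain ⟨k, hk, e8⟩ := periodize hg ha (by rw [e7 _ h.sh.le, e6 _ hae, e5, e2])
  have e9 : ∀ z, a ≤ z → z ≤ e → k z = g1 z := fun z h1 h2 => by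
    rw [e8 z h1 (h2.trans_lt h.sh), e6 z h2]
  simp only [List.map_cons, List.map_nil, List.cons.injEq, and_true] at e1
  have f1 : k • φ = χ := e1.1 ▸ funext fun w =>
    e9 _ (h.c1.mem w).1 ((h.c1.mem w).2.trans h.c2.lt).le
  have f2 : k • φ' = χ' := e1.2 ▸ funext fun w =>
    e9 _ (h.c1.lt.le.trans (h.c2.mem w).1) (h.c2.mem w).2.le
  have := h.conj ⟨k, hk⟩
  simp only at this
  rw [f1, f2, e9 a le_rfl hae, e9 e hae le_rfl, e2, e3,
    show k m = m' by rw [← h.c2.lo, ← h'.c2.lo, ← f2]; rfl] at this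
  rw [← this.uniq h']
  simp

theorem fix_chart {g : Au} (hg : g ∈ CL) (h : g ∈ Fx e (lam a)) (h1 : x ≤ a) (h2 : e ≤ lam x)
    (hc : Cht χ a' e') (h3 : x ≤ a') (h4 : e' ≤ lam x) (h5 : e' ≤ a ∨ e ≤ a') : g • χ = χ :=
  funext fun w => Fx.out hg h h1 h2 (h3.trans (hc.mem w).1) ((hc.mem w).2.trans_le h4)
    (h5.imp (hc.mem w).2.trans_le fun h => h.trans (hc.mem w).1)

theorem smul_eq_of_ch {g : Au} (h : ∀ i, g • ch φ i = ch χ i) : g • φ = χ := funext fun w => by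
  obtain ⟨i, w, rfl⟩ := exists_cons w
  exact congrFun (h i) w

theorem Cht.lam_psi (h : Cht φ a m) (h' : Cht χ a' m') (e : ∀ y, lam (φ y) = χ (Psi y)) :
    a' = lam a ∧ m' = lam m := by
  refine ⟨by rw [← h.lo, ← h'.lo, e, Psi_fix (a := 0) (by decide) cons_z0.symm], le_antisymm
    (h'.hi_le fun w => ?_) (lam.le_symm_apply.1 (h.hi_le fun w => lam.lt_symm_apply.2 ?_))⟩
  · obtain ⟨w, rfl⟩ := Psi_surj w
    rw [← e]; exact lam.strictMono (h.mem w).2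
  · rw [e]; exact (h'.mem _).2

theorem hom_B {C : Type} [CommGroup C] [IsMulTorsionFree C] (ψ : B →* C) (b : B) : ψ b = 1 := by
  obtain ⟨A, hA⟩ : ∃ A : ZMod 2 → C, ∀ {c φ φ' a m e b}, EC c a → PY φ φ' a m e b → ψ b = A c := by
    classical
    refine ⟨fun c => if h : ∃ b, ∃ φ φ' a m e, EC c a ∧ PY φ φ' a m e b then ψ h.choose else 1, ?_⟩
    intro c φ φ' a m e b h1 h2
    have h : ∃ b, ∃ φ φ' a m e, EC c a ∧ PY φ φ' a m e b := ⟨b, _, _, _, _, _, h1, h2⟩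
    obtain ⟨_, _, _, _, _, h3, h4⟩ := h.choose_spec
    simp only [dif_pos h]
    exact h2.val ψ h4 h1 h3
  have hX : ∀ {χ a e c}, Cht χ a e → e < lam a → EC c a → ∃ u : B, ψ u = A (c+1) * A c ∧
      u.1 ∈ Fx e (lam a) ∧ u.1 • ch (ch χ 0) 0 = ch χ 0 ∧ u.1 • ch (ch χ 0) 1 = ch χ 1 ∧
      u.1 • ch (ch χ 0) 2 = ch (ch χ 2) 0 ∧ u.1 • ch χ 1 = ch (ch χ 2) 1 ∧
      u.1 • ch χ 2 = ch (ch χ 2) 2 := by
    intro χ a e c h1 h2 h3
    obtain ⟨c0, c1, c2⟩ := h1.child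
    obtain ⟨b1, hb1⟩ := exists_PY c0 c1 (c2.lt.trans h2)
    obtain ⟨b2, hb2⟩ := exists_PY c1 c2 (h2.trans (lam.strictMono c0.lt))
    refine ⟨b2 * b1, by rw [map_mul, hA h3 hb1, hA (c0.ec h3) hb2], fun w h4 h5 => ?_, ?_⟩
    · show b2.1 (b1.1 w) = w
      rw [hb1.fx w (c2.lt.le.trans h4) h5, hb2.fx w h4 (h5.trans (lam.strictMono c0.lt))]
    · simp only [Subgroup.coe_mul, mul_smul, hb1.isY.1, hb1.isY.2.1, hb1.isY.2.2.1, hb1.isY.2.2.2,
        hb2.isY.1, hb2.isY.2.1, hb2.isY.2.2.1, true_and]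
      rw [fix_chart (B.cl b1.2) hb1.fx le_rfl (c2.lt.trans h2).le c2 (c0.lt.trans c1.lt).le h2.le
        (Or.inr le_rfl)]
      exact ⟨fix_chart (B.cl b2.2) hb2.fx c0.lt.le h2.le c0 le_rfl
        ((c1.lt.trans c2.lt).trans h2).le (Or.inl le_rfl), hb2.isY.2.2.2⟩
  have hc : ∀ k : ℤ, Cht (fun w => ⟨k, w⟩) (st k) (st (k+1)) := fun k =>
    ⟨1, one_mem _, k, fun _ => rfl, rfl, rfl⟩
  have h01 : ∀ c, A (c+1) * A c = 1 := by
    obtain ⟨c0, c1, c2⟩ := (hc 0).child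
    have h1 := c2.lt
    rw [← lam_st] at h1
    have h0 := EC.st 0
    obtain ⟨u, e1, e2, e3, e4, e5, e6, e7⟩ := hX c1 (h1.trans (lam.strictMono c0.lt)) (c0.ec h0)
    obtain ⟨d0, d1, d2⟩ := c1.child
    have h2 := d1.lt.trans d2.lt
    obtain ⟨b, hb⟩ := exists_PY c0 d0 (h2.trans h1)
    have := hA h0 (b := u * b) ⟨c0, c1, h1, ⟨?_, ?_, ?_, ?_⟩, fun w h3 h4 => ?_⟩
    · rw [map_mul, hA h0 hb, mul_eq_right, e1] at this
      intro c
      rcases (show c = 0 ∨ c = 1 by revert c; decide) with rfl | rfl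
      · rw [mul_comm]; exact this
      · exact this
    · rw [Subgroup.coe_mul, mul_smul, hb.isY.1]
      exact fix_chart (B.cl u.2) e2 c0.lt.le h1.le c0 le_rfl (c1.lt.trans h1).le (Or.inl le_rfl)
    · rw [Subgroup.coe_mul, mul_smul, hb.isY.2.1, e3]
    · rw [Subgroup.coe_mul, mul_smul, hb.isY.2.2.1, e4]
    · refine smul_eq_of_ch fun i => ?_
      rcases fin3 i with rfl | rfl | rfl
      · rw [Subgroup.coe_mul, mul_smul, hb.isY.2.2.2, e5]
      · rw [Subgroup.coe_mul, mul_smul, fix_chart (B.cl b.2) hb.fx le_rfl (h2.trans h1).le d1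
          (c0.lt.trans d0.lt).le (d2.lt.trans h1).le (Or.inr le_rfl), e6]
      · rw [Subgroup.coe_mul, mul_smul, fix_chart (B.cl b.2) hb.fx le_rfl (h2.trans h1).le d2
          ((c0.lt.trans d0.lt).trans d1.lt).le h1.le (Or.inr d1.lt.le), e7]
    · show u.1 (b.1 w) = w
      rw [hb.fx w (h2.le.trans h3) h4, e2 w h3 (h4.trans (lam.strictMono c0.lt))]
  have hX' : ∀ {χ a e}, Cht χ a e → e < lam a → ∃ u : B, ψ u = 1 ∧ u.1 ∈ Fx e (lam a) ∧
      ∀ y, u.1 (χ (Lam y)) = χ (Psi y) := by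
    intro χ a e h1 h2
    obtain ⟨c, hc⟩ := h1.E
    obtain ⟨u, e1, e2, e3, e4, e5, e6, e7⟩ := hX h1 h2 hc
    refine ⟨u, e1.trans (h01 c), e2, fun y => ?_⟩
    obtain ⟨i, y, rfl⟩ := exists_cons y
    rcases fin3 i with rfl | rfl | rfl
    · rw [Lam0, Psi0]; exact congrFun e3 _
    · rw [Lam1, Psi1]; exact congrFun e4 _
    obtain ⟨i, y, rfl⟩ := exists_cons y
    rcases fin3 i with rfl | rfl | rfl
    · rw [Lam20, Psi2, Psi0]; exact congrFun e5 _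
    · rw [Lam21, Psi2, Psi1]; exact congrFun e6 _
    · rw [Lam22, Psi2, Psi2]; exact congrFun e7 _
  have hA1 : ∀ c, A c = 1 := by
    have p1 := (hc 0).child.1.child.2.2
    have p2 := (hc 0).child.2.1.child.1
    have q1 := (hc 1).child.1.child.1.child.2.2
    have q2 := (hc 1).child.1.child.2.1.child.1.child.1
    have e1 : ∀ y, lam (ch (ch (fun w => (⟨0, w⟩ : L)) 0) 2 y) =
        ch (ch (ch (fun w => (⟨1, w⟩ : L)) 0) 0) 2 (Psi y) := fun y => by simp [ch, lam_apply]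
    have e2 : ∀ y, lam (ch (ch (fun w => (⟨0, w⟩ : L)) 1) 0 y) =
        ch (ch (ch (ch (fun w => (⟨1, w⟩ : L)) 0) 1) 0) 0 (Psi y) := fun y => by
      simp [ch, lam_apply]
    have hs : ch (fun w => (⟨0, w⟩ : L)) 1 (cons 1 z0) <
        lam (ch (fun w => (⟨0, w⟩ : L)) 0 (cons 2 z0)) := L.lt_iff.2 (Or.inl (by simp [ch, lam_apply]))
    rw [(p1.lam_psi q1 e1).1, (p1.lam_psi q1 e1).2] at q1
    rw [(p2.lam_psi q2 e2).1, (p2.lam_psi q2 e2).2] at q2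
    generalize ch (ch (fun w => (⟨0, w⟩ : L)) 0) 2 = φ at *
    generalize ch (ch (fun w => (⟨0, w⟩ : L)) 1) 0 = φ' at *
    generalize ch (ch (ch (fun w => (⟨1, w⟩ : L)) 0) 0) 2 = χ at *
    generalize ch (ch (ch (ch (fun w => (⟨1, w⟩ : L)) 0) 1) 0) 0 = χ' at *
    generalize ch (fun w => (⟨0, w⟩ : L)) 1 (cons 1 z0) = e at *
    generalize ch (fun w => (⟨0, w⟩ : L)) 0 (cons 2 z0) = a at *
    obtain ⟨b, hb⟩ := exists_PY p1 p2 hs
    obtain ⟨c, hc⟩ := p1.E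
    have hs' := lam.strictMono hs
    obtain ⟨d0, d1, d2⟩ := q2.child
    have l0 := lam.strictMono q1.lt
    obtain ⟨u, u1, u2, u3⟩ := hX' d0 (((d1.lt.trans d2.lt).trans hs').trans l0)
    obtain ⟨v, v1, v2, v3⟩ := hX' d1 ((d2.lt.trans hs').trans (l0.trans (lam.strictMono d0.lt)))
    have hb' := mem_CL.1 (B.cl b.2)
    have fu := fun {χ a' e'} => fix_chart (χ := χ) (a' := a') (e' := e') (x := lam a)
      (B.cl u⁻¹.2) (inv_mem u2) q1.lt.le
      ((d1.lt.trans d2.lt).trans hs').le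
    have fv := fun {χ a' e'} => fix_chart (χ := χ) (a' := a') (e' := e') (x := lam a)
      (B.cl v.2) v2 (q1.lt.trans d0.lt).le
      (d2.lt.trans hs').le
    have l1 := q2.lt.trans hs'
    have := hA hc.lam (b := u⁻¹ * v * b) ⟨q1, q2, hs', ⟨?_, ?_, ?_, ?_⟩, fun w h3 h4 => ?_⟩
    · rw [map_mul, map_mul, map_inv, u1, v1, hA hc hb, inv_one, one_mul, one_mul] at this
      have h5 : A c = 1 := (pow_eq_one_iff_left two_ne_zero).1 (by
        rw [sq]; nth_rewrite 1 [this]; exact h01 c)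
      intro c'
      rcases (by decide : ∀ c c' : ZMod 2, c' = c ∨ c' = c + 1) c c' with rfl | rfl
      · exact h5
      · exact this ▸ h5
    · have : b.1 • ch χ 0 = χ := funext fun w => by
        obtain ⟨w, rfl⟩ := Psi_surj w
        show b.1 (χ (cons 0 (Psi w))) = _
        rw [← Psi0, ← e1, hb', ← e1]
        exact congrArg lam (congrFun hb.isY.1 w)
      rw [Subgroup.coe_mul, Subgroup.coe_mul, mul_smul, mul_smul, this,
        fv q1 le_rfl l1.le (Or.inl d0.lt.le), fu q1 le_rfl l1.le (Or.inl le_rfl)]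
    · funext w
      obtain ⟨w, rfl⟩ := Lam_surj w
      have h6 := congrFun (fv d0 q1.lt.le ((d1.lt.trans d2.lt).trans hs').le (Or.inl le_rfl)) (Psi w)
      show u.1⁻¹ (v.1 (b.1 (χ (cons 1 (Lam w))))) = _
      rw [← Psi1, ← e1, hb', show b.1 (φ (cons 1 w)) = φ' (cons 0 w) from congrFun hb.isY.2.1 w, e2,
        Psi0, show v.1 (χ' (cons 0 (Psi w))) = ch χ' 0 (Psi w) from h6, ← u3]
      exact RelIso.inv_apply_self _ _
    · funext w
      obtain ⟨w, rfl⟩ := Psi_surj w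
      show u.1⁻¹ (v.1 (b.1 (χ (cons 2 (Psi w))))) = _
      rw [← Psi2, ← e1, hb', show b.1 (φ (cons 2 w)) = φ' (cons 1 w) from congrFun hb.isY.2.2.1 w,
        e2, Psi1, show v.1 (χ' (cons 1 (Lam w))) = ch χ' 1 (Psi w) from v3 w]
      exact congrFun (fu d1 (q1.lt.trans d0.lt).le (d2.lt.trans hs').le (Or.inr le_rfl)) _
    · have : b.1 • χ' = ch χ' 2 := funext fun w => by
        obtain ⟨w, rfl⟩ := Psi_surj w
        show b.1 (χ' (Psi w)) = χ' (cons 2 (Psi w))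
        rw [← Psi2, ← e2, hb', ← e2]
        exact congrArg lam (congrFun hb.isY.2.2.2 w)
      have l2 := ((q1.lt.trans d0.lt).trans d1.lt).le
      rw [Subgroup.coe_mul, Subgroup.coe_mul, mul_smul, mul_smul, this,
        fv d2 l2 hs'.le (Or.inr le_rfl), fu d2 l2 hs'.le (Or.inr d1.lt.le)]
    · show u.1⁻¹ (v.1 (b.1 w)) = w
      obtain ⟨w, rfl⟩ := lam.surjective w
      rw [hb', hb.fx w (by simpa using h3) (by simpa using h4),
        v2 _ (d2.lt.le.trans h3) (h4.trans (l0.trans (lam.strictMono d0.lt)))]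
      exact inv_mem u2 _ ((d1.lt.trans d2.lt).le.trans h3) (h4.trans l0)
  suffices B0 ≤ ψ.ker.map B.subtype by
    obtain ⟨b', h1, h2⟩ := this (frag b.2)
    rwa [← show b' = b from Subtype.ext h2]
  refine (Subgroup.closure_le _).2 ?_
  rintro g ⟨hg, ⟨y, z, ⟨c, hy⟩, ⟨d, hz⟩, h1, h2⟩, h3⟩
  obtain ⟨P, hP⟩ := exists_perB hy
  have e1 := h3 y le_rfl h1
  obtain ⟨f, hf, h4⟩ := cut hg.1 hy hy.lam (lt_lam y).le e1 (by rw [mem_CL.1 (B.cl hg), e1])
  have h5 : f ∈ F z (lam y) := ⟨hf.1, fun w h => by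
    rcases h with h | h
    · rcases lt_or_ge w y with h' | h'
      · exact hf.2 w (Or.inl h')
      · rw [h4 w h' (h.trans h2).le, h3 w h' h]
    · exact hf.2 w (Or.inr h)⟩
  obtain ⟨f', h6, h7⟩ := gen hz hy.lam ((ψ.comp P).ker.map (Subgroup.subtype _))
    (fun φ φ' a m e k c1 c2 h6 h7 hk hY => by
      have h8 : e < lam a := h7.trans_lt (lam.strictMono (h1.trans_le h6))
      let k' : F y (lam y) := ⟨k, hk.1, Sp.mono (h1.le.trans h6) h7 hk.2⟩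
      obtain ⟨c', hc'⟩ := c1.E
      refine ⟨k', (hA hc' ⟨c1, c2, h8, hY.congr c1 c2 fun w h9 h10 =>
        hP k' w ((h1.le.trans h6).trans h9) (h10.trans_le h7), fun w h9 h10 => ?_⟩).trans (hA1 _),
        rfl⟩
      rcases lt_or_ge w (lam y) with h | h
      · exact (hP k' w (((h1.le.trans h6).trans (c1.lt.trans c2.lt).le).trans h9) h).trans
          (hk.2 w (Or.inr h9))
      · obtain ⟨w, rfl⟩ := lam.surjective w
        rw [mem_CL.1 (B.cl (P k').2), hP k' w (by simpa using h)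
          ((lam.strictMono.lt_iff_lt.1 h10).trans_le ((c1.lt.trans c2.lt).le.trans h7))]
        exact congrArg lam (hk.2 w (Or.inl (by simpa using h10)))) h5
  exact ⟨P f', h6, per_ext (B.cl (P f').2) (B.cl hg) y fun w h8 h9 => by
    rw [← h4 w h8 h9.le, ← h7]; exact hP f' w h8 h9⟩

/-- the reflection exchanges the ray below `y` and the ray from `y'` on -/
def Rf (y y' : L) : Prop := ∀ w, w < y ↔ y' ≤ rf w

theorem Rf.symm {y y' : L} (h : Rf y y') : Rf y' y := fun w => by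
  have := h (rf w)
  rw [rf_rf] at this
  rw [← not_le, ← this, not_lt]

theorem Rf.lt {y y' z z' : L} (h : Rf y y') (h' : Rf z z') (hyz : y < z) : z' < y' :=
  ((h' y).1 hyz).trans_lt (not_le.1 (mt (h y).2 (lt_irrefl _)))

theorem Rf.uniq {y y' y'' : L} (h : Rf y y') (h' : Rf y y'') : y' = y'' :=
  eq_of_forall_ge_iff fun w => by rw [← rf_rf w, ← h, h']

theorem Rf.sp {y y' z z' : L} (h : Rf y y') (h' : Rf z z') {g : Au} (hg : g ∈ Sp y z) :
    tau g ∈ Sp z' y' := fun w hw => by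
  rw [tau_apply, hg _ (hw.symm.imp (fun e => (h _).2 (by simpa using e)) (h'.symm w).1), rf_rf]

theorem Cht.rf (h : Cht φ a e) :
    ∃ a' e', Cht (fun w => rf (φ (mi w))) a' e' ∧ Rf a e' ∧ Rf e a' ∧
      ∀ c, EC c a → EC (c+1) a' := by
  obtain ⟨g, hg, k, h1, rfl, rfl⟩ := h
  have : ∀ j : ℤ, Rf (g (st j)) (tau g (st (2 - j))) := fun j w => by
    obtain ⟨w, rfl⟩ := g.surjective w
    rw [show Pool.Agent.P.MP_267653_al.rf (g w) = tau g (Pool.Agent.P.MP_267653_al.rf w) by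
      simp [tau_apply], OrderIso.lt_iff_lt, OrderIso.le_iff_le, lt_st, st_le]
    simp only [Pool.Agent.P.MP_267653_al.rf]; omega
  refine ⟨_, _, ⟨tau g, tau_ra hg, 1 - k, fun w => ?_, rfl, rfl⟩, ?_, ?_, fun c hc => ?_⟩
  · simp [h1, tau_apply, Pool.Agent.P.MP_267653_al.rf]
  · convert this k using 3; ring
  · convert this (k+1) using 3; ring
  · rw [hc.uniq ((EC.st k).ra hg)]
    convert (EC.st (1 - k)).ra (tau_ra hg) using 1
    push_cast
    rw [sub_eq_add_neg, ZMod.neg_eq_self_mod_two, add_comm]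

theorem hom_A {C : Type} [CommGroup C] [IsMulTorsionFree C] {x0 y0 x1 y1 : L} {c0 d0 c1 d1 : ZMod 2}
    (hx0 : EC c0 x0) (hy0 : EC d0 y0) (hx1 : EC c1 x1) (hy1 : EC d1 y1) (h0 : Rf x0 y0)
    (h1 : x0 < x1) (h2 : y1 < y0) (ψ : F x0 y0 →* C)
    (hψ : ∀ a b : F x0 y0, b.1 = tau a.1 → ψ b = ψ a) (g : F x0 y0) (hg : g.1 ∈ F x1 y1) :
    ψ g = 1 := by
  suffices F x1 y1 ≤ ψ.ker.map (Subgroup.subtype _) by
    obtain ⟨f', h6, h7⟩ := this hg
    rwa [← show f' = g from Subtype.ext h7]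
  refine gen hx1 hy1 _ fun φ φ' a m e k c1 c2 h6 h7 hk hY => ?_
  have l1 := h1.trans_le h6
  have l2 := h7.trans_lt h2
  obtain ⟨m', a', r1, r2, r3, -⟩ := c1.rf
  obtain ⟨e', m'', r4, r5, r6, r7⟩ := c2.rf
  obtain rfl := r3.uniq r5
  let k' : F x0 y0 := ⟨k, hk.1, Sp.mono l1.le l2.le hk.2⟩
  have l3 := r6.lt h0.symm l2
  have l4 := h0.lt r2 l1
  have hk2 : tau k ∈ F e' a' := ⟨tau_ra hk.1, r2.sp r6 hk.2⟩
  let k2 : F x0 y0 := ⟨tau k, hk2.1, Sp.mono l3.le l4.le hk2.2⟩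
  have hY2 : IsY (fun w => rf (φ' (mi w))) (fun w => rf (φ (mi w))) (tau k)⁻¹ := by
    simp only [IsY, inv_smul_eq_iff]
    refine ⟨funext fun w => ?_, funext fun w => ?_, funext fun w => ?_, funext fun w => ?_⟩ <;>
      simp only [ch, smul_app, tau_apply, rf_rf, mi_cons] <;> congr 1
    exacts [(congrFun hY.2.2.2 _).symm, (congrFun hY.2.2.1 _).symm, (congrFun hY.2.1 _).symm,
      (congrFun hY.1 _).symm]
  obtain ⟨c, hc⟩ := c1.E
  have hc' : EC c e' := by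
    convert r7 _ (c1.ec hc) using 1
    exact (by decide : ∀ c : ZMod 2, c = c + 1 + 1) c
  obtain ⟨g1, hg1, e1, e2, e3⟩ := (Seq.cons c1 (.cons c2 (.nil _))).mtch
    (Seq.cons r4 (.cons r1 (.nil _))) rfl hc hc'
  have hae := (c1.lt.trans c2.lt).le
  obtain ⟨g2, hg2, e4, e5, e6⟩ := ext2 hg1 hx0 hx0 hy0 hy0 hc (c2.ec (c1.ec hc)) l1 hae l2
    (e2 ▸ l3) (e3 ▸ l4)
  obtain ⟨h, hh, e7⟩ := cut hg2 hx0 hy0 (l1.le.trans (hae.trans l2.le)) e4 e5
  have e9 : ∀ z, a ≤ z → z ≤ e → h z = g1 z := fun z h1 h2 => by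
    rw [e7 z (l1.le.trans h1) (h2.trans l2.le), e6 z h1 h2]
  simp only [List.map_cons, List.map_nil, List.cons.injEq, and_true] at e1
  have f1 : h • φ = _ := (funext fun w =>
    e9 _ (c1.mem w).1 ((c1.mem w).2.trans c2.lt).le).trans e1.1
  have f2 : h • φ' = _ := (funext fun w =>
    e9 _ (c1.lt.le.trans (c2.mem w).1) (c2.mem w).2.le).trans e1.2
  have hY3 := hY.conj h
  rw [f1, f2] at hY3
  have hs := Sp.conj hk.2 h
  rw [e9 a le_rfl hae, e9 e hae le_rfl, e2, e3] at hs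
  have e10 : (⟨h, hh⟩ : F x0 y0) * k' * (⟨h, hh⟩ : F x0 y0)⁻¹ = k2⁻¹ := Subtype.ext
    (RelIso.ext fun w => by
      by_cases hw : w < e' ∨ a' ≤ w
      · exact (hs w hw).trans ((Sp e' a').inv_mem hk2.2 w hw).symm
      · rw [not_or, not_lt, not_le] at hw
        exact hY3.eq hY2 r4 r1 hw.1 hw.2)
  have e11 := congrArg ψ e10
  rw [map_mul, map_mul, map_inv, map_inv, hψ k' k2 rfl, mul_inv_cancel_comm] at e11
  exact ⟨k', (pow_eq_one_iff_left two_ne_zero).1 (by rw [sq]; exact mul_eq_one_iff_eq_inv.2 e11),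
    rfl⟩

end Pool.Agent.P.MP_267653_al
end

-- part Pool.Agent.P.MP_267653_al.Abs
section

/-! Abstract group theory: a Higman type simplicity criterion, left orders, twisted powers. -/

set_option autoImplicit false

namespace Pool.Agent.P.MP_267653_al

open Function Pool.Agent.Lib.Brown

theorem simple_commutator {G : Type} [Group G] {ι : Type} (K : ι → Subgroup G)
    (hconj : ∀ g U, ∃ V, ∀ a ∈ K U, g * a * g⁻¹ ∈ K V)
    (hgen : Subgroup.closure (⋃ U, (K U : Set G)) = ⊤)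
    (h2 : ∀ U V, ∃ W g, g ∈ K W ∧ (∀ a ∈ K U, g * a * g⁻¹ ∈ K V) ∧ K U ≤ K W)
    (h3 : ∀ U, ∃ V, ∀ a ∈ K U, ∀ b ∈ K V, Commute a b)
    (h4 : ∀ m ≠ 1, ∃ U, ∀ a ∈ K U, ∀ b ∈ K U, Commute a (m * b * m⁻¹))
    (hne : commutator G ≠ ⊥) : IsSimpleGroup (commutator G) := by
  have hc : ∀ a b : G, a * b * a⁻¹ * b⁻¹ ∈ commutator G := fun a b =>
    Subgroup.commutator_mem_commutator (Subgroup.mem_top a) (Subgroup.mem_top b)
  have h3' : ∀ W, ∃ W' s, s ∈ K W' ∧ K W ≤ K W' ∧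
      ∀ a ∈ K W, ∀ b ∈ K W, Commute a (s * b * s⁻¹) := by
    intro W
    obtain ⟨V, hV⟩ := h3 W
    obtain ⟨W', s, h1, h2, h3⟩ := h2 W V
    exact ⟨W', s, h1, h3, fun a ha b hb => hV a ha _ (h2 b hb)⟩
  have : Nontrivial (commutator G) := (Subgroup.nontrivial_iff_ne_bot _).2 hne
  refine ⟨fun N hN => ?_⟩
  rw [or_iff_not_imp_left]
  intro hN0
  obtain ⟨m, hmN, hm1⟩ := (Subgroup.bot_or_exists_ne_one N).resolve_left hN0
  set M : Subgroup G := N.map (commutator G).subtype with hM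
  have hMn : ∀ g ∈ commutator G, ∀ x ∈ M, g * x * g⁻¹ ∈ M := by
    rintro g hg _ ⟨x, hx, rfl⟩
    exact ⟨_, hN.conj_mem x hx ⟨g, hg⟩, rfl⟩
  have hmM : (m : G) ∈ M := ⟨m, hmN, rfl⟩
  obtain ⟨U, hU⟩ := h4 m (fun h => hm1 (Subtype.ext h))
  have s1 : ∀ a ∈ K U, ∀ b ∈ K U, a ∈ commutator G → b ∈ commutator G →
      a * b * a⁻¹ * b⁻¹ ∈ M := by
    intro a ha b hb ha' hb'
    have h1 : a * m * a⁻¹ * (m : G)⁻¹ ∈ M := M.mul_mem (hMn a ha' _ hmM) (M.inv_mem hmM)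
    have h2 := M.mul_mem h1 (hMn b hb' _ (M.inv_mem h1))
    have h3 := (hU b hb a⁻¹ ((K U).inv_mem ha)).eq
    convert h2 using 1
    calc a * b * a⁻¹ * b⁻¹ = a * (b * (m * a⁻¹ * (m : G)⁻¹)) * (m * a⁻¹ * (m : G)⁻¹)⁻¹ * a⁻¹ * b⁻¹ := by
          group
      _ = _ := by rw [h3]; group
  have s2 : ∀ V, ∀ a ∈ K V, ∀ b ∈ K V, a ∈ commutator G → b ∈ commutator G →
      a * b * a⁻¹ * b⁻¹ ∈ M := by
    intro V a ha b hb ha' hb'
    obtain ⟨W, g, hg, h1, h2⟩ := h2 V U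
    obtain ⟨W', s, -, -, h3⟩ := h3' W
    have key : ∀ x ∈ K V, (g * s * g⁻¹ * s⁻¹) * x * (g * s * g⁻¹ * s⁻¹)⁻¹ = g * x * g⁻¹ := by
      intro x hx
      have := (h3 x (h2 hx) g⁻¹ ((K W).inv_mem hg)).eq
      calc _ = g * (s * g⁻¹ * s⁻¹ * x) * (s * g⁻¹ * s⁻¹)⁻¹ * g⁻¹ := by group
        _ = _ := by rw [← this]; group
    have hn := (inferInstance : (commutator G).Normal)
    have := hMn _ ((commutator G).inv_mem (hc g s)) _ (s1 _ (h1 a ha) _ (h1 b hb)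
      (hn.conj_mem a ha' g) (hn.conj_mem b hb' g))
    rw [← key a ha, ← key b hb] at this
    convert this using 1
    group
  have s3 : ∀ V, ∀ a ∈ K V, ∀ b ∈ K V, a * b * a⁻¹ * b⁻¹ ∈ M := by
    intro V a ha b hb
    obtain ⟨W, s, hs, h1, h2⟩ := h3' V
    obtain ⟨W', s', hs', h3, h4⟩ := h3' W
    have ha' : a * s * a⁻¹ * s⁻¹ ∈ K W := by
      have := h1 ha
      exact mul_mem (mul_mem (mul_mem this hs) (inv_mem this)) (inv_mem hs)
    have hb' : b * s' * b⁻¹ * s'⁻¹ ∈ K W' := by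
      have := h3 (h1 hb)
      exact mul_mem (mul_mem (mul_mem this hs') (inv_mem this)) (inv_mem hs')
    have := s2 W' _ (h3 ha') _ hb' (hc a s) (hc b s')
    have e1 := (h4 _ ha' b⁻¹ (inv_mem (h1 hb))).eq
    have e2 := (h2 b hb a⁻¹ (inv_mem ha)).eq
    convert this using 1
    set c := a * s * a⁻¹ * s⁻¹ with hcd
    calc a * b * a⁻¹ * b⁻¹ = a * (b * (s * a⁻¹ * s⁻¹)) * (s * a⁻¹ * s⁻¹)⁻¹ * a⁻¹ * b⁻¹ := by group
      _ = c * b * c⁻¹ * b⁻¹ := by rw [e2, hcd]; group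
      _ = c * b * c⁻¹ * (c * (s' * b⁻¹ * s'⁻¹)) * c⁻¹ * (s' * b⁻¹ * s'⁻¹)⁻¹ * b⁻¹ := by
          rw [e1]; group
      _ = _ := by group
  let M0 : Subgroup G := Subgroup.normalClosure
    {x | ∃ V, ∃ a ∈ K V, ∃ b ∈ K V, x = a * b * a⁻¹ * b⁻¹}
  have hM0 : M0 ≤ M := by
    refine (Subgroup.closure_le _).2 fun x hx => ?_
    obtain ⟨_, ⟨V, a, ha, b, hb, rfl⟩, hx⟩ := Group.mem_conjugatesOfSet_iff.1 hx
    obtain ⟨g, rfl⟩ := isConj_iff.1 hx
    obtain ⟨V', hV'⟩ := hconj g V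
    have := s3 V' _ (hV' a ha) _ (hV' b hb)
    show _ ∈ M
    convert this using 1
    group
  let π := QuotientGroup.mk' M0
  have hπ : ∀ V, ∀ a ∈ K V, ∀ b ∈ K V, Commute (π a) (π b) := by
    intro V a ha b hb
    have : π (a * b * a⁻¹ * b⁻¹) = 1 :=
      (QuotientGroup.eq_one_iff _).2 (Subgroup.subset_normalClosure ⟨V, a, ha, b, hb, rfl⟩)
    simp only [map_mul, map_inv] at this
    exact commutatorElement_eq_one_iff_commute.1 this
  have hπ2 : ∀ U V, ∀ a ∈ K U, ∀ b ∈ K V, Commute (π a) (π b) := by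
    intro U V a ha b hb
    obtain ⟨W, g, hg, h1, h2⟩ := h2 U V
    have e1 := hπ V _ (h1 a ha) b hb
    have e2 := (hπ W g hg a (h2 ha)).eq
    simp only [map_mul, map_inv] at e1
    rwa [e2, mul_inv_cancel_right] at e1
  have hπ3 : ∀ a b, Commute (π a) (π b) := by
    intro a b
    have ha : a ∈ Subgroup.closure (⋃ U, (K U : Set G)) := hgen ▸ trivial
    have hb : b ∈ Subgroup.closure (⋃ U, (K U : Set G)) := hgen ▸ trivial
    induction ha, hb using Subgroup.closure_induction₂ with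
    | mem x y hx hy =>
      obtain ⟨U, hx⟩ := Set.mem_iUnion.1 hx
      obtain ⟨V, hy⟩ := Set.mem_iUnion.1 hy
      exact hπ2 U V x hx y hy
    | one_left => simp
    | one_right => simp
    | mul_left x y z _ _ _ h1 h2 => rw [map_mul]; exact h1.mul_left h2
    | mul_right x y z _ _ _ h1 h2 => rw [map_mul]; exact h1.mul_right h2
    | inv_left x y _ _ h => rw [map_inv]; exact h.inv_left
    | inv_right x y _ _ h => rw [map_inv]; exact h.inv_right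
  have hle : commutator G ≤ M := by
    refine le_trans (Subgroup.commutator_le.2 fun a _ b _ => ?_) hM0
    refine (QuotientGroup.eq_one_iff _).1 (show π _ = 1 from ?_)
    rw [map_commutatorElement]
    exact commutatorElement_eq_one_iff_commute.2 (hπ3 a b)
  refine eq_top_iff.2 fun x _ => ?_
  obtain ⟨y, hy, e⟩ := hle x.2
  rwa [← show y = x from Subtype.ext e]

/-- a group acting faithfully on a linear order is left-orderable -/
theorem lo_of_hom {G L : Type} [Group G] [LinearOrder L] (φ : G →* (L ≃o L)) (hφ : Injective φ) :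
    ∃ lt : G → G → Prop, (∀ a, ¬ lt a a) ∧ (∀ a b c, lt a b → lt b c → lt a c) ∧
      (∀ a b, lt a b ∨ a = b ∨ lt b a) ∧ (∀ a b c, lt b c → lt (a * b) (a * c)) := by
  let r : L → L → Prop := WellOrderingRel
  have hr : IsWellOrder L r := WellOrderingRel.isWellOrder
  refine ⟨fun a b => ∃ z, φ a z < φ b z ∧ ∀ w, r w z → φ a w = φ b w, ?_, ?_, ?_, ?_⟩
  · rintro a ⟨z, h, -⟩; exact lt_irrefl _ h
  · rintro a b c ⟨z, h1, h2⟩ ⟨w, h3, h4⟩
    rcases trichotomous_of r z w with h | rfl | h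
    · exact ⟨z, h4 z h ▸ h1, fun v hv => (h2 v hv).trans (h4 v (trans_of r hv h))⟩
    · exact ⟨z, h1.trans h3, fun v hv => (h2 v hv).trans (h4 v hv)⟩
    · exact ⟨w, (h2 w h).symm ▸ h3, fun v hv => (h2 v (trans_of r hv h)).trans (h4 v hv)⟩
  · intro a b
    by_cases h : a = b
    · exact Or.inr (Or.inl h)
    have hne : {z | φ a z ≠ φ b z}.Nonempty := by
      by_contra hn
      exact h (hφ (RelIso.ext fun z => by by_contra hz; exact hn ⟨z, hz⟩))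
    obtain ⟨z, hz, hmin⟩ := hr.wf.has_min _ hne
    have h1 : ∀ w, r w z → φ a w = φ b w := fun w hw => by
      by_contra h; exact hmin w h hw
    rcases lt_or_gt_of_ne hz with h2 | h2
    · exact Or.inl ⟨z, h2, h1⟩
    · exact Or.inr (Or.inr ⟨z, h2, fun w hw => (h1 w hw).symm⟩)
  · rintro a b c ⟨z, h1, h2⟩
    refine ⟨z, ?_, fun w hw => ?_⟩
    · simpa using h1
    · simpa using h2 w hw

theorem finiteIndex_commutator {G : Type} [Group G] [Group.FG G]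
    (h : ∀ (A : Type) [CommGroup A] [IsMulTorsionFree A] (ψ : G →* A), ∀ g, ψ g = 1) :
    (commutator G).FiniteIndex := by
  have h1 : IsMulTorsion (Abelianization G) := by
    intro a
    obtain ⟨g, rfl⟩ := QuotientGroup.mk_surjective (s := commutator G) a
    have := h _ ((QuotientGroup.mk' (CommGroup.torsion (Abelianization G))).comp
      Abelianization.of) g
    exact (QuotientGroup.eq_one_iff (N := CommGroup.torsion (Abelianization G)) _).1 this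
  have : Group.FG (Abelianization G) :=
    Group.fg_of_surjective (f := Abelianization.of) (QuotientGroup.mk_surjective)
  have : Finite (G ⧸ commutator G) := CommGroup.finite_of_fg_isMulTorsion (Abelianization G) h1
  exact Subgroup.finiteIndex_of_finite_quotient

theorem exists_asc {Γ : Type} [Group Γ] (A : Subgroup Γ) (t : Γ)
    (hc : ∀ a ∈ A, t * a * t⁻¹ ∈ A) (hinf : ∀ j : ℤ, t ^ j ∈ A → j = 0)
    (τ : Γ →* Γ) (hτt : τ t = t) (hτA : ∀ a ∈ A, τ a ∈ A) :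
    ∃ (D : Subgroup Γ) (𝒟 : Asc D), (𝒟.t : Γ) = t ∧ (∀ g : D, g ∈ 𝒟.A ↔ g.1 ∈ A) ∧
      (∀ (i : ℕ) g, t ^ i * g * (t ^ i)⁻¹ ∈ A → ∃ h : g ∈ D, 𝒟.χ ⟨g, h⟩ = 0) ∧
      (∀ W : Subgroup Γ, A ≤ W → t ∈ W → D ≤ W) ∧
      ∀ g : D, ∃ h : τ g ∈ D, 𝒟.χ ⟨τ g, h⟩ = 𝒟.χ g := by
  have hpow : ∀ a ∈ A, ∀ i : ℕ, t ^ i * a * (t ^ i)⁻¹ ∈ A := by
    intro a ha i
    induction i with
    | zero => simpa using ha
    | succ i ih => convert hc _ ih using 1; rw [pow_succ']; group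
  let N : Subgroup Γ :=
    { carrier := {g | ∃ i : ℕ, t ^ i * g * (t ^ i)⁻¹ ∈ A}
      one_mem' := ⟨0, by simp⟩
      mul_mem' := by
        rintro a b ⟨i, hi⟩ ⟨j, hj⟩
        refine ⟨i + j, ?_⟩
        convert A.mul_mem (hpow _ hi j) (hpow _ hj i) using 1
        group
      inv_mem' := by
        rintro a ⟨i, hi⟩
        exact ⟨i, by convert A.inv_mem hi using 1; group⟩ }
  have hN : ∀ (j : ℤ), ∀ g ∈ N, t ^ j * g * t ^ (-j) ∈ N := by
    rintro j g ⟨i, hi⟩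
    refine ⟨i + j.natAbs, ?_⟩
    obtain ⟨e, he⟩ : ∃ e : ℕ, (e : ℤ) = j.natAbs + j := ⟨(j.natAbs + j).toNat, by omega⟩
    convert hpow _ hi e using 1
    rw [← zpow_natCast, ← zpow_natCast, ← zpow_natCast, he]
    push_cast
    group
  have huniq : ∀ (g : Γ) (i j : ℤ), g * t ^ (-i) ∈ N → g * t ^ (-j) ∈ N → i = j := by
    intro g i j hi hj
    obtain ⟨e, he⟩ := N.mul_mem (N.inv_mem hi) hj
    have := hinf (i - j) (by convert he using 1; group)
    omega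
  let D : Subgroup Γ :=
    { carrier := {g | ∃ j : ℤ, g * t ^ (-j) ∈ N}
      one_mem' := ⟨0, by simp⟩
      mul_mem' := by
        rintro a b ⟨i, hi⟩ ⟨j, hj⟩
        exact ⟨i + j, by convert N.mul_mem hi (hN i _ hj) using 1; group⟩
      inv_mem' := by
        rintro a ⟨i, hi⟩
        exact ⟨-i, by convert hN (-i) _ (N.inv_mem hi) using 1; group⟩ }
  let χ : D → ℤ := fun g => g.2.choose
  have hχ : ∀ g : D, g.1 * t ^ (-χ g) ∈ N := fun g => g.2.choose_spec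
  have hχ' : ∀ (g : D) (j : ℤ), g.1 * t ^ (-j) ∈ N → χ g = j := fun g j h => huniq _ _ _ (hχ g) h
  refine ⟨D, ⟨χ, ⟨t, 1, by simp⟩, A.subgroupOf D, fun a b => hχ' _ _ ?_, hχ' _ _ (by simp),
    fun a ha => hχ' _ _ ⟨0, by simpa [Subgroup.mem_subgroupOf] using ha⟩,
    fun a ha => hc _ ha, fun g hg => ?_⟩, rfl, fun g => Iff.rfl, fun i g h => ?_, ?_, fun g => ?_⟩
  · convert N.mul_mem (hχ a) (hN (χ a) _ (hχ b)) using 1
    push_cast
    group
  · obtain ⟨i, hi⟩ := hχ g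
    exact ⟨i, by simpa [Subgroup.mem_subgroupOf, hg] using hi⟩
  · have : g * t ^ (-(0 : ℤ)) ∈ N := ⟨i, by simpa using h⟩
    exact ⟨⟨0, this⟩, hχ' _ _ this⟩
  · rintro W h1 h2 g ⟨j, i, h⟩
    have := W.mul_mem (W.mul_mem (W.mul_mem (W.inv_mem (W.pow_mem h2 i)) (h1 h)) (W.pow_mem h2 i))
      (W.zpow_mem h2 j)
    convert this using 1
    group
  · obtain ⟨i, hi⟩ := hχ g
    have : τ g * t ^ (-χ g) ∈ N := ⟨i, by simpa [hτt] using hτA _ hi⟩
    exact ⟨⟨_, this⟩, hχ' _ _ this⟩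

/-- the twisted power of an ascending HNN extension -/
theorem exists_twist {Γ : Type} [Group Γ] (D : Asc Γ) (τ : Γ →* Γ) (hττ : ∀ g, τ (τ g) = g)
    (hχ : ∀ g, D.χ (τ g) = D.χ g) (k : ℕ) :
    ∃ (α : MulAut (D.Hk (Fin (k+1)))) (ev : ℕ → D.Hk (Fin (k+1)) →* Γ),
      (∀ n a, ev (n+1) (α a) = ev n a) ∧ α ^ (2 * (k+1)) = 1 ∧
      (∀ a b, (∀ᶠ n in Filter.atTop, ev n a = ev n b) → a = b) ∧
      ∀ (C : Type) [CommGroup C] [IsMulTorsionFree C],
        (∀ (N : Subgroup Γ), (∀ g, g ∈ N ↔ D.χ g = 0) → ∀ ψ : N →* C,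
          (∀ a b : N, b.1 = τ a.1 → ψ b = ψ a) → ∀ a, ψ a = 1) →
        ∀ ψ : D.Hk (Fin (k+1)) →* C, (∀ a, ψ (α a) = ψ a) → ∀ a, ψ a = 1 := by
  classical
  let β : MulAut (D.Hk (Fin (k+1))) :=
    { toFun := fun a => ⟨fun i => if i + 1 = 0 then τ (a.1 (i+1)) else a.1 (i+1), by
        refine Eq.trans ?_ ((Equiv.sum_comp (Equiv.addRight 1) fun i => D.χ (a.1 i)).trans a.2)
        exact Finset.sum_congr rfl fun i _ => by beta_reduce; split_ifs <;> simp [hχ]⟩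
      invFun := fun a => ⟨fun i => if i = 0 then τ (a.1 (i-1)) else a.1 (i-1), by
        refine Eq.trans ?_ ((Equiv.sum_comp (Equiv.subRight 1) fun i => D.χ (a.1 i)).trans a.2)
        exact Finset.sum_congr rfl fun i _ => by beta_reduce; split_ifs <;> simp [hχ]⟩
      left_inv := fun a => Subtype.ext (funext fun i => by
        by_cases h : i = 0 <;> simp [h, hττ])
      right_inv := fun a => Subtype.ext (funext fun i => by
        by_cases h : i + 1 = 0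
        · simp only [h, if_true, hττ, ← eq_sub_of_add_eq h]
        · simp [h])
      map_mul' := fun a b => Subtype.ext (funext fun i => by
        by_cases h : i + 1 = 0 <;> simp [h]) }
  let ex : D.Hk (Fin (k+1)) → ℕ → Γ := fun a n =>
    τ^[n / (k+1)] (a.1 ⟨n % (k+1), Nat.mod_lt _ (by omega)⟩)
  have ex1 : ∀ a n, ex a (n + (k+1)) = τ (ex a n) := fun a n => by
    simp only [ex, Nat.add_mod_right]
    rw [Nat.add_div_right _ (by omega), iterate_succ_apply']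
  have ex0 : ∀ a (i : Fin (k+1)), ex a i = a.1 i := fun a i => by
    simp only [ex, Nat.mod_eq_of_lt i.2, Nat.div_eq_of_lt i.2]; rfl
  have hβ : ∀ a (j : ℕ) (i : Fin (k+1)), ((β ^ j) a).1 i = ex a (i + j) := by
    intro a j
    induction j with
    | zero => intro i; simp [ex0]
    | succ j ih =>
      intro i
      rw [pow_succ', MulAut.mul_apply]
      show (if i + 1 = 0 then τ (((β ^ j) a).1 (i+1)) else ((β ^ j) a).1 (i+1)) = _
      rw [ih]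
      split_ifs with h
      · have : i = Fin.last k := add_right_cancel (h.trans (Fin.last_add_one k).symm)
        rw [h, ← ex1, this]
        congr 1
        simp; omega
      · have : i ≠ Fin.last k := fun e => h (e ▸ Fin.last_add_one k)
        rw [Fin.val_add_one_of_lt (Fin.lt_last_iff_ne_last.2 this)]
        congr 1
        omega
  have hβk : ∀ a i, ((β ^ (k+1)) a).1 i = τ (a.1 i) := fun a i => by rw [hβ, ex1, ex0]
  have hβ2 : β ^ (2 * (k+1)) = 1 := by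
    ext a i
    rw [two_mul, pow_add, MulAut.mul_apply, hβk, hβk, hττ]; rfl
  refine ⟨β⁻¹, fun n => ((Pi.evalMonoidHom (fun _ => Γ) 0).comp (Subgroup.subtype _)).comp
    (β ^ n).toMonoidHom, fun n a => ?_, by rw [inv_pow, hβ2, inv_one], fun a b h => ?_, ?_⟩
  · show ((β ^ (n+1)) (β⁻¹ a)).1 0 = ((β ^ n) a).1 0
    rw [pow_succ, MulAut.mul_apply]; simp
  · obtain ⟨M, hM⟩ := Filter.eventually_atTop.1 h
    ext i
    have : ((β ^ (2 * (k+1) * M + i)) a).1 0 = ((β ^ (2 * (k+1) * M + i)) b).1 0 :=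
      hM (2 * (k+1) * M + i) (by nlinarith)
    rw [pow_add, pow_mul, hβ2, one_pow, one_mul, hβ, hβ] at this
    simpa [ex0] using this
  intro C _ _ hN ψ hψ a
  have hψ1 : ∀ (j : ℕ) a, ψ ((β ^ j) a) = ψ a := by
    intro j
    induction j with
    | zero => simp
    | succ j ih => intro a; rw [pow_succ', MulAut.mul_apply, ← hψ]; simpa using ih a
  let N : Subgroup Γ :=
    { carrier := {g | D.χ g = 0}
      one_mem' := by simp
      mul_mem' := fun {a b} (ha : D.χ a = 0) (hb : D.χ b = 0) => by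
        show D.χ _ = 0
        rw [D.χ_mul, ha, hb]; rfl
      inv_mem' := fun {a} (ha : D.χ a = 0) => by
        show D.χ _ = 0
        rw [D.χ_inv, ha]; rfl }
  let ι : (Fin (k+1) → N) →* D.Hk (Fin (k+1)) :=
    { toFun := fun x => ⟨fun i => x i, Finset.sum_eq_zero fun i _ => (x i).2⟩
      map_one' := rfl
      map_mul' := fun _ _ => rfl }
  have hι : ψ.comp ι = 1 := MonoidHom.pi_ext fun i x =>
    hN N (fun _ => Iff.rfl) ((ψ.comp ι).comp (MonoidHom.mulSingle (fun _ => N) i))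
      (fun a b hab => by
        show ψ (ι (Pi.mulSingle i b)) = ψ (ι (Pi.mulSingle i a))
        rw [← hψ1 (k+1) (ι (Pi.mulSingle i a))]
        congr 1
        ext j
        rw [hβk]
        show ((Pi.mulSingle i b : Fin (k+1) → N) j).1 = τ ((Pi.mulSingle i a : Fin (k+1) → N) j).1
        by_cases h : j = i
        · subst h; simpa using hab
        · simp [h]) x
  have hc : ∀ j : ℕ, ∃ c : D.Hk (Fin (k+1)), ψ c = ψ a ^ j ∧
      ∀ i : Fin (k+1), D.χ (c.1 i) = ∑ l ∈ Finset.range j, D.χ (ex a (l + i)) := by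
    intro j
    induction j with
    | zero => exact ⟨1, by simp, by simp⟩
    | succ j ih =>
      obtain ⟨c, h1, h2⟩ := ih
      refine ⟨c * (β ^ j) a, by rw [map_mul, h1, hψ1, pow_succ], fun i => ?_⟩
      rw [Finset.sum_range_succ, ← h2, add_comm j, ← hβ, ← D.χ_mul]; rfl
  obtain ⟨c, h1, h2⟩ := hc (k+1)
  have h3 : ∀ i, D.χ (c.1 i) = 0 := fun i => by
    rw [h2, Finset.sum_range]
    exact (Finset.sum_congr rfl fun l _ => by rw [hβ]).trans ((β ^ (i : ℕ)) a).2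
  have h4 : ψ c = 1 := DFunLike.congr_fun hι fun i => ⟨c.1 i, h3 i⟩
  exact (pow_eq_one_iff_left (by omega)).1 (h1.symm.trans h4)

end Pool.Agent.P.MP_267653_al
end

-- part Pool.Agent.P.MP_267653_al.Main
section

/-! Finiteness properties, simplicity and abelianisation of the germ extension. -/

set_option autoImplicit false

namespace Pool.Agent.P.MP_267653_al

open Function Filter Pool.Agent.Lib.Brown

theorem fix_O {g : Au} (h : ∀ q ∈ O, g q = q) : g = 1 := by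
  have key : ∀ g : Au, (∀ q ∈ O, g q = q) → ∀ x, ¬ x < g x := by
    intro g h x hx
    obtain ⟨c, e, he, h1, h2⟩ := exists_E hx
    obtain ⟨q, hq, h3, h4⟩ := O_dens he.ns (h2.trans_lt (g.strictMono hx))
    have := g.strictMono (g.strictMono (h1.trans h3))
    rw [h q hq, h q hq] at this
    exact lt_asymm h4 this
  refine RelIso.ext fun x => le_antisymm (not_lt.1 (key g h x)) (not_lt.1 fun hx => ?_)
  exact key g⁻¹ (fun q hq => g.injective (by simp [h q hq])) (g x) (by simpa using hx)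

namespace Dat

variable {H : Type} [Group H] (D : Dat H) {q : L}

theorem α_zpow {j : ℤ} (h : (j : ZMod D.N) = 0) : D.α ^ j = 1 := by
  obtain ⟨i, rfl⟩ := (ZMod.intCast_zmod_eq_zero_iff_dvd _ _).1 h
  rw [zpow_mul, zpow_natCast, D.αN, one_zpow]

theorem smul_eq (g : D.G) (q : X) : g • q = q ↔ ∃ j : ℤ, g.1 q.1 = (lam ^ j) q.1 :=
  Subtype.ext_iff.trans (nrm_eq q.2.2)

theorem X_ne {q q' : X} (h : q' ≠ q) (j : ℤ) : q'.1 ≠ (lam ^ j) q.1 := fun e => by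
  have := congrArg L.k e
  rw [lam_zpow_k, q.2.2, q'.2.2, zero_add] at this
  exact h (Subtype.ext (by simpa [← this] using e))

/-- the germ cocycle of the action on special points of the circle -/
noncomputable def coc : Coc D.G X H where
  y0 := 1
  c g q := (D.α ^ (-(g.1 q.1).k)).toEquiv * Equiv.mulLeft (D.c0 g q.1)
  c_one q := by
    ext y
    simp [q.2.2, (c0_eq_one (1 : D.G) q.2.1).2 (Reg.id _)]
  c_mul g h q := by
    ext y
    have hq := (h.2.1.2 _).2 q.2.1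
    simp only [smul_val, nrm, c0_mul g h q.2.1, c0_zpow g hq, CL.zpow g.2.1.1, lam_zpow_k,
      Equiv.Perm.mul_apply, Equiv.coe_mulLeft, MulEquiv.toEquiv_eq_coe, EquivLike.coe_coe,
      ← map_mul, ← MulAut.mul_apply, ← zpow_add, mul_assoc]
    congr 2
    simp
  fin g := g.2.2.2.2.subset fun q hq hn => hq (by simp [(c0_eq_one g q.2.1).2 hn])

theorem coc_one (g : D.G) (q : X) : D.coc.c g q D.coc.y0 = D.coc.y0 ↔ Reg g.1 q.1 := by
  rw [← c0_eq_one g q.2.1]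
  simp [coc]

theorem fn_G {m : ℕ} (hm : 1 ≤ m) (hH : Fn H m) : Fn D.G m := by
  classical
  refine Coc.fn_of_coc (C := D.coc) hm (fun q y => ?_) (fun j => ?_) (fun M0 M hM K hK => ?_)
  · obtain ⟨σ, hσ⟩ := D.exists_sigma q.2.1 (Eventually.of_forall fun _ => trivial)
    obtain ⟨h1, h2, h3, -⟩ := hσ y⁻¹
    refine ⟨σ y⁻¹, (D.smul_eq _ _).2 ⟨0, h1⟩, ?_, fun q' h => (D.coc_one _ _).2 (h3 _ (X_ne h))⟩
    show (D.α ^ _) (D.c0 _ _ * y) = 1
    rw [h2]; simp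
  · obtain ⟨X0, h⟩ := X_trans j
    refine ⟨X0, fun M hM => ?_⟩
    obtain ⟨b, hb, h1⟩ := h M hM
    refine ⟨⟨b, D.B_le hb⟩, fun q => (D.coc_one _ _).2 (hb.1 _), fun q hq => ?_⟩
    obtain ⟨q', h2, h3⟩ := h1 q hq
    rwa [show (⟨b, D.B_le hb⟩ : D.G) • q = q' from Subtype.ext ((nrm_eq q'.2.2).2 ⟨0, h3⟩)]
  simp only [smul_eq, coc_one] at hK
  have hj : ∀ g : K, ∀ q ∈ M, g.1.1 q.1 = (lam ^ (g.1.1 q.1).k) q.1 := fun g q hq => by
    obtain ⟨j, h⟩ := ((hK g).1 g.2).1 q hq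
    rw [h, lam_zpow_k, q.2.2, zero_add]
  have := NeZero.mk D.hN
  let φ : K →* (M → Multiplicative (ZMod D.N)) := MonoidHom.mk'
    (fun g q => Multiplicative.ofAdd ((g.1.1 q.1.1).k : ZMod D.N)) fun g h => funext fun q => by
      show Multiplicative.ofAdd ((g.1.1 (h.1.1 q.1.1)).k : ZMod D.N) = _
      rw [hj h q q.2, CL.zpow g.1.2.1.1, lam_zpow_k]
      simp
  have hφ : ∀ g : φ.ker, ∀ q ∈ M, ((g.1.1.1 q.1).k : ZMod D.N) = 0 := fun g q hq =>
    congrFun (MonoidHom.mem_ker.1 g.2) ⟨q, hq⟩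
  let Ψ : φ.ker →* (M0 → H) := MonoidHom.mk' (fun g q => D.c0 g.1.1 q.1.1) fun g h =>
    funext fun q => by
      show D.c0 (g.1.1 * h.1.1) q.1.1 = D.c0 g.1.1 q.1.1 * D.c0 h.1.1 q.1.1
      rw [c0_mul _ _ q.1.2.1, hj h q (hM q.2), c0_zpow _ q.1.2.1, D.α_zpow (hφ h q (hM q.2))]; rfl
  refine Fn.of_finite_target φ (Fn.of_surjective Ψ ?_ ?_ (hH.pi _))
  · rw [← MonoidHom.range_eq_top, eq_top_iff]
    intro a _
    refine Subgroup.pi_mem_of_mulSingle_mem a fun q => ?_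
    obtain ⟨σ, hσ⟩ := D.exists_sigma q.1.2.1 (S := fun w => ∀ q' ∈ M, q' ≠ q.1 → w ≠ q'.1)
      ((eventually_all_finset M).2 fun q' _ => by
        by_cases h : q' = q.1
        · exact Eventually.of_forall fun _ h' => absurd h h'
        · exact ((lt_or_gt_of_ne h).elim (fun h => (ev_gt h).mono fun _ h => h.ne')
            fun h => (ev_lt h).mono fun _ h => h.ne).mono fun _ h _ => h)
    obtain ⟨h1, h2, h3, h4⟩ := hσ (a q)
    have h5 : ∀ q' ∈ M, (σ (a q)).1 q'.1 = q'.1 := fun q' hq' => by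
      by_cases h : q' = q.1
      · rw [h, h1]
      · exact h4 _ (q'.2.2.trans q.1.2.2.symm) fun h' => h' q' hq' h rfl
    refine ⟨⟨⟨σ (a q), (hK _).2 ⟨fun q' hq' => ⟨0, h5 q' hq'⟩, fun q' hq' => h3 _ (X_ne fun e =>
      hq' (e ▸ q.2))⟩⟩, funext fun q' => ?_⟩, funext fun q' => ?_⟩
    · show Multiplicative.ofAdd (((σ (a q)).1 q'.1.1).k : ZMod D.N) = 1
      rw [h5 _ q'.2, q'.1.2.2]; simp
    · show D.c0 (σ (a q)) q'.1.1 = _
      by_cases h : q' = q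
      · rw [h, h2]; simp
      · rw [Pi.mulSingle_eq_of_ne h, c0_eq_one _ q'.1.2.1]
        exact h3 _ (X_ne fun e => h (Subtype.ext e))
  · let ι : Ψ.ker →* BM M := ((((D.G.subtype.comp K.subtype).comp φ.ker.subtype).comp
      Ψ.ker.subtype)).codRestrict _ fun g => by
        obtain ⟨h1, h2⟩ := (hK g.1.1).1 g.1.1.2
        refine ⟨⟨fun z => ?_, g.1.1.1.2.1.1⟩, h1⟩
        by_cases hz : z ∈ O
        · refine (CL.reg g.1.1.1.2.1.1 (-z.k)).1 ?_
          by_cases h : (⟨nrm z, O_zpow hz _, nrm_k z⟩ : X) ∈ M0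
          · exact (c0_eq_one _ (O_zpow hz _)).1 (congrFun (MonoidHom.mem_ker.1 g.2) ⟨_, h⟩)
          · exact h2 _ h
        · exact g.1.1.1.2.2.1 z hz
    have hι : Injective ι := fun a b h => Subtype.ext (Subtype.ext (Subtype.ext (Subtype.ext
      (congrArg (fun x : BM M => x.1) h))))
    let ρ : BM M →* K := (BM M).subtype.codRestrict D.G (fun g => D.B_le g.2.1) |>.codRestrict K
      fun g => (hK _).2 ⟨g.2.2, fun q _ => g.2.1.1 _⟩
    have : ι.range.FiniteIndex := Subgroup.finiteIndex_of_le (H := (φ.comp ρ).ker) fun g hg =>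
      ⟨⟨⟨ρ g, hg⟩, funext fun q => (c0_eq_one _ q.1.2.1).2 (g.2.1.1 _)⟩, rfl⟩
    exact ((fn_BM hm M).subgroup ι.range).equiv (MonoidHom.ofInjective hι).symm

theorem gen_G (K : Subgroup D.G) (h1 : ∀ g : D.G, g.1 ∈ B → g ∈ K)
    (h2 : ∀ q : X, ∀ a, ∃ g ∈ K, g.1 q.1 = q.1 ∧ D.c0 g q.1 = a ∧
      ∀ z, (∀ j : ℤ, z ≠ (lam ^ j) q.1) → Reg g.1 z) (g : D.G) : g ∈ K := by
  induction hn : {q : X | ¬ Reg g.1 q.1}.ncard using Nat.strong_induction_on generalizing g with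
  | _ n ih =>
    by_cases hex : ∃ q : X, ¬ Reg g.1 q.1
    swap
    · refine h1 g ⟨fun z => ?_, g.2.1.1⟩
      by_cases hz : z ∈ O
      · rw [← CL.reg g.2.1.1 (-z.k)]
        exact not_not.1 fun h => hex ⟨⟨nrm z, O_zpow hz _, nrm_k z⟩, h⟩
      · exact g.2.2.1 z hz
    obtain ⟨q, hq⟩ := hex
    obtain ⟨h, hh, e1, e2, e3⟩ := h2 q (D.c0 g q.1)⁻¹
    suffices hlt : {q : X | ¬ Reg (g * h).1 q.1}.ncard < n by
      simpa using K.mul_mem (ih _ hlt (g * h) rfl) (K.inv_mem hh)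
    rw [← hn]
    refine lt_of_le_of_lt (Set.ncard_le_ncard_of_injOn (h • ·) (t := {q : X | ¬ Reg g.1 q.1} \ {q})
      (fun q' hq' => ?_) (MulAction.injective h).injOn (g.2.2.2.2.subset Set.sdiff_subset))
      (Set.ncard_sdiff_singleton_lt_of_mem hq g.2.2.2.2)
    have hne : q' ≠ q := by
      rintro rfl
      exact hq' ((c0_eq_one _ q'.2.1).1 (by rw [c0_mul _ _ q'.2.1, e1, e2, mul_inv_cancel]))
    exact ⟨fun h3 => hq' (((CL.reg g.2.1.1 _).1 h3).mul (e3 _ (X_ne hne))), fun e => hne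
      (MulAction.injective h (e.trans ((D.smul_eq h q).2 ⟨0, e1⟩).symm))⟩

theorem hom_G {C : Type} [CommGroup C] [IsMulTorsionFree C]
    (hH : ∀ ψ : H →* C, (∀ a, ψ (D.α a) = ψ a) → ∀ a, ψ a = 1) (ψ : D.G →* C) (g : D.G) :
    ψ g = 1 := by
  have hB : ∀ g : D.G, g.1 ∈ B → ψ g = 1 := fun g hg =>
    hom_B (ψ.comp (Subgroup.inclusion D.B_le)) ⟨g, hg⟩
  refine D.gen_G ψ.ker hB (fun q a => ?_) g
  obtain ⟨σ, hσ⟩ := D.exists_sigma q.2.1 (Eventually.of_forall fun _ => trivial)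
  refine ⟨σ a, hH (ψ.comp σ) (fun a => ?_) a, (hσ a).1, (hσ a).2.1, (hσ a).2.2.1⟩
  obtain ⟨t, ht, h1⟩ := exists_t {q}
  replace h1 := h1 q (by simp)
  let t' : D.G := ⟨t, D.B_le ht⟩
  have hc := (t' * σ (D.α a) * t'⁻¹ * σ a⁻¹).2.1.1
  have := hB (t' * σ (D.α a) * t'⁻¹ * σ a⁻¹) ⟨fun z => ?_, hc⟩
  · rw [map_mul, map_mul, map_mul, map_inv, map_inv, map_inv, mul_inv_cancel_comm,
      mul_inv_eq_one] at this
    exact this
  have f1 : ∀ a (j : ℤ), (σ a).1 ((lam ^ j) q.1) = (lam ^ j) q.1 := fun a j =>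
    (CL.fix (σ a).2.1.1 j).2 (hσ a).1
  have f2 : t⁻¹ (lam q.1) = q.1 := by rw [← h1]; simp
  by_cases hz : ∃ j : ℤ, z = (lam ^ j) q.1
  · obtain ⟨j, rfl⟩ := hz
    have hq := (O_lam q.2.1).1
    have f3 : (σ a⁻¹).1 (lam q.1) = lam q.1 := by simpa using f1 a⁻¹ 1
    have f4 : D.c0 (σ a⁻¹) (lam q.1) = D.α a⁻¹ := by
      simpa only [(hσ a⁻¹).2.1, zpow_one] using c0_zpow (σ a⁻¹) q.2.1 1
    rw [show j = (j - 1) + 1 by ring, zpow_add_one, RelIso.mul_apply, CL.reg hc,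
      ← c0_eq_one _ hq, c0_mul _ _ hq, f3, f4, c0_mul _ _ hq, show t'⁻¹.1 (lam q.1) = q.1 from f2,
      c0_mul _ _ q.2.1, (hσ _).1, (hσ _).2.1, (c0_eq_one t' q.2.1).2 (ht.1 _),
      (c0_eq_one t'⁻¹ hq).2 ((inv_mem ht.1 : t⁻¹ ∈ RA) _)]
    simp
  · push Not at hz
    refine ((ht.1 _).mul ((hσ _).2.2.1 _ fun j e => hz (j + 1) ?_)).mul
      ((inv_mem ht.1 : t⁻¹ ∈ RA) _) |>.mul ((hσ _).2.2.1 _ hz)
    refine (σ a⁻¹).1.injective (t⁻¹.injective ?_)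
    rw [f1, zpow_add_one, RelIso.mul_apply, CL.zpow (B.cl (inv_mem ht)), f2]
    exact e

theorem not_lam (m : D.G) (h : ∀ x, NS x → ∃ j : ℤ, m.1 x = (lam ^ j) x) : m = 1 := by
  have key : ∀ m : D.G, (∀ x, NS x → ∃ j : ℤ, m.1 x = (lam ^ j) x) → ∀ q ∈ O, ∀ j : ℕ,
      m.1 q = (lam ^ j) q → j = 0 := by
    intro m h q hq j e
    have hZ : Z (st 0) := ⟨rfl, by decide⟩
    obtain ⟨n, h1, h2, h3, h4⟩ := ((c0_spec m hq).and ((gm_pow hq j).and ((ev_at hq 0).and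
      (ev_at ((m.2.1.2 q).2 hq) 0)))).exists
    have h5 : Lam^[n] z0 = z0 := iterate_fixed (congrArg L.s (lam_st 0)) n
    obtain ⟨i, hi⟩ := h (gm q n (st 0)) (EC.ns ⟨_, rfl, congrArg _ h5⟩)
    have h6 := h1 _ hZ
    rw [(D.ev_mem _ _).2 (st 0) (Or.inl (L.lt_iff.2 (Or.inr ⟨rfl, 0, by simp, by decide⟩))),
      hi] at h6
    have h7 := congrArg L.k h6
    rw [lam_zpow_k, show (gm q n (st 0)).k = q.k from (congrArg L.k h3.1.2).symm,
      show (gm (m.1 q) n (st 0)).k = (m.1 q).k from (congrArg L.k h4.1.2).symm, e,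
      ← zpow_natCast, lam_zpow_k] at h7
    obtain rfl : i = j := by omega
    rw [zpow_natCast, h2, ← e] at h6
    by_contra hj
    exact gm_exit h4.1 (by omega) hZ _ h6.symm
  refine Subtype.ext (fix_O fun q hq => ?_)
  obtain ⟨j, hj⟩ := h q (O_ns hq)
  have hinv : ∀ x (j : ℤ), m.1 x = (lam ^ j) x → m⁻¹.1 x = (lam ^ (-j)) x := fun x j e =>
    m.1.injective (by rw [CL.zpow m.2.1.1, e]; simp)
  rcases Int.eq_nat_or_neg j with ⟨i, rfl | rfl⟩
  · rw [hj, key m h q hq i (by simpa using hj)]; rfl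
  · rw [hj, key m⁻¹ (fun x hx => (h x hx).elim fun j e => ⟨_, hinv x j e⟩) q hq i
      (by simpa using hinv q _ hj)]; rfl

theorem simple_G (hne : commutator D.G ≠ ⊥) : IsSimpleGroup (commutator D.G) := by
  refine simple_commutator (fun U : Arc => (Fx U.y U.z).subgroupOf D.G) (fun g U => ?_) ?_
    (fun U V => ?_) (fun U => ?_) (fun m hm => ?_) hne
  · obtain ⟨y, z, ⟨c, hy⟩, ⟨d, hz⟩, h1, h2⟩ := U
    exact ⟨⟨g.1 y, g.1 z, ⟨_, (g.2.2.1 y hy.not_O).ec hy⟩, ⟨_, (g.2.2.1 z hz.not_O).ec hz⟩,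
      g.1.strictMono h1, by rw [← mem_CL.1 g.2.1.1]; exact g.1.strictMono h2⟩,
      fun a ha => Fx.conj ha g.1⟩
  · refine eq_top_iff.2 fun g _ => D.gen_G _ (fun g hg => ?_) (fun q a => ?_) g
    · obtain ⟨g', h1, h2⟩ : g.1 ∈ (Subgroup.closure
          (⋃ U : Arc, ((Fx U.y U.z).subgroupOf D.G : Set D.G))).map D.G.subtype := by
        refine (Subgroup.closure_le _).2 ?_ (frag hg)
        rintro b ⟨hb, U, hU⟩
        exact ⟨⟨b, D.B_le hb⟩, Subgroup.subset_closure (Set.mem_iUnion.2 ⟨U, hU⟩), rfl⟩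
      rwa [← show g' = g from Subtype.ext h2]
    · obtain ⟨y, hy, h1, h2⟩ := (O_ns q.2.1).dens q.mem.2 0
      obtain ⟨z, hz, h3, h4⟩ := hy.ns.dens h2 0
      obtain ⟨σ, hσ⟩ := D.exists_sigma q.2.1 (ev_lt h1)
      have h5 := st_le.1 (q.mem.1.trans h1).le
      refine ⟨σ a, Subgroup.subset_closure (Set.mem_iUnion.2 ⟨⟨y, z, ⟨_, hy⟩, ⟨_, hz⟩, h3,
        h4.trans_le (st_le.2 (by simp [lam_apply, h5]))⟩, fun w h6 h7 => (hσ a).2.2.2 w ?_
          (not_lt.2 h6)⟩), (hσ a).1, (hσ a).2.1, (hσ a).2.2.1⟩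
      have := L.k_mono h6
      have := lt_st.1 (h7.trans h4)
      rw [q.2.2]; simp only at *; omega
  · obtain ⟨W, b, hb, h1, h2, h3⟩ := arc_move U V
    exact ⟨W, ⟨b, D.B_le hb⟩, h1, fun a ha => h3 a a.2.1.1 ha, fun a ha => h2 ha⟩
  · obtain ⟨V, h⟩ := arc_comm U
    exact ⟨V, fun a ha b hb => Subtype.ext (h a a.2.1.1 ha b b.2.1.1 hb)⟩
  · obtain ⟨x, hx, h1⟩ : ∃ x, NS x ∧ ∀ j : ℤ, m.1 x ≠ (lam ^ j) x := by
      by_contra h
      push Not at h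
      exact hm (D.not_lam m h)
    obtain ⟨i, h2, h3⟩ := exists_fd x (m.1 x)
    have h4 : x < (lam ^ i * m.1) x := lt_of_le_of_ne h2 fun e => h1 (-i) (by
      nth_rewrite 2 [e]; simp)
    have hμ : lam ^ i * m.1 ∈ CL := mul_mem (zpow_mem lam_CL i) m.2.1.1
    obtain ⟨e, he, h5, h6⟩ := hx.dens (lt_min h4 ((lam ^ i * m.1).lt_symm_apply.2 h3)) 0
    obtain ⟨e', he', h7, h8⟩ := he.ns.dens h6 0
    rw [lt_min_iff] at h8
    have h9 := (lam ^ i * m.1).lt_symm_apply.1 h8.2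
    refine ⟨⟨e', lam e, ⟨_, he'⟩, ⟨_, he.lam⟩, (h8.1.trans h3).trans (lam.strictMono h5),
      lam.strictMono h7⟩, fun a ha b hb => Subtype.ext (commute_of_fix fun w => ?_)⟩
    obtain ⟨l, h10, h11⟩ := exists_fd e w
    have hc := (m * b * m⁻¹).2.1.1
    rw [← CL.fix a.2.1.1 l, ← CL.fix hc l]
    rcases le_or_gt e' ((lam ^ l) w) with h | h
    · exact Or.inl (ha _ h h11)
    · refine Or.inr ((CL.fix hc 1).1 ?_)
      have := Fx.conj hb (lam ^ i * m.1)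
      rw [show lam ^ i * m.1 * D.G.subtype b * (lam ^ i * m.1)⁻¹ =
        lam ^ i * (m * b * m⁻¹).1 * (lam ^ i)⁻¹ by simp [mul_assoc], CL.conj hc, mem_CL.1 hμ] at this
      refine this _ (h9.le.trans ?_) ?_
      · simpa using h5.le.trans h10
      · simpa using (h.trans h8.1).trans ((lam ^ i * m.1).strictMono h5)

theorem quasi : ∃ (κ : D.G → H) (σ : H →* D.G),
    (∀ s, (Set.range fun g => (κ g)⁻¹ * κ (g * s)).Finite) ∧ ∀ h, κ (σ h) = h := by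
  obtain ⟨q, hq⟩ : ∃ q, q ∈ O := ⟨_, O_pt 0⟩
  obtain ⟨σ, hσ⟩ := D.exists_sigma hq (Eventually.of_forall fun _ => trivial)
  refine ⟨fun g => (D.c0 g⁻¹ q)⁻¹, σ, fun s => ?_, fun h => by
    simp only [← map_inv, (hσ _).2.1, inv_inv]⟩
  have h1 : (Set.range fun j : ℤ => D.α ^ j).Finite :=
    finite_zpowers.2 (isOfFinOrder_iff_pow_eq_one.2 ⟨_, Nat.pos_of_ne_zero D.hN, D.αN⟩)
  refine (((h1.prod s⁻¹.2.2.2.2).image fun p => (p.1 (D.c0 s⁻¹ p.2.1))⁻¹).insert 1).subset ?_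
  rintro _ ⟨g, rfl⟩
  have h2 := (g⁻¹.2.1.2 _).2 hq
  simp only [mul_inv_rev, c0_mul _ _ hq, inv_inv, mul_inv_cancel_left]
  generalize g⁻¹.1 _ = z at h2
  have h3 : nrm z ∈ O := O_zpow h2 _
  have e : D.c0 s⁻¹ z = (D.α ^ z.k) (D.c0 s⁻¹ (nrm z)) := by
    rw [← c0_zpow _ h3]; simp [nrm]
  by_cases h : Reg s⁻¹.1 (nrm z)
  · left
    rw [e, (c0_eq_one _ h3).2 h]; simp
  · exact Or.inr ⟨(_, ⟨nrm z, O_zpow h2 _, nrm_k z⟩), ⟨⟨_, rfl⟩, h⟩, by rw [e]⟩

end Dat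

theorem move_in {c d e : ZMod 2} {x y a a' : L} (hx : EC c x) (hy : EC d y) (ha : EC e a)
    (ha' : EC e a') (h1 : x < a) (h2 : a < y) (h3 : x < a') (h4 : a' < y) :
    ∃ g ∈ F x y, g a = a' := by
  obtain ⟨g0, hg0, e0, -⟩ := key ha ha' ha.lam ha'.lam (lt_lam _) (lt_lam _)
  obtain ⟨g, hg, e1, e2, e3⟩ := ext2 hg0 hx hx hy hy ha ha h1 le_rfl h2 (e0 ▸ h3) (e0 ▸ h4)
  obtain ⟨f, hf, h⟩ := cut hg hx hy (h1.trans h2).le e1 e2
  exact ⟨f, hf, by rw [h a h1.le h2.le, e3 a le_rfl le_rfl, e0]⟩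

theorem Rf.map {y y' : L} (h : Rf y y') (g : Au) : Rf (g y) (tau g y') := fun w => by
  obtain ⟨w, rfl⟩ := g.surjective w
  rw [show rf (g w) = tau g (rf w) by simp [tau_apply], OrderIso.lt_iff_lt, OrderIso.le_iff_le, h]

theorem rf_st (j : ℤ) : Rf (st j) (st (2 - j)) := fun w => by
  rw [lt_st, st_le]; simp only [rf]; omega

theorem main {m : ℕ} (hm : 1 ≤ m) : ∃ (G : Type) (_ : Group G) (φ : G →* Au), Injective φ ∧
    IsSimpleGroup G ∧ Fn G m ∧ ¬ FPG G (m+1) := by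
  obtain ⟨c0, -, -⟩ := (show Cht (fun w => ⟨0, w⟩) (st 0) (st (0+1)) from
    ⟨1, one_mem _, 0, fun _ => rfl, rfl, rfl⟩).child
  have hx0 := c0.ec (EC.st 0)
  obtain ⟨y0, y1, c1, r1, r2, -⟩ := c0.rf
  obtain ⟨d0, hy0⟩ := c1.E
  have l0 := c0.lt
  have l1 : (⟨0, cons 1 z0⟩ : L) < st 1 := lt_st.2 (by simp)
  generalize (⟨0, cons 1 z0⟩ : L) = x0 at hx0 r2 l0 l1
  obtain ⟨x1, hx1, l2, l3⟩ := hx0.ns.dens l1 ((0 : ℤ) + 1)
  obtain ⟨t0, ht0, e0⟩ := move_in (EC.st 0) (EC.st 1) hx0 hx1 l0 l1 (l0.trans l2) l3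
  have ht1 : tau t0 ∈ F (st 1) (st 2) := ⟨tau_ra ht0.1, (rf_st 0).sp (rf_st 1) ht0.2⟩
  have hcm : Commute t0 (tau t0) := commute_of_fix fun w => (le_or_gt (st 1) w).imp
    (fun h => ht0.2 w (Or.inr h)) fun h => ht1.2 w (Or.inl h)
  have hτt : tau (t0 * tau t0) = t0 * tau t0 := by rw [map_mul, tau_tau, hcm.eq]
  have ht : t0 * tau t0 ∈ F (st 0) (st 2) :=
    mul_mem ⟨ht0.1, Sp.mono le_rfl (st_le.2 (by simp)) ht0.2⟩
      ⟨ht1.1, Sp.mono (st_le.2 (by simp)) le_rfl ht1.2⟩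
  have l4 : x0 < (t0 * tau t0) x0 := by rwa [RelIso.mul_apply, ht1.2 x0 (Or.inl l1), e0]
  generalize t0 * tau t0 = t at hτt ht l4
  have l5 : t y0 < y0 := r2.lt (by simpa only [hτt] using r2.map t) l4
  have l6 : y0 < st 2 := (rf_st 0).lt r2 l0
  have l7 : st 1 < y0 := r2.lt (rf_st 1) l1
  have hconj : ∀ a ∈ F x0 y0, t * a * t⁻¹ ∈ F (t x0) (t y0) := fun a ha =>
    ⟨mul_mem (mul_mem ht.1 ha.1) (inv_mem (S := Subgroup Au) ht.1), Sp.conj ha.2 t⟩
  obtain ⟨Γ, 𝒟, d1, d2, d3, d4, d5⟩ := exists_asc (F x0 y0) t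
    (fun a ha => ⟨(hconj a ha).1, Sp.mono l4.le l5.le (hconj a ha).2⟩)
    (fun j hj => by
      have h1 : ∀ n : ℕ, x0 < (t ^ (n+1)) x0 := fun n => by
        induction n with
        | zero => simpa using l4
        | succ n ih => rw [pow_succ']; exact l4.trans (t.strictMono ih)
      have h2 := Sp.lo hj.2
      rcases j with (_ | n) | n
      · rfl
      · exact absurd h2 (h1 n).ne'
      · rw [zpow_negSucc] at h2
        exact absurd (by nth_rewrite 1 [← h2]; simp) (h1 n).ne')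
    tau hτt fun a ha => ⟨tau_ra ha.1, r2.sp r2.symm ha.2⟩
  let τ : Γ →* Γ := (tau.comp Γ.subtype).codRestrict Γ fun g => (d5 g).1
  obtain ⟨α, ev, a1, a2, a3, a4⟩ := exists_twist 𝒟 τ (fun g => Subtype.ext (tau_tau _))
    (fun g => (d5 g).2) (m+1)
  have hw1 : EC 0 (⟨0, cons 2 (cons 2 z0)⟩ : L) := ⟨(0, [2, 2]), rfl, rfl⟩
  obtain ⟨e, he, e1, e2⟩ := key (EC.st 0) (show EC _ w0 from ⟨(0, [2]), rfl, rfl⟩) (EC.st 2) hw1
    (lt_st.2 (by simp)) (L.lt_iff.2 (Or.inr ⟨rfl, 1, by decide, by decide⟩))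
  have hΓ := d4 (F (st 0) (st 2)) (fun a ha => ⟨ha.1, Sp.mono l0.le l6.le ha.2⟩) ht
  let D : Dat (𝒟.Hk (Fin (m+1+1))) :=
    { α := α
      N := 2 * (m+1+1)
      hN := by omega
      αN := a2
      ev := fun n => ((MulAut.conj e).toMonoidHom.comp Γ.subtype).comp (ev n)
      ev_mem := fun n a => ⟨mul_mem (mul_mem he (hΓ (ev n a).2).1) (inv_mem (S := Subgroup Au) he),
        Sp.mono e1.ge (e2 ▸ (lt_st.2 (by simp)).le) (Sp.conj (hΓ (ev n a).2).2 e)⟩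
      ev_α := fun n a => by simp only [MonoidHom.comp_apply, a1]
      ev_inj := fun a b h => a3 a b (h.mono fun n h => Subtype.ext ((MulAut.conj e).injective h)) }
  have hAΓ : F x0 y0 ≤ Γ := fun g hg => (d3 0 g (by simpa using hg)).1
  have hA : Fn 𝒟.A m := by
    rw [show 𝒟.A = (F x0 y0).subgroupOf Γ from Subgroup.ext d2]
    exact (fn_F hx0 hy0 m).equiv (Subgroup.subgroupOfEquivOfLe hAΓ).symm
  have hG := D.fn_G hm (𝒟.fn_Hk hm hA (by simp))
  have hfg := hG.1.fg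
  have hfi : (commutator D.G).FiniteIndex := finiteIndex_commutator fun C _ _ ψ =>
    D.hom_G (a4 C fun N hN ψ hψ a => by
      obtain ⟨i, hi⟩ := 𝒟.exh a ((hN a).1 a.2)
      let ι : F x0 y0 →* N := ((MulAut.conj (𝒟.t ^ (i+1))⁻¹).toMonoidHom.comp
        (Subgroup.inclusion hAΓ)).codRestrict N fun b => (hN _).2 (by
          have : 𝒟.χ (Subgroup.inclusion hAΓ b) = 0 := 𝒟.χ_A _ ((d2 _).2 b.2)
          show 𝒟.χ ((𝒟.t ^ (i+1))⁻¹ * Subgroup.inclusion hAΓ b * (𝒟.t ^ (i+1))⁻¹⁻¹) = 0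
          simp [𝒟.χ_mul, this])
      have h1 := hconj _ ((d2 _).1 hi)
      have := hom_A hx0 hy0 (hx0.ra ht.1) (hy0.ra ht.1) r2 l4 l5 (ψ.comp ι) (fun b b' h =>
        hψ _ _ (Subtype.ext (by
          show (𝒟.t ^ (i+1)).1⁻¹ * b'.1 * (𝒟.t ^ (i+1)).1⁻¹⁻¹ =
            tau ((𝒟.t ^ (i+1)).1⁻¹ * b.1 * (𝒟.t ^ (i+1)).1⁻¹⁻¹)
          simp [h, d1, hτt]))) ⟨_, h1.1, Sp.mono l4.le l5.le h1.2⟩ h1
      rw [← this]
      refine congrArg ψ (Subtype.ext (Subtype.ext ?_))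
      show _ = (𝒟.t ^ (i+1)).1⁻¹ * (t * (𝒟.t ^ i * a.1 * (𝒟.t ^ i)⁻¹).1 * t⁻¹) * (𝒟.t ^ (i+1)).1⁻¹⁻¹
      simp only [Subgroup.coe_mul, Subgroup.coe_pow, Subgroup.coe_inv, d1]
      group) ψ
  have hnot : ¬ FPG D.G (m+1) := by
    obtain ⟨κ, σ, h1, h2⟩ := D.quasi
    obtain ⟨u, hu, l8, l9⟩ := hx0.ns.dens (lt_min l4 (l1.trans l7)) 0
    obtain ⟨u', hu', l10, l11⟩ := hu.ns.dens l9 0
    rw [lt_min_iff] at l9 l11
    obtain ⟨a, ha, e3⟩ := move_in hx0 hy0 hu hu' l8 l9.2 (l8.trans l10) l11.2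
    obtain ⟨h3, h4⟩ := d3 1 (t⁻¹ * a * t) (by simpa [mul_assoc] using ha)
    refine 𝒟.not_fpg (by simp) _ h4 (fun h => ?_) κ h1 σ h2
    have := ((d2 _).1 h).2 (t⁻¹ u) (Or.inl (t.symm_apply_lt.2 l9.1))
    simp [e3, l10.ne'] at this
  have hne : commutator D.G ≠ ⊥ := fun h => by
    rw [h] at hfi
    have : Finite D.G := Nat.finite_of_card_ne_zero (by simpa using hfi.index_ne_zero)
    exact hnot (fn_of_finite _).2
  exact ⟨commutator D.G, inferInstance, D.G.subtype.comp (Subgroup.subtype _),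
    Subtype.val_injective.comp Subtype.val_injective, D.simple_G hne, hG.subgroup _,
    fun h => hnot (FPG.of_finiteIndex _ h)⟩

end Pool.Agent.P.MP_267653_al
end
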